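import Pool.Agent.Helper26.LeoDer

set_option autoImplicit false
open Filter MeasureTheory Set Topology

namespace Pool.Agent.Helper26.Leo

lemma II_add_smul {k k' : ℝ → ℝ} {L L' : ℝ} (h : Ker k L) (h' : Ker k' L') (a : ℝ) :
    II (fun x => k x + a * k' x) = II k + a * II k' := by
  unfold II
  rw [← integral_const_mul, ← integral_add (ker_integrable h zero_le_one)
    ((ker_integrable h' zero_le_one).const_mul a)]

lemma II_uk {c : ℝ} (hc : c < 1) (hc' : 0 ≤ c) : II (uk c) = II (ec c) + 16 * (1 - c) * II mm :=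
  II_add_smul (ec_ker hc (by linarith)) mm_ker _

lemma II_lk {c : ℝ} (hc : c < 1) (hc' : 0 ≤ c) : II (lk c) = II (ec c) + -(8 * (1 - c)) * II mm :=
  II_add_smul (ec_ker hc (by linarith)) mm_ker _

lemma choose_c {ε : ℝ} (hε : 0 < ε) : ∃ c : ℝ, 0 ≤ c ∧ c < 1 ∧ |II (uk c) - m0| < ε ∧
    |II (lk c) - m0| < ε ∧ 3 * (1 - c) ^ (1/4 : ℝ) * 14 < ε := by
  obtain ⟨c₀, h0, h1, h2⟩ := II_near (half_pos hε)
  have t1 : Tendsto (fun c : ℝ => 16 * (1 - c) * |II mm|) (𝓝 1) (𝓝 0) := by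
    have : Continuous (fun c : ℝ => 16 * (1 - c) * |II mm|) := by fun_prop
    simpa using this.tendsto 1
  have t2 : Tendsto (fun c : ℝ => 3 * (1 - c) ^ (1/4 : ℝ) * 14) (𝓝 1) (𝓝 0) := by
    have : Continuous (fun c : ℝ => 3 * (1 - c) ^ (1/4 : ℝ) * 14) := by
      apply Continuous.mul _ continuous_const
      apply continuous_const.mul
      exact (continuous_const.sub continuous_id).rpow_const (fun _ => Or.inr (by norm_num))
    have := this.tendsto 1
    simpa using this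
  have e1 := t1.eventually (gt_mem_nhds (half_pos hε))
  have e2 := t2.eventually (gt_mem_nhds hε)
  have e3 : ∀ᶠ c in 𝓝[<] (1:ℝ), c₀ < c := by
    exact (lt_mem_nhds h1).filter_mono nhdsWithin_le_nhds
  have e4 : ∀ᶠ c in 𝓝[<] (1:ℝ), c < 1 := eventually_mem_nhdsWithin
  obtain ⟨c, ⟨⟨⟨a1, a2⟩, a3⟩, a4⟩⟩ := (((e1.and e2).filter_mono nhdsWithin_le_nhds).and e3 |>.and e4).exists
  have hc0 : 0 ≤ c := by linarith
  have h3 := h2 c a3 a4
  have hq : 0 < 1 - c := by linarith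
  refine ⟨c, hc0, a4, ?_, ?_, a2⟩
  · rw [II_uk a4 hc0]
    calc |II (ec c) + 16 * (1 - c) * II mm - m0|
        = |(II (ec c) - m0) + 16 * (1 - c) * II mm| := by congr 1; ring
      _ ≤ |II (ec c) - m0| + |16 * (1 - c) * II mm| := abs_add_le _ _
      _ = |II (ec c) - m0| + 16 * (1 - c) * |II mm| := by
          rw [abs_mul (16 * (1 - c)), abs_of_pos (show 0 < 16 * (1 - c) by positivity)]
      _ < ε := by linarith
  · rw [II_lk a4 hc0]
    calc |II (ec c) + -(8 * (1 - c)) * II mm - m0|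
        = |(II (ec c) - m0) + -(8 * (1 - c)) * II mm| := by congr 1; ring
      _ ≤ |II (ec c) - m0| + |-(8 * (1 - c)) * II mm| := abs_add_le _ _
      _ = |II (ec c) - m0| + 8 * (1 - c) * |II mm| := by
          rw [abs_mul (-(8 * (1 - c))), abs_neg, abs_of_pos (show 0 < 8 * (1 - c) by positivity)]
      _ < ε := by
          have : 0 ≤ 8 * (1 - c) * |II mm| := by positivity
          linarith

lemma ph_sum (N : ℝ) : ph 0 N + ph 1 N + ph 2 N = 1 := by
  rw [ph1]; ring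

lemma rpow43_tendsto : Tendsto (fun r : ℝ => r ^ (4/3 : ℝ)) atTop atTop :=
  tendsto_rpow_atTop (by norm_num)

lemma le_rpow43 {r : ℝ} (hr : 1 ≤ r) : r ≤ r ^ (4/3 : ℝ) := by
  have := Real.rpow_le_rpow_of_exponent_le hr (show (1:ℝ) ≤ 4/3 by norm_num)
  rwa [Real.rpow_one] at this

lemma poly_le_exp {b : ℝ} (C : ℝ) (hb : 0 < b) : ∀ᶠ r : ℝ in atTop, C * r ≤ Real.exp (b * r) := by
  filter_upwards [eventually_ge_atTop (2 * |C| / b ^ 2), eventually_ge_atTop 0] with r h1 h2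
  have h3 := Real.quadratic_le_exp_of_nonneg (show 0 ≤ b * r by positivity)
  have h4 : 2 * |C| ≤ r * b ^ 2 := by rwa [div_le_iff₀ (by positivity)] at h1
  have h5 : C * r ≤ |C| * r := mul_le_mul_of_nonneg_right (le_abs_self C) h2
  have h6 : |C| * r ≤ (b * r) ^ 2 / 2 := by nlinarith
  nlinarith [mul_nonneg hb.le h2]

/-- Claim B -/
theorem claimB {ε : ℝ} (hε : 0 < ε) {j : ℕ} (hj : j < 3) :
    ∀ᶠ r : ℝ in atTop, ‖deriv ff (pt r (j * (Real.pi / 2)))‖
      ≤ Real.exp ((m0 + ε) * r ^ (4/3 : ℝ)) := by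
  obtain ⟨c, hc0, hc1, hu, _, _⟩ := choose_c (show 0 < ε / 4 by linarith)
  have ht := (GG_tendsto (kk := ku c j) (fun i _ => ku_ker hc1 hc0 j i)).comp rpow43_tendsto
  have ht2 := ht.eventually (gt_mem_nhds (show (0:ℝ) < ε / 4 by linarith))
  set B := (1 + Real.exp ((1 - c) - (1/2) * Real.log (1 - c ^ 2))) * SS with hB
  have hp := poly_le_exp B (show 0 < ε / 2 by linarith)
  filter_upwards [ht2, hp, eventually_ge_atTop 1] with r h1 h2 h3
  have hr0 : 0 ≤ r := by linarith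
  have hNr := le_rpow43 h3
  set N := r ^ (4/3 : ℝ) with hN
  have hN0 : 0 < N := by linarith
  have hlim : ph 0 N * II (ku c j 0) + ph 1 N * II (ku c j 1) + ph 2 N * II (ku c j 2)
      ≤ m0 + ε / 4 := by
    have r0 := ph_range 0 (by norm_num) N
    have r1 := ph_range 1 (by norm_num) N
    have r2 := ph_range 2 (by norm_num) N
    have hs := ph_sum N
    have hb := (abs_lt.1 hu).2
    have hkey : ∀ i < 3, II (ku c j i) ≤ m0 + ε / 4 := by
      intro i _
      unfold ku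
      split_ifs
      · linarith
      · unfold m0; linarith
    have k0 := mul_le_mul_of_nonneg_left (hkey 0 (by norm_num)) r0.1
    have k1 := mul_le_mul_of_nonneg_left (hkey 1 (by norm_num)) r1.1
    have k2 := mul_le_mul_of_nonneg_left (hkey 2 (by norm_num)) r2.1
    calc _ ≤ ph 0 N * (m0 + ε / 4) + ph 1 N * (m0 + ε / 4) + ph 2 N * (m0 + ε / 4) := by linarith
      _ = (ph 0 N + ph 1 N + ph 2 N) * (m0 + ε / 4) := by ring
      _ = _ := by rw [hs, one_mul]
  have hGG : GG (ku c j) N ≤ (m0 + ε / 2) * N := by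
    have h4 : GG (ku c j) N / N ≤ m0 + ε / 2 := by
      simp only [Function.comp_apply] at h1
      rw [← hN] at h1
      linarith
    rwa [div_le_iff₀ hN0] at h4
  refine (deriv_upper_ray hc1 hc0 hj hr0).trans ?_
  have h5 : r * (1 + Real.exp ((1 - c) - (1/2) * Real.log (1 - c ^ 2))) * SS ≤ Real.exp (ε / 2 * N) := by
    calc _ = B * r := by rw [hB]; ring
      _ ≤ Real.exp (ε / 2 * r) := h2
      _ ≤ _ := by rw [Real.exp_le_exp]; nlinarith
  calc _ ≤ Real.exp (ε / 2 * N) * Real.exp ((m0 + ε / 2) * N) :=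
        mul_le_mul h5 (Real.exp_le_exp.2 hGG) (Real.exp_pos _).le (Real.exp_pos _).le
    _ = _ := by rw [← Real.exp_add]; congr 1; ring

/-- Claim A -/
theorem claimA {ε : ℝ} (hε : 0 < ε) :
    ∀ᶠ K : ℕ in atTop, Real.exp ((m0 - ε) * ((K:ℝ)+1)) ≤ ‖deriv ff (aa K)‖ := by
  obtain ⟨c, hc0, hc1, _, hl, hq⟩ := choose_c (show 0 < ε / 4 by linarith)
  have hcast : Tendsto (fun K : ℕ => (K:ℝ)+1) atTop atTop :=
    tendsto_atTop_add_const_right _ _ tendsto_natCast_atTop_atTop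
  have ht : ∀ j : ℕ, ∀ᶠ K : ℕ in atTop, -(ε/4) < GG (kl c j) ((K:ℝ)+1) / ((K:ℝ)+1)
      - (ph 0 ((K:ℝ)+1) * II (kl c j 0) + ph 1 ((K:ℝ)+1) * II (kl c j 1)
        + ph 2 ((K:ℝ)+1) * II (kl c j 2)) := by
    intro j
    have := (GG_tendsto (kk := kl c j) (fun i _ => kl_ker hc1 hc0 j i)).comp hcast
    exact this.eventually (lt_mem_nhds (by linarith))
  have hp := hcast.eventually (poly_le_exp (Real.exp (lk c 1)) (show 0 < ε / 4 by linarith))
  filter_upwards [ht 0, ht 1, ht 2, hp, eventually_ge_atTop 1] with K h0 h1 h2 h3 h4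
  refine le_trans ?_ (deriv_lower_zero hc1 hc0 K)
  set N : ℝ := (K:ℝ) + 1 with hN
  have hN0 : 0 < N := by positivity
  have hN1 : 1 ≤ N := by rw [hN]; have : (0:ℝ) ≤ K := Nat.cast_nonneg K; linarith
  have hb := (abs_lt.1 hl).1
  have r0 := ph_range 0 (by norm_num) N
  have r1 := ph_range 1 (by norm_num) N
  have r2 := ph_range 2 (by norm_num) N
  have hs := ph_sum N
  have hGG : (m0 - ε / 2) * N ≤ GG (kl c (dir K)) N := by
    have h5 : m0 - ε / 2 ≤ GG (kl c (dir K)) N / N := by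
      have hd := dir_lt K
      have hcases : dir K = 0 ∨ dir K = 1 ∨ dir K = 2 := by omega
      have e00 : II (kl c 0 0) = II (lk c) := by simp [kl]
      have e01 : II (kl c 0 1) = m0 := by simp [kl, m0]
      have e10 : II (kl c 1 0) = m0 := by simp [kl, m0]
      have e11 : II (kl c 1 1) = II (lk c) := by simp [kl]
      have e12 : II (kl c 1 2) = m0 := by simp [kl, m0]
      have e21 : II (kl c 2 1) = m0 := by simp [kl, m0]
      have e22 : II (kl c 2 2) = II (lk c) := by simp [kl]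
      rcases hcases with h | h | h
      · have hz : ph 2 N = 0 := ph2_of_dir0 h
        rw [h]
        rw [e00, e01, hz] at h0
        rw [hz] at hs
        have : ph 0 N * (m0 - ε/4) ≤ ph 0 N * II (lk c) :=
          mul_le_mul_of_nonneg_left (by linarith) r0.1
        have e : ph 0 N * m0 + ph 1 N * m0 = m0 := by
          rw [← add_mul, show ph 0 N + ph 1 N = 1 by linarith, one_mul]
        have e' : ph 0 N * (ε / 4) ≤ ε / 4 := mul_le_of_le_one_left (by linarith) r0.2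
        linarith
      · rw [h]
        rw [e10, e11, e12] at h1
        have : ph 1 N * (m0 - ε/4) ≤ ph 1 N * II (lk c) :=
          mul_le_mul_of_nonneg_left (by linarith) r1.1
        have e : ph 0 N * m0 + ph 1 N * m0 + ph 2 N * m0 = m0 := by
          rw [← add_mul, ← add_mul, hs, one_mul]
        have e' : ph 1 N * (ε / 4) ≤ ε / 4 := mul_le_of_le_one_left (by linarith) r1.2
        linarith
      · have hz : ph 0 N = 0 := ph0_of_dir2 h
        rw [h]
        rw [e21, e22, hz] at h2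
        rw [hz] at hs
        have : ph 2 N * (m0 - ε/4) ≤ ph 2 N * II (lk c) :=
          mul_le_mul_of_nonneg_left (by linarith) r2.1
        have e : ph 1 N * m0 + ph 2 N * m0 = m0 := by
          rw [← add_mul, show ph 1 N + ph 2 N = 1 by linarith, one_mul]
        have e' : ph 2 N * (ε / 4) ≤ ε / 4 := mul_le_of_le_one_left (by linarith) r2.2
        linarith
    rwa [le_div_iff₀ hN0] at h5
  have htt : tt K ≤ N := by
    unfold tt
    rw [← hN]
    have := Real.rpow_le_rpow_of_exponent_le hN1 (show (3/4:ℝ) ≤ 1 by norm_num)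
    rwa [Real.rpow_one] at this
  have hT := tt_pos K
  have h6 : Real.exp (lk c 1) * tt K ≤ Real.exp (ε / 4 * N) := by
    refine le_trans ?_ h3
    exact mul_le_mul_of_nonneg_left htt (Real.exp_pos _).le
  have h7 : Real.exp (-(ε / 4 * N)) ≤ (Real.exp 1 / tt K) * Real.exp (-lk c 1) := by
    rw [Real.exp_neg, Real.exp_neg, ← one_div, ← one_div (Real.exp (lk c 1)), div_mul_div_comm,
      div_le_div_iff₀ (Real.exp_pos _) (by positivity)]
    have : 1 ≤ Real.exp 1 := Real.one_le_exp (by norm_num)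
    have h8 : 0 < Real.exp (ε / 4 * N) := Real.exp_pos _
    nlinarith
  have h9 : 3 * (1 - c) ^ (1/4 : ℝ) * (14 * N) ≤ ε / 4 * N := by
    have : 3 * (1 - c) ^ (1/4 : ℝ) * (14 * N) = (3 * (1 - c) ^ (1/4 : ℝ) * 14) * N := by ring
    rw [this]
    exact mul_le_mul_of_nonneg_right hq.le hN0.le
  calc Real.exp ((m0 - ε) * N)
      = Real.exp (-(ε / 4 * N)) * Real.exp ((m0 - ε / 2) * N - ε / 4 * N) := by
        rw [← Real.exp_add]; congr 1; ring
    _ ≤ ((Real.exp 1 / tt K) * Real.exp (-lk c 1)) * Real.exp (GG (kl c (dir K)) N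
        - 3 * (1 - c) ^ (1/4 : ℝ) * (14 * N)) := by
        apply mul_le_mul h7 _ (Real.exp_pos _).le (by positivity)
        rw [Real.exp_le_exp]; linarith
    _ = _ := by rw [mul_assoc, ← Real.exp_add]; congr 2; ring

/-- existence of pure states -/
lemma exists_state {s : ℕ} (hs : s < 3) {K : ℝ} (hK : 1 ≤ K) (R : ℝ) :
    ∃ N : ℝ, R ≤ N ∧ 0 < N ∧ (∀ i < 3, ph i N = if i = s then 1 else 0) ∧
      ∀ n : ℕ, N / K ≤ (n:ℝ)+1 → (n:ℝ)+1 ≤ K * N → dir n = s := by
  obtain ⟨R', hR0, hR⟩ := dir_window hK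
  interval_cases s
  · obtain ⟨N, h1, h2, h3⟩ := exists_sin_one (max R R')
    obtain ⟨a, b, c⟩ := ph_of_sin_one h3
    refine ⟨N, (le_max_left _ _).trans h1, h2, fun i hi => ?_,
      (hR N ((le_max_right _ _).trans h1)).1 h3⟩
    interval_cases i <;> simp [a, b, c]
  · obtain ⟨N, h1, h2, h3⟩ := exists_sin_zero (max R R')
    obtain ⟨a, b, c⟩ := ph_of_sin_zero h3
    refine ⟨N, (le_max_left _ _).trans h1, h2, fun i hi => ?_,
      (hR N ((le_max_right _ _).trans h1)).2.1 h3⟩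
    interval_cases i <;> simp [a, b, c]
  · obtain ⟨N, h1, h2, h3⟩ := exists_sin_neg_one (max R R')
    obtain ⟨a, b, c⟩ := ph_of_sin_neg_one h3
    refine ⟨N, (le_max_left _ _).trans h1, h2, fun i hi => ?_,
      (hR N ((le_max_right _ _).trans h1)).2.2 h3⟩
    interval_cases i <;> simp [a, b, c]

/-- choice of a good direction for every angle -/
lemma good_dir (φ : ℝ) : ∃ s < 3, 0 ≤ cj φ s ∧ cj φ s < 1 := by
  have h0 : cj φ 0 = Real.cos φ := by unfold cj; simp
  have h1 : cj φ 1 = Real.sin φ := by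
    unfold cj; rw [Nat.cast_one, one_mul, Real.cos_sub_pi_div_two]
  have h2 : cj φ 2 = -Real.cos φ := by
    unfold cj
    rw [show φ - ((2:ℕ):ℝ) * (Real.pi / 2) = φ - Real.pi by push_cast; ring, Real.cos_sub_pi]
  have hc1 := Real.cos_le_one φ
  have hc2 := Real.neg_one_le_cos φ
  have hsc := Real.sin_sq_add_cos_sq φ
  by_cases hA : Real.cos φ = 1
  · refine ⟨1, by norm_num, ?_⟩
    have : Real.sin φ = 0 := by
      rw [hA] at hsc; nlinarith
    rw [h1, this]; norm_num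
  · by_cases hB : Real.cos φ = -1
    · refine ⟨1, by norm_num, ?_⟩
      have : Real.sin φ = 0 := by
        rw [hB] at hsc; nlinarith
      rw [h1, this]; norm_num
    · rcases le_total 0 (Real.cos φ) with h | h
      · exact ⟨0, by norm_num, by rw [h0]; exact h, by rw [h0]; exact lt_of_le_of_ne hc1 hA⟩
      · refine ⟨2, by norm_num, by rw [h2]; linarith, ?_⟩
        rw [h2]
        have : -1 < Real.cos φ := lt_of_le_of_ne hc2 (Ne.symm hB)
        linarith

/-- kernels for lower bounds at general angles -/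
noncomputable def kg (φ : ℝ) (j : ℕ) : ℝ → ℝ :=
  if cj φ j = 1 then fun x => (-8) * mm x else ec (cj φ j)

lemma kg_ker (φ : ℝ) (j : ℕ) : ∃ L, Ker (kg φ j) L := by
  unfold kg
  split_ifs with h
  · exact ⟨_, mm_ker.smul (-8)⟩
  · have h1 := abs_le.1 (cj_abs φ j)
    exact ⟨_, ec_ker (lt_of_le_of_ne h1.2 h) h1.1⟩

lemma sing_window {N : ℝ} (hN : 0 < N) {n : ℕ} (h1 : 1/2 < xr N ((n:ℝ)+1))
    (h2 : xr N ((n:ℝ)+1) < 2) : N / 3 ≤ (n:ℝ)+1 ∧ (n:ℝ)+1 ≤ 3 * N := by
  have hn0 : (0:ℝ) ≤ n := Nat.cast_nonneg n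
  set R : ℝ := N / ((n:ℝ)+1) with hR
  have hR0 : 0 < R := by positivity
  have hx4 : xr N ((n:ℝ)+1) ^ 4 = R ^ 3 := by
    unfold xr
    rw [← hR, ← Real.rpow_natCast, ← Real.rpow_mul hR0.le, ← Real.rpow_natCast]; norm_num
  have hx0 : 0 ≤ xr N ((n:ℝ)+1) := by linarith
  have hlow : 1/16 < R ^ 3 := by
    rw [← hx4]
    calc (1/16:ℝ) = (1/2) ^ 4 := by norm_num
      _ < _ := by gcongr
  have hup : R ^ 3 < 16 := by
    rw [← hx4]
    calc xr N ((n:ℝ)+1) ^ 4 < 2 ^ 4 := by gcongr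
      _ = 16 := by norm_num
  have hR1 : 1/3 < R := by
    by_contra hcon
    push Not at hcon
    have : R ^ 3 ≤ (1/3) ^ 3 := by gcongr
    norm_num at this
    linarith
  have hR2 : R < 3 := by
    by_contra hcon
    push Not at hcon
    have : (3:ℝ) ^ 3 ≤ R ^ 3 := by gcongr
    norm_num at this
    linarith
  constructor
  · rw [hR, div_lt_iff₀ (by positivity)] at hR2
    linarith
  · rw [hR, lt_div_iff₀ (by positivity)] at hR1
    linarith

/-- Claim on positivity of the indicator -/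
theorem claimF4 (φ : ℝ) : ∃ c : ℝ, 0 < c ∧
    ∃ᶠ r : ℝ in atTop, Real.exp (c * r ^ (4/3 : ℝ)) ≤ ‖ff (pt r φ)‖ := by
  obtain ⟨s, hs, hs0, hs1⟩ := good_dir φ
  have hI : 0 < II (kg φ s) := by
    unfold kg; rw [if_neg hs1.ne]; exact II_pos hs0 hs1
  refine ⟨II (kg φ s) / 2, by linarith, ?_⟩
  have ht := GG_tendsto (kk := kg φ) (fun i _ => kg_ker φ i)
  have ht2 := ht.eventually (lt_mem_nhds (show -(II (kg φ s) / 2) < 0 by linarith))
  rw [eventually_atTop] at ht2
  obtain ⟨R₁, hR₁⟩ := ht2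
  rw [frequently_atTop]
  intro R
  obtain ⟨N, h1, h2, h3, h4⟩ := exists_state hs (K := 3) (by norm_num)
    (max R₁ (max 1 (|R| ^ (4/3 : ℝ))))
  have hN1 : R₁ ≤ N := (le_max_left _ _).trans h1
  have hN3 : |R| ^ (4/3 : ℝ) ≤ N := (le_max_right _ _).trans ((le_max_right _ _).trans h1)
  set r := N ^ (3/4 : ℝ) with hr
  have hr0 : 0 ≤ r := Real.rpow_nonneg h2.le _
  have hrN : r ^ (4/3 : ℝ) = N := by
    rw [hr, ← Real.rpow_mul h2.le]; norm_num
  have hRr : R ≤ r := by
    have := Real.rpow_le_rpow (by positivity) hN3 (show (0:ℝ) ≤ 3/4 by norm_num)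
    rw [← Real.rpow_mul (abs_nonneg R)] at this
    norm_num at this
    exact (le_abs_self R).trans this
  refine ⟨r, hRr, ?_⟩
  have hlow : Real.exp (GG (kg φ) (r ^ (4/3 : ℝ))) ≤ ‖ff (pt r φ)‖ := by
    apply ff_lower (fun i _ => kg_ker φ i) hr0
    intro n
    rw [EE_norm hr0, hrN]
    have hx : 0 ≤ xr N ((n:ℝ)+1) := xr_nonneg h2.le (by positivity)
    set x := xr N ((n:ℝ)+1) with hxdef
    have hcj := abs_le.1 (cj_abs φ (dir n))
    by_cases hc : cj φ (dir n) = 1
    · have hds : dir n ≠ s := fun h => by rw [h] at hc; linarith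
      have hns : ¬ (1/2 < x ∧ x < 2) := by
        rintro ⟨a, b⟩
        obtain ⟨a', b'⟩ := sing_window h2 a b
        exact hds (h4 n a' b')
      have hx1 : x ≠ 1 := by
        intro h; apply hns; rw [h]; norm_num
      have hsg : sg x = 0 := by unfold sg; rw [if_neg hns]
      have h5 := lower_ineq (c := 0) (by norm_num) le_rfl hx hx1
      rw [hsg, mul_zero, sub_zero] at h5
      have h6 : (-8) * mm x ≤ ec 1 x := by
        refine le_trans ?_ h5
        unfold lk
        have := ec_zero_nonneg x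
        linarith
      have hD : 0 < 1 - 2 * 1 * x + x ^ 2 := by
        rw [show 1 - 2 * 1 * x + x ^ 2 = (1 - x) ^ 2 by ring]
        have : 1 - x ≠ 0 := sub_ne_zero.2 hx1.symm
        positivity
      rw [hc, sqrt_exp_eq hD]
      unfold kg
      rw [if_pos hc, Real.exp_le_exp]
      exact h6
    · have hlt : cj φ (dir n) < 1 := lt_of_le_of_ne hcj.2 hc
      rw [sqrt_exp_eq (D_pos hlt hcj.1 hx)]
      unfold kg
      rw [if_neg hc]
  refine le_trans ?_ hlow
  rw [Real.exp_le_exp, hrN]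
  have h5 := hR₁ N hN1
  have h6 : ph 0 N * II (kg φ 0) + ph 1 N * II (kg φ 1) + ph 2 N * II (kg φ 2) = II (kg φ s) := by
    rw [h3 0 (by norm_num), h3 1 (by norm_num), h3 2 (by norm_num)]
    interval_cases s <;> simp
  rw [h6] at h5
  have h7 : II (kg φ s) / 2 ≤ GG (kg φ) N / N := by linarith
  rwa [le_div_iff₀ h2] at h7

/-- kernels for the upper bound at angle π -/
noncomputable def kp (j : ℕ) : ℝ → ℝ := if j = 0 then ec (-1) else if j = 1 then ec 0 else uk 0

lemma kp_ker (j : ℕ) : ∃ L, Ker (kp j) L := by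
  unfold kp
  split_ifs
  · exact ⟨_, ec_ker (by norm_num) (by norm_num)⟩
  · exact ⟨_, ec_ker (by norm_num) (by norm_num)⟩
  · exact uk_ker (by norm_num) le_rfl

lemma cj_pi (j : ℕ) (hj : j < 3) : cj Real.pi j = if j = 0 then -1 else if j = 1 then 0 else 1 := by
  unfold cj
  interval_cases j
  · simp
  · simp only [Nat.cast_one, one_mul, one_ne_zero, if_false, if_true]
    rw [show Real.pi - Real.pi / 2 = Real.pi / 2 by ring, Real.cos_pi_div_two]
  · rw [show Real.pi - ((2:ℕ):ℝ) * (Real.pi / 2) = 0 by push_cast; ring, Real.cos_zero]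
    norm_num

/-- Claim on smallness -/
theorem claimF5 (R : ℝ) : ∃ R' : ℝ, R ≤ R' ∧ 0 < R' ∧ ∀ r : ℝ, R' ≤ r → r ≤ 2 * R' →
    ‖ff (pt r Real.pi)‖ ≤ 1 := by
  have hI : II (kp 0) < 0 := by unfold kp; rw [if_pos rfl]; exact II_neg
  have ht := GG_tendsto (kk := kp) (fun i _ => kp_ker i)
  have ht2 := ht.eventually (gt_mem_nhds (show 0 < -(II (kp 0)) by linarith))
  rw [eventually_atTop] at ht2
  obtain ⟨R₁, hR₁⟩ := ht2
  obtain ⟨R₂, hR₂0, hR₂⟩ := ss_window (K := 3) (ε := 1/16) (by norm_num) (by norm_num)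
  obtain ⟨N₀, h1, h2, h3⟩ := exists_sin_one (max (max R₁ R₂) (|R| ^ (4/3 : ℝ)))
  have hN1 : R₁ ≤ N₀ := (le_max_left _ _).trans ((le_max_left _ _).trans h1)
  have hN2 : R₂ ≤ N₀ := (le_max_right _ _).trans ((le_max_left _ _).trans h1)
  have hN3 : |R| ^ (4/3 : ℝ) ≤ N₀ := (le_max_right _ _).trans h1
  set r₀ := N₀ ^ (3/4 : ℝ) with hr₀
  have hr₀0 : 0 < r₀ := Real.rpow_pos_of_pos h2 _
  have hrN : r₀ ^ (4/3 : ℝ) = N₀ := by
    rw [hr₀, ← Real.rpow_mul h2.le]; norm_num
  have hRr : R ≤ r₀ := by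
    have := Real.rpow_le_rpow (by positivity) hN3 (show (0:ℝ) ≤ 3/4 by norm_num)
    rw [← Real.rpow_mul (abs_nonneg R)] at this
    norm_num at this
    exact (le_abs_self R).trans this
  refine ⟨r₀, hRr, hr₀0, fun r hr1 hr2 => ?_⟩
  have hr0 : 0 ≤ r := hr₀0.le.trans hr1
  set N := r ^ (4/3 : ℝ) with hN
  have hNlow : N₀ ≤ N := by
    rw [← hrN, hN]; exact Real.rpow_le_rpow hr₀0.le hr1 (by norm_num)
  have hNup : N ≤ 3 * N₀ := by
    have h5 : N ≤ (2 * r₀) ^ (4/3 : ℝ) := Real.rpow_le_rpow hr0 hr2 (by norm_num)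
    rw [Real.mul_rpow (by norm_num) hr₀0.le, hrN] at h5
    have h6 : (2:ℝ) ^ (4/3 : ℝ) ≤ 3 := by
      have h7 : ((2:ℝ) ^ (4/3 : ℝ)) ^ 3 = 16 := by
        rw [← Real.rpow_natCast, ← Real.rpow_mul (by norm_num)]
        rw [show (4/3 * ((3:ℕ):ℝ)) = ((4:ℕ):ℝ) by push_cast; norm_num, Real.rpow_natCast]
        norm_num
      by_contra hcon
      push Not at hcon
      have : (3:ℝ) ^ 3 < ((2:ℝ) ^ (4/3 : ℝ)) ^ 3 := by gcongr
      rw [h7] at this
      norm_num at this
    nlinarith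
  have hN0 : 0 < N := h2.trans_le hNlow
  have hup : ‖ff (pt r Real.pi)‖ ≤ Real.exp (GG kp N) := by
    apply ff_upper (fun i _ => kp_ker i) hr0
    intro n
    rw [EE_norm hr0]
    have hx : 0 ≤ xr (r ^ (4/3 : ℝ)) ((n:ℝ)+1) := xr_nonneg hN0.le (by positivity)
    rw [cj_pi _ (dir_lt n)]
    unfold kp
    split_ifs with a b
    · rw [sqrt_exp_eq (D_pos (by norm_num) (by norm_num) hx)]
    · rw [sqrt_exp_eq (D_pos (by norm_num) (by norm_num) hx)]
    · rw [factor_one]; exact upper_mul (by norm_num) le_rfl hx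
  refine hup.trans ?_
  rw [Real.exp_le_one_iff]
  have hwin := hR₂ N₀ hN2 N (by
    have : N₀ / 3 ≤ N₀ := by linarith
    linarith) hNup
  have hsin := abs_le.1 ((sin_diff (ss N) (ss N₀)).trans hwin)
  have p0 : ph 0 N = 1 := by rw [ph0]; apply clip_eq_one; linarith
  have p2 : ph 2 N = 0 := by rw [ph2]; apply clip_eq_zero; linarith
  have p1 : ph 1 N = 0 := by rw [ph1, p0, p2]; norm_num
  have h5 := hR₁ N (hN1.trans hNlow)
  rw [p0, p1, p2] at h5
  have h6 : GG kp N / N ≤ 0 := by linarith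
  rwa [div_le_iff₀ hN0, zero_mul] at h6

end Pool.Agent.Helper26.Leo
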