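import Pool.Agent.Helper26.LeoProd

set_option autoImplicit false
open Filter MeasureTheory Set Topology

namespace Pool.Agent.Helper26.Leo

lemma EE_zero_iff (n : ℕ) (z : ℂ) : EE n z = 0 ↔ z = aa n := by
  unfold EE
  rw [mul_eq_zero, or_iff_left (Complex.exp_ne_zero _), sub_eq_zero, eq_comm,
    div_eq_one_iff_eq (aa_ne n)]

lemma ff_zero_of (n : ℕ) : ff (aa n) = 0 := by
  have h := PP_tendsto (aa n)
  have h2 : Tendsto (fun L => PP L (aa n)) atTop (𝓝 0) := by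
    apply tendsto_const_nhds.congr'
    filter_upwards [eventually_gt_atTop n] with L hL
    unfold PP
    exact (Finset.prod_eq_zero (Finset.mem_range.2 hL) ((EE_zero_iff n _).2 rfl)).symm
  exact tendsto_nhds_unique h h2

lemma ff_ne_zero {z : ℂ} (hz : ∀ n, z ≠ aa n) : ff z ≠ 0 := by
  unfold ff
  apply tprod_one_add_ne_zero_of_summable
  · intro n
    rw [add_sub_cancel]
    exact fun h => hz n ((EE_zero_iff n z).1 h)
  · have h := EE_small (‖z‖ + 1)
    apply Summable.of_norm_bounded_eventually_nat (summable_tt.mul_left (3 * (‖z‖ + 1) ^ 2))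
    filter_upwards [h] with n hn
    rw [norm_norm]
    exact hn z (by rw [mem_ball_zero_iff]; linarith)

lemma ff_zero_iff (z : ℂ) : ff z = 0 ↔ ∃ n, z = aa n := by
  constructor
  · intro h
    by_contra hcon
    push Not at hcon
    exact ff_ne_zero hcon h
  · rintro ⟨n, rfl⟩; exact ff_zero_of n

lemma EE_hasDeriv (n : ℕ) (z : ℂ) :
    HasDerivAt (EE n) (-(z / aa n ^ 2) * Complex.exp (z / aa n)) z := by
  have h1 : HasDerivAt (fun w : ℂ => w / aa n) (1 / aa n) z := (hasDerivAt_id z).div_const _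
  have h2 := (h1.const_sub 1).mul h1.cexp
  unfold EE
  convert! h2 using 1
  have := aa_ne n
  field_simp
  ring

lemma PP_hasDeriv (L : ℕ) (z : ℂ) :
    HasDerivAt (PP L) (∑ n ∈ Finset.range L, (∏ k ∈ (Finset.range L).erase n, EE k z)
      • (-(z / aa n ^ 2) * Complex.exp (z / aa n))) z := by
  unfold PP
  exact HasDerivAt.fun_finsetProd (fun n _ => EE_hasDeriv n z)

/-- constant `S = Σ 1/t_n²` -/
noncomputable def SS : ℝ := ∑' n : ℕ, 1 / tt n ^ 2

lemma SS_pos : 0 < SS := by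
  unfold SS
  exact summable_tt.tsum_pos (fun n => by positivity) 0 (by have := tt_pos 0; positivity)

lemma deriv_upper {kk : ℕ → ℝ → ℝ} (hk : ∀ j < 3, ∃ L, Ker (kk j) L) {r : ℝ} (hr : 0 ≤ r) {z : ℂ}
    (hz : ‖z‖ = r) {B : ℝ} (hB : 0 ≤ B)
    (h : ∀ n : ℕ, ‖EE n z‖ ≤ Real.exp (kk (dir n) (xr (r ^ (4/3 : ℝ)) ((n:ℝ)+1))))
    (h' : ∀ n : ℕ, Real.exp ((z / aa n).re)
      ≤ B * Real.exp (kk (dir n) (xr (r ^ (4/3 : ℝ)) ((n:ℝ)+1)))) :
    ‖deriv ff z‖ ≤ r * B * SS * Real.exp (GG kk (r ^ (4/3 : ℝ))) := by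
  have hN : 0 ≤ r ^ (4/3 : ℝ) := Real.rpow_nonneg hr _
  have hs := (GG_summable hk hN).hasSum.tendsto_sum_nat
  have h2 := ((Real.continuous_exp.tendsto _).comp hs).const_mul (r * B * SS)
  refine le_of_tendsto_of_tendsto' (PP_deriv_tendsto z).norm h2 fun L => ?_
  simp only [Function.comp_apply]
  rw [(PP_hasDeriv L z).deriv]
  set e : ℕ → ℝ := fun n => Real.exp (kk (dir n) (xr (r ^ (4/3 : ℝ)) ((n:ℝ)+1))) with he
  rw [Real.exp_sum]
  have hterm : ∀ n ∈ Finset.range L, ‖(∏ k ∈ (Finset.range L).erase n, EE k z)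
      • (-(z / aa n ^ 2) * Complex.exp (z / aa n))‖
      ≤ (1 / tt n ^ 2) * (r * B * ∏ k ∈ Finset.range L, e k) := by
    intro n hn
    rw [norm_smul, norm_prod, norm_mul, norm_neg, norm_div, norm_pow, aa_norm, hz,
      Complex.norm_exp]
    have h3 : ∏ k ∈ (Finset.range L).erase n, ‖EE k z‖ ≤ ∏ k ∈ (Finset.range L).erase n, e k :=
      Finset.prod_le_prod (fun _ _ => norm_nonneg _) (fun k _ => h k)
    have h4 : (∏ k ∈ (Finset.range L).erase n, e k) * e n = ∏ k ∈ Finset.range L, e k :=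
      Finset.prod_erase_mul _ _ hn
    have h5 : 0 ≤ ∏ k ∈ (Finset.range L).erase n, e k :=
      Finset.prod_nonneg fun _ _ => (Real.exp_pos _).le
    have ht := tt_pos n
    calc (∏ k ∈ (Finset.range L).erase n, ‖EE k z‖) * (r / tt n ^ 2 * Real.exp (z / aa n).re)
        ≤ (∏ k ∈ (Finset.range L).erase n, e k) * (r / tt n ^ 2 * (B * e n)) := by
          apply mul_le_mul h3 _ (by positivity) h5
          exact mul_le_mul_of_nonneg_left (h' n) (by positivity)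
      _ = (1 / tt n ^ 2) * (r * B * ((∏ k ∈ (Finset.range L).erase n, e k) * e n)) := by ring
      _ = _ := by rw [h4]
  have hprod : 0 ≤ ∏ k ∈ Finset.range L, e k := Finset.prod_nonneg fun _ _ => (Real.exp_pos _).le
  calc ‖∑ n ∈ Finset.range L, (∏ k ∈ (Finset.range L).erase n, EE k z)
      • (-(z / aa n ^ 2) * Complex.exp (z / aa n))‖
      ≤ ∑ n ∈ Finset.range L, (1 / tt n ^ 2) * (r * B * ∏ k ∈ Finset.range L, e k) :=
        (norm_sum_le _ _).trans (Finset.sum_le_sum hterm)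
    _ = (∑ n ∈ Finset.range L, (1 / tt n ^ 2)) * (r * B * ∏ k ∈ Finset.range L, e k) := by
        rw [Finset.sum_mul]
    _ ≤ SS * (r * B * ∏ k ∈ Finset.range L, e k) := by
        apply mul_le_mul_of_nonneg_right _ (by positivity)
        exact summable_tt.sum_le_tsum _ (fun n _ => by positivity)
    _ = _ := by ring

lemma aa_pt (n : ℕ) : aa n = pt (tt n) (dir n * (Real.pi / 2)) := by
  unfold aa pt
  rw [I_pow, mul_comm]

lemma tt_rpow (n : ℕ) : tt n ^ (4/3 : ℝ) = (n:ℝ) + 1 := by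
  unfold tt
  rw [← Real.rpow_mul (by positivity)]; norm_num

/-- cosines of right-angle differences -/
lemma cj_ray {j i : ℕ} (hj : j < 3) (hi : i < 3) :
    cj (j * (Real.pi / 2)) i = if i = j then 1 else if (i = j + 1 ∨ j = i + 1) then 0 else -1 := by
  unfold cj
  interval_cases j <;> interval_cases i <;> norm_num
  · rw [show 2 * (Real.pi / 2) = Real.pi by ring, Real.cos_pi]
  · rw [show Real.pi / 2 - 2 * (Real.pi / 2) = -(Real.pi / 2) by ring, Real.cos_neg,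
      Real.cos_pi_div_two]
  · rw [show 2 * (Real.pi / 2) = Real.pi by ring, Real.cos_pi]
  · rw [show 2 * (Real.pi / 2) - Real.pi / 2 = Real.pi / 2 by ring, Real.cos_pi_div_two]

/-- upper kernels along ray `j` -/
noncomputable def ku (c : ℝ) (j i : ℕ) : ℝ → ℝ := if i = j then uk c else ec 0

/-- lower kernels along ray `j` -/
noncomputable def kl (c : ℝ) (j i : ℕ) : ℝ → ℝ :=
  if i = j then lk c else if (i = j + 1 ∨ j = i + 1) then ec 0 else ec (-1)

lemma ku_ker {c : ℝ} (hc : c < 1) (hc' : 0 ≤ c) (j i : ℕ) : ∃ L, Ker (ku c j i) L := by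
  unfold ku; split_ifs
  · exact uk_ker hc hc'
  · exact ⟨_, ec_ker (by norm_num) (by norm_num)⟩

lemma kl_ker {c : ℝ} (hc : c < 1) (hc' : 0 ≤ c) (j i : ℕ) : ∃ L, Ker (kl c j i) L := by
  unfold kl; split_ifs
  · exact lk_ker hc hc'
  · exact ⟨_, ec_ker (by norm_num) (by norm_num)⟩
  · exact ⟨_, ec_ker (by norm_num) (by norm_num)⟩

lemma factor_one (x : ℝ) :
    Real.sqrt (1 - 2 * 1 * x + x ^ 2) * Real.exp (1 * x) = |1 - x| * Real.exp x := by
  rw [show 1 - 2 * 1 * x + x ^ 2 = (1 - x) ^ 2 by ring, Real.sqrt_sq_eq_abs, one_mul]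

lemma ray_upper {c : ℝ} (hc : c < 1) (hc' : 0 ≤ c) {j i : ℕ} (hj : j < 3) (hi : i < 3) {x : ℝ}
    (hx : 0 ≤ x) :
    Real.sqrt (1 - 2 * cj (j * (Real.pi / 2)) i * x + x ^ 2)
      * Real.exp (cj (j * (Real.pi / 2)) i * x) ≤ Real.exp (ku c j i x) := by
  rw [cj_ray hj hi]
  unfold ku
  split_ifs with h1 h2
  · rw [factor_one]; exact upper_mul hc hc' hx
  · rw [sqrt_exp_eq (D_pos (by norm_num) (by norm_num) hx)]
  · rw [sqrt_exp_eq (D_pos (by norm_num) (by norm_num) hx)]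
    exact Real.exp_le_exp.2 (ec_neg_one_le hx)

lemma ray_exp {c : ℝ} (hc : c < 1) (hc' : 0 ≤ c) {j i : ℕ} (hj : j < 3) (hi : i < 3) {x : ℝ}
    (hx : 0 ≤ x) :
    Real.exp (cj (j * (Real.pi / 2)) i * x)
      ≤ (1 + Real.exp ((1 - c) - (1/2) * Real.log (1 - c ^ 2))) * Real.exp (ku c j i x) := by
  have hE : 0 < Real.exp ((1 - c) - (1/2) * Real.log (1 - c ^ 2)) := Real.exp_pos _
  rw [cj_ray hj hi]
  unfold ku
  split_ifs with h1 h2
  · rw [one_mul]
    refine (exp_le_uk hc hc' hx).trans ?_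
    apply mul_le_mul_of_nonneg_right _ (Real.exp_pos _).le
    linarith
  · rw [zero_mul, Real.exp_zero]
    have h3 : 1 ≤ Real.exp (ec 0 x) := Real.one_le_exp (ec_zero_nonneg x)
    nlinarith
  · have h3 : 1 ≤ Real.exp (ec 0 x) := Real.one_le_exp (ec_zero_nonneg x)
    have h4 : Real.exp (-1 * x) ≤ 1 := Real.exp_le_one_iff.2 (by linarith)
    nlinarith

theorem deriv_upper_ray {c : ℝ} (hc : c < 1) (hc' : 0 ≤ c) {j : ℕ} (hj : j < 3) {r : ℝ}
    (hr : 0 ≤ r) :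
    ‖deriv ff (pt r (j * (Real.pi / 2)))‖
      ≤ r * (1 + Real.exp ((1 - c) - (1/2) * Real.log (1 - c ^ 2))) * SS
        * Real.exp (GG (ku c j) (r ^ (4/3 : ℝ))) := by
  have hN : 0 ≤ r ^ (4/3 : ℝ) := Real.rpow_nonneg hr _
  apply deriv_upper (fun i _ => ku_ker hc hc' j i) hr (pt_norm hr) (by positivity)
  · intro n
    rw [EE_norm hr]
    exact ray_upper hc hc' hj (dir_lt n) (xr_nonneg hN (by positivity))
  · intro n
    rw [(pt_div hr n).1, xr_rel hr, ← xr_rel hr]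
    exact ray_exp hc hc' hj (dir_lt n) (xr_nonneg hN (by positivity))

lemma xr_ne_one {K k : ℕ} (h : k ≠ K) : xr ((K:ℝ)+1) ((k:ℝ)+1) ≠ 1 := by
  intro h1
  have := (xr_dist h (by rw [h1]; norm_num) (by rw [h1]; norm_num)).2
  rw [h1, sub_self, abs_zero] at this
  have h2 : 0 < |(k:ℝ) - K| := abs_pos.2 (sub_ne_zero.2 (by exact_mod_cast h))
  have h3 : 0 < |(k:ℝ) - K| / (6 * ((K:ℝ)+1)) := by positivity
  linarith

lemma xr_self (K : ℕ) : xr ((K:ℝ)+1) ((K:ℝ)+1) = 1 := by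
  unfold xr
  rw [div_self (by positivity), Real.one_rpow]

lemma ray_lower {c : ℝ} (hc : c < 1) (hc' : 0 ≤ c) {j i : ℕ} (hj : j < 3) (hi : i < 3) {x : ℝ}
    (hx : 0 ≤ x) (hx1 : x ≠ 1) :
    Real.exp (kl c j i x - 3 * (1 - c) ^ (1/4 : ℝ) * sg x) ≤
    Real.sqrt (1 - 2 * cj (j * (Real.pi / 2)) i * x + x ^ 2)
      * Real.exp (cj (j * (Real.pi / 2)) i * x) := by
  rw [cj_ray hj hi]
  have hq : 0 ≤ (1 - c) ^ (1/4 : ℝ) := Real.rpow_nonneg (by linarith) _
  have hsg : 0 ≤ 3 * (1 - c) ^ (1/4 : ℝ) * sg x := by have := sg_nonneg x; positivity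
  unfold kl
  split_ifs with h1 h2
  · have hD : 0 < 1 - 2 * 1 * x + x ^ 2 := by
      rw [show 1 - 2 * 1 * x + x ^ 2 = (1 - x) ^ 2 by ring]
      have : 1 - x ≠ 0 := sub_ne_zero.2 hx1.symm
      positivity
    rw [sqrt_exp_eq hD, Real.exp_le_exp]
    exact lower_ineq hc hc' hx hx1
  · rw [sqrt_exp_eq (D_pos (by norm_num) (by norm_num) hx), Real.exp_le_exp]; linarith
  · rw [sqrt_exp_eq (D_pos (by norm_num) (by norm_num) hx), Real.exp_le_exp]; linarith

theorem deriv_lower_zero {c : ℝ} (hc : c < 1) (hc' : 0 ≤ c) (K : ℕ) :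
    (Real.exp 1 / tt K) * Real.exp (GG (kl c (dir K)) ((K:ℝ)+1) - lk c 1
      - 3 * (1 - c) ^ (1/4 : ℝ) * (14 * ((K:ℝ)+1))) ≤ ‖deriv ff (aa K)‖ := by
  have hN : (0:ℝ) ≤ (K:ℝ)+1 := by positivity
  have hT := tt_pos K
  have hq : 0 ≤ (1 - c) ^ (1/4 : ℝ) := Real.rpow_nonneg (by linarith) _
  have hs := (GG_summable (fun i _ => kl_ker hc hc' (dir K) i) hN).hasSum.tendsto_sum_nat
  have h2 : Tendsto (fun L : ℕ => (Real.exp 1 / tt K) * Real.exp
      (∑ n ∈ Finset.range L, kl c (dir K) (dir n) (xr ((K:ℝ)+1) ((n:ℝ)+1)) - lk c 1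
        - 3 * (1 - c) ^ (1/4 : ℝ) * (14 * ((K:ℝ)+1)))) atTop
      (𝓝 ((Real.exp 1 / tt K) * Real.exp (GG (kl c (dir K)) ((K:ℝ)+1) - lk c 1
      - 3 * (1 - c) ^ (1/4 : ℝ) * (14 * ((K:ℝ)+1))))) := by
    apply Tendsto.const_mul
    exact (Real.continuous_exp.tendsto _).comp ((hs.sub_const _).sub_const _)
  refine le_of_tendsto_of_tendsto h2 (PP_deriv_tendsto (aa K)).norm ?_
  filter_upwards [eventually_gt_atTop K] with L hL
  have hmem : K ∈ Finset.range L := Finset.mem_range.2 hL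
  rw [(PP_hasDeriv L (aa K)).deriv]
  have hsum : ∑ n ∈ Finset.range L, (∏ k ∈ (Finset.range L).erase n, EE k (aa K))
      • (-(aa K / aa n ^ 2) * Complex.exp (aa K / aa n))
      = (∏ k ∈ (Finset.range L).erase K, EE k (aa K))
      • (-(aa K / aa K ^ 2) * Complex.exp (aa K / aa K)) := by
    apply Finset.sum_eq_single_of_mem _ hmem
    intro n _ hnK
    have : ∏ k ∈ (Finset.range L).erase n, EE k (aa K) = 0 := by
      apply Finset.prod_eq_zero (Finset.mem_erase.2 ⟨hnK.symm, hmem⟩)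
      exact (EE_zero_iff K _).2 rfl
    rw [this, zero_smul]
  rw [hsum, norm_smul, norm_prod]
  have hlast : ‖-(aa K / aa K ^ 2) * Complex.exp (aa K / aa K)‖ = Real.exp 1 / tt K := by
    rw [norm_mul, norm_neg, norm_div, norm_pow, aa_norm, div_self (aa_ne K), Complex.norm_exp,
      Complex.one_re]
    field_simp
  rw [hlast, mul_comm (∏ k ∈ (Finset.range L).erase K, ‖EE k (aa K)‖)]
  apply mul_le_mul_of_nonneg_left _ (by positivity)
  -- product bound
  set δ := 3 * (1 - c) ^ (1/4 : ℝ) with hδ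
  have hδ0 : 0 ≤ δ := by positivity
  have hfac : ∀ k ∈ (Finset.range L).erase K,
      Real.exp (kl c (dir K) (dir k) (xr ((K:ℝ)+1) ((k:ℝ)+1)) - δ * sg (xr ((K:ℝ)+1) ((k:ℝ)+1)))
        ≤ ‖EE k (aa K)‖ := by
    intro k hk
    have hkK := (Finset.mem_erase.1 hk).1
    have h3 := EE_norm (r := tt K) (φ := dir K * (Real.pi / 2)) hT.le k
    rw [tt_rpow, ← aa_pt] at h3
    rw [h3]
    exact ray_lower hc hc' (dir_lt K) (dir_lt k) (xr_nonneg hN (by positivity)) (xr_ne_one hkK)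
  refine le_trans ?_ (Finset.prod_le_prod (fun _ _ => (Real.exp_pos _).le) hfac)
  rw [← Real.exp_sum, Real.exp_le_exp, Finset.sum_sub_distrib, ← Finset.mul_sum]
  have h4 : ∑ k ∈ (Finset.range L).erase K, sg (xr ((K:ℝ)+1) ((k:ℝ)+1)) ≤ 14 * ((K:ℝ)+1) := by
    have := sg_sum K L
    refine le_trans (le_of_eq ?_) this
    rw [← Finset.add_sum_erase _ _ hmem, if_pos rfl, zero_add]
    apply Finset.sum_congr rfl
    intro k hk
    rw [if_neg (Finset.mem_erase.1 hk).1]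
  have h5 : ∑ k ∈ (Finset.range L).erase K, kl c (dir K) (dir k) (xr ((K:ℝ)+1) ((k:ℝ)+1))
      = ∑ n ∈ Finset.range L, kl c (dir K) (dir n) (xr ((K:ℝ)+1) ((n:ℝ)+1)) - lk c 1 := by
    rw [← Finset.add_sum_erase _ _ hmem, xr_self]
    have : kl c (dir K) (dir K) 1 = lk c 1 := by unfold kl; rw [if_pos rfl]
    rw [this]; ring
  rw [h5]
  have := mul_le_mul_of_nonneg_left h4 hδ0
  linarith

lemma deriv_ne_zero (K : ℕ) : deriv ff (aa K) ≠ 0 := by
  have h := deriv_lower_zero (c := 0) (by norm_num) le_rfl K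
  have hT := tt_pos K
  rw [← norm_pos_iff]
  exact lt_of_lt_of_le (by positivity) h

end Pool.Agent.Helper26.Leo
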