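import Pool.Agent.Helper26.LeoAsym

set_option autoImplicit false
open Filter MeasureTheory Set Topology

namespace Pool.Agent.Helper26.Leo

/-- exponential indicator of a nonnegative function (order 4/3) -/
noncomputable def ind (F : ℝ → ℝ) : ℝ :=
  sInf {a : ℝ | ∀ᶠ r : ℝ in atTop, F r ≤ Real.exp (a * r ^ (4/3 : ℝ))}

lemma exp_cmp {A B : ℝ} {F : ℝ → ℝ} (hA : ∀ᶠ r : ℝ in atTop, F r ≤ Real.exp (A * r ^ (4/3 : ℝ)))
    (hB : ∃ᶠ r : ℝ in atTop, Real.exp (B * r ^ (4/3 : ℝ)) ≤ F r) : B ≤ A := by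
  obtain ⟨r, h1, h2, h3⟩ := (hB.and_eventually (hA.and (eventually_gt_atTop 0))).exists
  have h4 := Real.exp_le_exp.1 (h1.trans h2)
  have : 0 < r ^ (4/3 : ℝ) := Real.rpow_pos_of_pos h3 _
  exact le_of_mul_le_mul_right h4 this

lemma ind_spec {F : ℝ → ℝ} (h1 : ∃ A, ∀ᶠ r : ℝ in atTop, F r ≤ Real.exp (A * r ^ (4/3 : ℝ)))
    (h2 : ∃ B, ∃ᶠ r : ℝ in atTop, Real.exp (B * r ^ (4/3 : ℝ)) ≤ F r) :
    (∀ ε : ℝ, 0 < ε → ∀ᶠ r : ℝ in atTop, F r ≤ Real.exp ((ind F + ε) * r ^ (4/3 : ℝ))) ∧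
    (∀ ε : ℝ, 0 < ε → ∃ᶠ r : ℝ in atTop, Real.exp ((ind F - ε) * r ^ (4/3 : ℝ)) ≤ F r) ∧
    (∀ A, (∀ᶠ r : ℝ in atTop, F r ≤ Real.exp (A * r ^ (4/3 : ℝ))) → ind F ≤ A) ∧
    (∀ B, (∃ᶠ r : ℝ in atTop, Real.exp (B * r ^ (4/3 : ℝ)) ≤ F r) → B ≤ ind F) := by
  set S := {a : ℝ | ∀ᶠ r : ℝ in atTop, F r ≤ Real.exp (a * r ^ (4/3 : ℝ))} with hS
  have hne : S.Nonempty := h1
  obtain ⟨B₀, hB₀⟩ := h2
  have hbdd : BddBelow S := ⟨B₀, fun a ha => exp_cmp ha hB₀⟩
  refine ⟨fun ε hε => ?_, fun ε hε => ?_, fun A hA => csInf_le hbdd hA,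
    fun B hB => le_csInf hne fun a ha => exp_cmp ha hB⟩
  · have : sInf S < ind F + ε := by unfold ind; linarith
    obtain ⟨a, ha, hlt⟩ := exists_lt_of_csInf_lt hne this
    have ha' : ∀ᶠ r : ℝ in atTop, F r ≤ Real.exp (a * r ^ (4/3 : ℝ)) := ha
    filter_upwards [ha', eventually_ge_atTop 0] with r h3 h4
    refine h3.trans (Real.exp_le_exp.2 ?_)
    exact mul_le_mul_of_nonneg_right hlt.le (Real.rpow_nonneg h4 _)
  · have hnot : ind F - ε ∉ S := by
      intro hmem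
      have := csInf_le hbdd hmem
      unfold ind at this
      linarith
    have h5 : ∃ᶠ r : ℝ in atTop, ¬ F r ≤ Real.exp ((ind F - ε) * r ^ (4/3 : ℝ)) := by
      rw [Filter.not_eventually.symm]
      exact hnot
    exact h5.mono fun r h => (not_le.1 h).le

noncomputable def hI (φ : ℝ) : ℝ := ind (fun r => ‖ff (pt r φ)‖)
noncomputable def hI' (φ : ℝ) : ℝ := ind (fun r => ‖deriv ff (pt r φ)‖)

lemma growth_exp (C D : ℝ) : ∃ A : ℝ, ∀ᶠ r : ℝ in atTop,
    C * Real.exp (D * r ^ (4/3 : ℝ)) ≤ Real.exp (A * r ^ (4/3 : ℝ)) := by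
  refine ⟨|D| + 1, ?_⟩
  have h1 : ∀ᶠ r : ℝ in atTop, C ≤ Real.exp (r ^ (4/3 : ℝ)) :=
    (Real.tendsto_exp_atTop.comp rpow43_tendsto).eventually (eventually_ge_atTop C)
  filter_upwards [h1, eventually_ge_atTop 0] with r h2 h3
  have h4 : 0 ≤ r ^ (4/3 : ℝ) := Real.rpow_nonneg h3 _
  calc C * Real.exp (D * r ^ (4/3 : ℝ)) ≤ Real.exp (r ^ (4/3 : ℝ)) * Real.exp (|D| * r ^ (4/3 : ℝ)) := by
        apply mul_le_mul h2 _ (Real.exp_pos _).le (Real.exp_pos _).le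
        exact Real.exp_le_exp.2 (mul_le_mul_of_nonneg_right (le_abs_self D) h4)
    _ = _ := by rw [← Real.exp_add]; congr 1; ring

lemma hI_up (φ : ℝ) : ∃ A, ∀ᶠ r : ℝ in atTop, ‖ff (pt r φ)‖ ≤ Real.exp (A * r ^ (4/3 : ℝ)) := by
  obtain ⟨C, hC⟩ := ff_growth
  obtain ⟨A, hA⟩ := growth_exp C C
  refine ⟨A, ?_⟩
  filter_upwards [hA, eventually_ge_atTop 0] with r h1 h2
  have := hC (pt r φ)
  rw [pt_norm h2] at this
  exact this.trans h1

lemma hI_low (φ : ℝ) : ∃ B, ∃ᶠ r : ℝ in atTop, Real.exp (B * r ^ (4/3 : ℝ)) ≤ ‖ff (pt r φ)‖ := by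
  obtain ⟨c, _, h⟩ := claimF4 φ
  exact ⟨c, h⟩

lemma hI'_up (φ : ℝ) : ∃ A, ∀ᶠ r : ℝ in atTop,
    ‖deriv ff (pt r φ)‖ ≤ Real.exp (A * r ^ (4/3 : ℝ)) := by
  obtain ⟨C, hC⟩ := ff_growth
  obtain ⟨A, hA⟩ := growth_exp |C| (|C| * 3)
  refine ⟨A, ?_⟩
  filter_upwards [hA, eventually_ge_atTop 1] with r h1 h2
  refine le_trans ?_ h1
  have hr0 : 0 ≤ r := by linarith
  have key : ‖deriv ff (pt r φ)‖ ≤ |C| * Real.exp (|C| * 3 * r ^ (4/3 : ℝ)) / 1 := by
    apply Complex.norm_deriv_le_of_forall_mem_sphere_norm_le one_pos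
    · exact ff_diff.diffContOnCl
    · intro w hw
      rw [mem_sphere_iff_norm] at hw
      have hwn : ‖w‖ ≤ 2 * r := by
        have h3 : ‖w‖ ≤ ‖w - pt r φ‖ + ‖pt r φ‖ := by
          have := norm_add_le (w - pt r φ) (pt r φ)
          rwa [sub_add_cancel] at this
        rw [hw, pt_norm hr0] at h3
        linarith
      have h4 : ‖w‖ ^ (4/3 : ℝ) ≤ 3 * r ^ (4/3 : ℝ) := by
        have h5 := Real.rpow_le_rpow (norm_nonneg w) hwn (show (0:ℝ) ≤ 4/3 by norm_num)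
        rw [Real.mul_rpow (by norm_num) hr0] at h5
        have h6 : (2:ℝ) ^ (4/3 : ℝ) ≤ 3 := by
          have h7 : ((2:ℝ) ^ (4/3 : ℝ)) ^ 3 = 16 := by
            rw [← Real.rpow_natCast, ← Real.rpow_mul (by norm_num)]
            rw [show (4/3 * ((3:ℕ):ℝ)) = ((4:ℕ):ℝ) by push_cast; norm_num, Real.rpow_natCast]
            norm_num
          by_contra hcon
          push Not at hcon
          have : (3:ℝ) ^ 3 < ((2:ℝ) ^ (4/3 : ℝ)) ^ 3 := by gcongr
          rw [h7] at this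
          norm_num at this
        have h8 : 0 ≤ r ^ (4/3 : ℝ) := Real.rpow_nonneg hr0 _
        nlinarith
      have h9 : 0 ≤ ‖w‖ ^ (4/3 : ℝ) := Real.rpow_nonneg (norm_nonneg _) _
      calc ‖ff w‖ ≤ C * Real.exp (C * ‖w‖ ^ (4/3 : ℝ)) := hC w
        _ ≤ |C| * Real.exp (|C| * 3 * r ^ (4/3 : ℝ)) := by
          apply mul_le_mul (le_abs_self C) _ (Real.exp_pos _).le (abs_nonneg C)
          rw [Real.exp_le_exp]
          calc C * ‖w‖ ^ (4/3 : ℝ) ≤ |C| * ‖w‖ ^ (4/3 : ℝ) :=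
                mul_le_mul_of_nonneg_right (le_abs_self C) h9
            _ ≤ |C| * (3 * r ^ (4/3 : ℝ)) := mul_le_mul_of_nonneg_left h4 (abs_nonneg C)
            _ = _ := by ring
  rwa [div_one] at key

lemma hI'_low (φ : ℝ) : ∃ B, ∃ᶠ r : ℝ in atTop,
    Real.exp (B * r ^ (4/3 : ℝ)) ≤ ‖deriv ff (pt r φ)‖ := by
  refine ⟨0, ?_⟩
  by_contra hcon
  rw [Filter.not_frequently] at hcon
  simp only [zero_mul, Real.exp_zero, not_le] at hcon
  rw [eventually_atTop] at hcon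
  obtain ⟨R, hR⟩ := hcon
  obtain ⟨c, hc, hf⟩ := claimF4 φ
  have hbound : ∀ r, R ≤ r → ‖ff (pt r φ)‖ ≤ ‖ff (pt R φ)‖ + (r - R) := by
    intro r hr
    have hd : ∀ x ∈ Ici R, HasDerivWithinAt (fun t : ℝ => ff (pt t φ))
        (deriv ff (pt x φ) * Complex.exp ((φ : ℂ) * Complex.I)) (Ici R) x := by
      intro x _
      have a1 : HasDerivAt (fun t : ℝ => pt t φ) (Complex.exp ((φ : ℂ) * Complex.I)) x := by
        unfold pt
        have := (Complex.ofRealCLM.hasDerivAt (x := x)).mul_const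
          (Complex.exp ((φ : ℂ) * Complex.I))
        simpa using this
      have a2 := ((ff_diff (pt x φ)).hasDerivAt).comp_of_eq x a1 rfl
      exact a2.hasDerivWithinAt
    have := (convex_Ici R).norm_image_sub_le_of_norm_hasDerivWithin_le (C := 1) hd
      (fun x hx => by
        rw [norm_mul, Complex.norm_exp_ofReal_mul_I, mul_one]
        exact (hR x hx).le) (mem_Ici.2 le_rfl) (mem_Ici.2 hr)
    rw [one_mul, Real.norm_eq_abs, abs_of_nonneg (sub_nonneg.2 hr)] at this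
    have h3 := norm_sub_norm_le (ff (pt r φ)) (ff (pt R φ))
    linarith
  have hp := poly_le_exp (‖ff (pt R φ)‖ + |R| + 2) hc
  obtain ⟨r, h1, h2, h3, h4⟩ := (hf.and_eventually (hp.and
    ((eventually_ge_atTop R).and (eventually_ge_atTop 1)))).exists
  have h5 := hbound r h3
  have h6 : Real.exp (c * r) ≤ Real.exp (c * r ^ (4/3 : ℝ)) := by
    rw [Real.exp_le_exp]; exact mul_le_mul_of_nonneg_left (le_rpow43 h4) hc.le
  have h7 : 0 ≤ ‖ff (pt R φ)‖ := norm_nonneg _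
  have h8 := neg_abs_le R
  have h9 := abs_nonneg R
  nlinarith

lemma hI'_ray {j : ℕ} (hj : j < 3) : hI' (j * (Real.pi / 2)) = m0 := by
  obtain ⟨_, _, s3, s4⟩ := ind_spec (hI'_up (j * (Real.pi / 2))) (hI'_low (j * (Real.pi / 2)))
  unfold hI'
  apply le_antisymm
  · apply le_of_forall_pos_le_add
    intro ε hε
    exact s3 _ (claimB hε hj)
  · apply le_of_forall_pos_le_add
    intro ε hε
    have : m0 - ε ≤ ind (fun r => ‖deriv ff (pt r (j * (Real.pi / 2)))‖) := by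
      apply s4
      rw [frequently_atTop]
      intro R
      have hA := claimA hε
      rw [eventually_atTop] at hA
      obtain ⟨n₁, hn₁⟩ := hA
      have hT := tt_tendsto.eventually (eventually_ge_atTop R)
      rw [eventually_atTop] at hT
      obtain ⟨n₂, hn₂⟩ := hT
      obtain ⟨n, hn, hd⟩ := exists_dir j hj (max n₁ n₂)
      refine ⟨tt n, hn₂ n ((le_max_right _ _).trans hn), ?_⟩
      rw [tt_rpow, ← hd, ← aa_pt]
      exact hn₁ n ((le_max_left _ _).trans hn)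
    linarith

lemma arg_aa (n : ℕ) : Complex.arg (aa n) = dir n * (Real.pi / 2) := by
  have hd := dir_lt n
  have hπ := Real.pi_pos
  rw [aa_pt]
  unfold pt
  rw [Complex.arg_real_mul _ (tt_pos n), Complex.arg_exp_mul_I,
    toIocMod_eq_self (by positivity) |>.2]
  constructor
  · have : (0:ℝ) ≤ dir n := Nat.cast_nonneg _
    nlinarith
  · have : (dir n : ℝ) ≤ 2 := by exact_mod_cast (by omega : dir n ≤ 2)
    nlinarith

lemma tt_mono {a b : ℕ} (h : a ≤ b) : tt a ≤ tt b := by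
  unfold tt
  apply Real.rpow_le_rpow (by positivity) _ (by norm_num)
  have : (a:ℝ) ≤ b := by exact_mod_cast h
  linarith

theorem zero_cond {ε : ℝ} (hε : 0 < ε) : ∃ R : ℝ, ∀ z : ℂ, ff z = 0 → R ≤ ‖z‖ →
    |Real.log ‖deriv ff z‖ / ‖z‖ ^ (4/3 : ℝ) - hI' (Complex.arg z)| < ε := by
  have hA := claimA (half_pos hε)
  rw [eventually_atTop] at hA
  obtain ⟨n₁, hn₁⟩ := hA
  have hB : ∀ j : ℕ, ∃ R : ℝ, j < 3 → ∀ r : ℝ, R ≤ r →
      ‖deriv ff (pt r (j * (Real.pi / 2)))‖ ≤ Real.exp ((m0 + ε / 2) * r ^ (4/3 : ℝ)) := by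
    intro j
    by_cases hj : j < 3
    · have := claimB (half_pos hε) hj
      rw [eventually_atTop] at this
      obtain ⟨R, hR⟩ := this
      exact ⟨R, fun _ => hR⟩
    · exact ⟨0, fun h => absurd h hj⟩
  choose RB hRB using hB
  refine ⟨max (tt n₁) (max (RB 0) (max (RB 1) (RB 2))), fun z hz hR => ?_⟩
  obtain ⟨n, rfl⟩ := (ff_zero_iff z).1 hz
  rw [aa_norm] at hR ⊢
  rw [arg_aa, hI'_ray (dir_lt n), tt_rpow]
  have hd := dir_lt n
  have hR1 : tt n₁ ≤ tt n := (le_max_left _ _).trans hR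
  have hR2 : RB (dir n) ≤ tt n := by
    refine le_trans ?_ hR
    have hcases : dir n = 0 ∨ dir n = 1 ∨ dir n = 2 := by omega
    rcases hcases with h | h | h <;> rw [h]
    · exact (le_max_left _ _).trans (le_max_right _ _)
    · exact (le_max_left _ _).trans ((le_max_right _ _).trans (le_max_right _ _))
    · exact (le_max_right _ _).trans ((le_max_right _ _).trans (le_max_right _ _))
  have hup := hRB (dir n) hd (tt n) hR2
  rw [← aa_pt, tt_rpow] at hup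
  have hn : n₁ ≤ n := by
    by_contra hcon
    push Not at hcon
    have : tt n < tt n₁ := by
      unfold tt
      apply Real.rpow_lt_rpow (by positivity) _ (by norm_num)
      have : (n:ℝ) < n₁ := by exact_mod_cast hcon
      linarith
    linarith
  have hlow := hn₁ n hn
  have hpos : 0 < ‖deriv ff (aa n)‖ := norm_pos_iff.2 (deriv_ne_zero n)
  have l1 := Real.log_le_log (Real.exp_pos _) hlow
  have l2 := Real.log_le_log hpos hup
  rw [Real.log_exp] at l1 l2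
  have hN : (0:ℝ) < (n:ℝ) + 1 := by positivity
  rw [abs_lt]
  constructor
  · have : m0 - ε / 2 ≤ Real.log ‖deriv ff (aa n)‖ / ((n:ℝ) + 1) := by
      rw [le_div_iff₀ hN]; exact l1
    linarith
  · have : Real.log ‖deriv ff (aa n)‖ / ((n:ℝ) + 1) ≤ m0 + ε / 2 := by
      rw [div_le_iff₀ hN]; exact l2
    linarith

lemma hI_pos (φ : ℝ) : 0 < hI φ := by
  obtain ⟨c, hc, h⟩ := claimF4 φ
  obtain ⟨_, _, _, s4⟩ := ind_spec (hI_up φ) (hI_low φ)
  exact lt_of_lt_of_le hc (s4 c h)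

theorem not_regular (E : Set ℝ)
    (hT : Tendsto (fun r : ℝ => (volume (E ∩ Set.Ioo 0 r)).toReal / r) atTop (nhds 0))
    (hreg : ∀ ε : ℝ, 0 < ε → ∃ R : ℝ, ∀ r : ℝ, R ≤ r → r ∉ E → ∀ φ : ℝ,
        Real.exp ((hI φ - ε) * r ^ (4/3 : ℝ)) ≤ ‖ff (pt r φ)‖) : False := by
  have hp := hI_pos Real.pi
  obtain ⟨R, hR⟩ := hreg (hI Real.pi / 2) (by linarith)
  have h1 := hT.eventually (gt_mem_nhds (show (0:ℝ) < 1/3 by norm_num))
  rw [eventually_atTop] at h1
  obtain ⟨R₁, hR₁⟩ := h1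
  obtain ⟨R', h2, h3, h4⟩ := claimF5 (max R (max R₁ 1))
  have hRR : R ≤ R' := (le_max_left _ _).trans h2
  have hR1 : R₁ ≤ R' := (le_max_left _ _).trans ((le_max_right _ _).trans h2)
  have hR2 : 1 ≤ R' := (le_max_right _ _).trans ((le_max_right _ _).trans h2)
  have hsub : Set.Icc R' (2 * R') ⊆ E ∩ Set.Ioo 0 (2 * R' + 1) := by
    intro r hr
    refine ⟨?_, by linarith [hr.1], by linarith [hr.2]⟩
    by_contra hcon
    have h5 := hR r (hRR.trans hr.1) hcon Real.pi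
    have h6 := h4 r hr.1 hr.2
    have h7 : 0 < r ^ (4/3 : ℝ) := Real.rpow_pos_of_pos (by linarith [hr.1]) _
    have h8 : 1 < Real.exp ((hI Real.pi - hI Real.pi / 2) * r ^ (4/3 : ℝ)) := by
      rw [Real.one_lt_exp_iff]
      have : 0 < hI Real.pi - hI Real.pi / 2 := by linarith
      positivity
    linarith
  have hvol : ENNReal.ofReal R' ≤ volume (E ∩ Set.Ioo 0 (2 * R' + 1)) := by
    have := measure_mono (μ := volume) hsub
    rw [Real.volume_Icc] at this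
    convert! this using 2
    ring
  have hfin : volume (E ∩ Set.Ioo 0 (2 * R' + 1)) ≠ ⊤ := by
    apply ne_top_of_le_ne_top _ (measure_mono Set.inter_subset_right)
    rw [Real.volume_Ioo]
    exact ENNReal.ofReal_ne_top
  have h9 : R' ≤ (volume (E ∩ Set.Ioo 0 (2 * R' + 1))).toReal := by
    have := (ENNReal.toReal_le_toReal ENNReal.ofReal_ne_top hfin).2 hvol
    rwa [ENNReal.toReal_ofReal h3.le] at this
  have h10 := hR₁ (2 * R' + 1) (by linarith)
  rw [div_lt_iff₀ (by linarith)] at h10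
  linarith

end Pool.Agent.Helper26.Leo
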