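import Pool.Agent.Helper26.LeoSing

set_option autoImplicit false
open Filter MeasureTheory Set Topology

namespace Pool.Agent.Helper26.Leo

noncomputable def gam (u : ℂ) : ℂ := Complex.log (1 + u) - u

noncomputable def JJ (z : ℂ) : ℂ := ∫ y in Ioi (0:ℝ), gam (z * (xr 1 y : ℂ))

noncomputable def kap (z : ℂ) : ℝ := (‖z‖ + z.re) / (2 * ‖z‖) * min 1 (‖z‖ ^ 2)

lemma slit_re {z : ℂ} (hz : z ∈ Complex.slitPlane) : 0 < ‖z‖ ∧ 0 < ‖z‖ + z.re := by
  have h0 : z ≠ 0 := Complex.slitPlane_ne_zero hz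
  have hn : 0 < ‖z‖ := norm_pos_iff.2 h0
  refine ⟨hn, ?_⟩
  have h1 : |z.re| ≤ ‖z‖ := Complex.abs_re_le_norm z
  rcases hz with h | h
  · linarith
  · have h2 : |z.re| < ‖z‖ := Complex.abs_re_lt_norm.2 h
    have := neg_abs_le z.re
    linarith

lemma one_add_mem {z : ℂ} (hz : z ∈ Complex.slitPlane) {x : ℝ} (hx : 0 ≤ x) :
    1 + z * (x:ℂ) ∈ Complex.slitPlane := by
  rcases hx.eq_or_lt with h | h
  · rw [← h]; simp
  · rcases hz with h1 | h1
    · left
      simp only [Complex.add_re, Complex.one_re, Complex.mul_re, Complex.ofReal_re,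
        Complex.ofReal_im, mul_zero, sub_zero]
      positivity
    · right
      simp only [Complex.add_im, Complex.one_im, Complex.mul_im, Complex.ofReal_re,
        Complex.ofReal_im, mul_zero, zero_add]
      exact mul_ne_zero h1 h.ne'

lemma normSq_one_add (z : ℂ) (x : ℝ) :
    ‖1 + z * (x:ℂ)‖ ^ 2 = 1 + 2 * x * z.re + x ^ 2 * ‖z‖ ^ 2 := by
  rw [← Complex.normSq_eq_norm_sq, ← Complex.normSq_eq_norm_sq, Complex.normSq_apply,
    Complex.normSq_apply]
  simp only [Complex.add_re, Complex.one_re, Complex.mul_re, Complex.ofReal_re,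
        Complex.ofReal_im, mul_zero, sub_zero, Complex.add_im, Complex.one_im, Complex.mul_im,
        zero_add]
  ring

lemma kap_bound {z : ℂ} (hz : z ∈ Complex.slitPlane) {x : ℝ} (hx : 0 ≤ x) :
    kap z * (1 + x ^ 2) ≤ ‖1 + z * (x:ℂ)‖ ^ 2 := by
  obtain ⟨hn, hs⟩ := slit_re hz
  have hre := (abs_le.1 (Complex.abs_re_le_norm z)).2
  have h1 := quad_pos (c := -(z.re / ‖z‖)) (by rw [neg_lt, lt_div_iff₀ hn]; linarith)
    (by rw [neg_le_neg_iff, div_le_one hn]; exact hre) (mul_nonneg hx hn.le)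
  rw [normSq_one_add]
  have e1 : 1 - 2 * -(z.re / ‖z‖) * (x * ‖z‖) + (x * ‖z‖) ^ 2
      = 1 + 2 * x * z.re + x ^ 2 * ‖z‖ ^ 2 := by
    field_simp
    ring
  rw [e1] at h1
  have e2 : (1 - -(z.re / ‖z‖)) / 2 = (‖z‖ + z.re) / (2 * ‖z‖) := by
    field_simp
    ring
  rw [e2] at h1
  refine le_trans ?_ h1
  unfold kap
  rw [mul_assoc]
  apply mul_le_mul_of_nonneg_left _ (by positivity)
  have h2 : min 1 (‖z‖ ^ 2) ≤ 1 := min_le_left _ _
  have h3 : min 1 (‖z‖ ^ 2) ≤ ‖z‖ ^ 2 := min_le_right _ _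
  nlinarith [sq_nonneg x]

lemma kap_pos {z : ℂ} (hz : z ∈ Complex.slitPlane) : 0 < kap z := by
  obtain ⟨hn, hs⟩ := slit_re hz
  unfold kap
  have : 0 < min 1 (‖z‖ ^ 2) := lt_min one_pos (by positivity)
  positivity

lemma local_bound {z₀ : ℂ} (hz : z₀ ∈ Complex.slitPlane) :
    ∀ᶠ z in 𝓝 z₀, z ∈ Complex.slitPlane ∧ ‖z‖ ≤ ‖z₀‖ + 1 ∧
      ∀ x : ℝ, 0 ≤ x → kap z₀ / 2 * (1 + x ^ 2) ≤ ‖1 + z * (x:ℂ)‖ ^ 2 := by
  have h1 : ∀ᶠ z in 𝓝 z₀, z ∈ Complex.slitPlane := Complex.isOpen_slitPlane.mem_nhds hz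
  have hc : ContinuousAt kap z₀ := by
    unfold kap
    apply ContinuousAt.mul
    · apply ContinuousAt.div
      · exact continuous_norm.continuousAt.add Complex.continuous_re.continuousAt
      · exact (continuous_const.mul continuous_norm).continuousAt
      · have := (slit_re hz).1; positivity
    · exact (continuous_const.min (continuous_norm.pow 2)).continuousAt
  have h2 : ∀ᶠ z in 𝓝 z₀, kap z₀ / 2 < kap z :=
    hc.eventually (lt_mem_nhds (by linarith [kap_pos hz]))
  have h3 : ∀ᶠ z in 𝓝 z₀, ‖z‖ < ‖z₀‖ + 1 :=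
    continuous_norm.continuousAt.eventually (gt_mem_nhds (by linarith))
  filter_upwards [h1, h2, h3] with z a b c
  refine ⟨a, c.le, fun x hx => ?_⟩
  refine le_trans ?_ (kap_bound a hx)
  nlinarith [sq_nonneg x]

lemma norm_ge_sqrt {m x : ℝ} {w : ℂ} (hm : 0 < m) (h : m * (1 + x ^ 2) ≤ ‖w‖ ^ 2) :
    Real.sqrt m * Real.sqrt (1 + x ^ 2) ≤ ‖w‖ := by
  rw [← Real.sqrt_mul hm.le, Real.sqrt_le_left (norm_nonneg _)]
  exact h

lemma x_div_sqrt {x : ℝ} (hx : 0 ≤ x) : x / Real.sqrt (1 + x ^ 2) ≤ 1 ∧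
    x / Real.sqrt (1 + x ^ 2) ≤ x := by
  have h0 : 0 < Real.sqrt (1 + x ^ 2) := Real.sqrt_pos.2 (by positivity)
  constructor
  · rw [div_le_one h0]
    exact Real.le_sqrt_of_sq_le (by linarith)
  · rw [div_le_iff₀ h0]
    have : 1 ≤ Real.sqrt (1 + x ^ 2) := by
      apply Real.le_sqrt_of_sq_le; nlinarith [sq_nonneg x]
    nlinarith

lemma gam_x_deriv {z : ℂ} (hz : z ∈ Complex.slitPlane) {x : ℝ} (hx : 0 ≤ x) :
    HasDerivAt (fun t : ℝ => gam (z * (t:ℂ))) (-(z ^ 2 * x) / (1 + z * (x:ℂ))) x := by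
  have hm := one_add_mem hz hx
  have hne := Complex.slitPlane_ne_zero hm
  have h1 : HasDerivAt (fun t : ℝ => z * (t:ℂ)) z x := by
    have := (Complex.ofRealCLM.hasDerivAt (x := x)).const_mul z
    simpa using this
  have h2 := ((h1.const_add 1).clog_real hm).sub h1
  unfold gam
  convert! h2 using 1
  field_simp
  ring

lemma gam_z_deriv {z : ℂ} (hz : z ∈ Complex.slitPlane) {x : ℝ} (hx : 0 ≤ x) :
    HasDerivAt (fun w : ℂ => gam (w * (x:ℂ))) (-(z * x ^ 2) / (1 + z * (x:ℂ))) z := by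
  have hm := one_add_mem hz hx
  have hne := Complex.slitPlane_ne_zero hm
  have h1 : HasDerivAt (fun w : ℂ => w * (x:ℂ)) x z := by
    simpa using (hasDerivAt_id z).mul_const (x:ℂ)
  have h2 := ((h1.const_add 1).clog hm).sub h1
  unfold gam
  convert! h2 using 1
  field_simp
  ring

lemma gam_bound {z : ℂ} (hz : z ∈ Complex.slitPlane) :
    ∃ C : ℝ, 0 ≤ C ∧ ∀ x : ℝ, 0 ≤ x → ‖gam (z * (x:ℂ))‖ ≤ C * mm x := by
  have hk := kap_pos hz
  refine ⟨‖z‖ ^ 2 / Real.sqrt (kap z), by positivity, fun x hx => ?_⟩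
  set C := ‖z‖ ^ 2 / Real.sqrt (kap z) with hC
  have hsk : 0 < Real.sqrt (kap z) := Real.sqrt_pos.2 hk
  have hd : ∀ t : ℝ, 0 ≤ t → ‖-(z ^ 2 * t) / (1 + z * (t:ℂ))‖ ≤ C * (t / Real.sqrt (1 + t ^ 2)) := by
    intro t ht
    have h1 := norm_ge_sqrt hk (kap_bound hz ht)
    have hs0 : 0 < Real.sqrt (1 + t ^ 2) := Real.sqrt_pos.2 (by positivity)
    rw [norm_div, norm_neg, norm_mul, norm_pow, Complex.norm_real, Real.norm_eq_abs,
      abs_of_nonneg ht]
    calc ‖z‖ ^ 2 * t / ‖1 + z * (t:ℂ)‖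
        ≤ ‖z‖ ^ 2 * t / (Real.sqrt (kap z) * Real.sqrt (1 + t ^ 2)) :=
          div_le_div_of_nonneg_left (by positivity) (by positivity) h1
      _ = _ := by rw [hC]; field_simp
  have hC0 : 0 ≤ C := by positivity
  have g0 : gam (z * ((0:ℝ):ℂ)) = 0 := by simp [gam]
  have key : ∀ D : ℝ, (∀ t ∈ Icc (0:ℝ) x, ‖-(z ^ 2 * t) / (1 + z * (t:ℂ))‖ ≤ D) →
      ‖gam (z * (x:ℂ))‖ ≤ D * x := by
    intro D hD
    have := (convex_Icc (0:ℝ) x).norm_image_sub_le_of_norm_hasDerivWithin_le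
      (f := fun t : ℝ => gam (z * (t:ℂ))) (f' := fun t : ℝ => -(z ^ 2 * t) / (1 + z * (t:ℂ)))
      (C := D) (x := 0) (y := x)
      (fun t ht => (gam_x_deriv hz ht.1).hasDerivWithinAt) hD (left_mem_Icc.2 hx)
      (right_mem_Icc.2 hx)
    simp only [g0, sub_zero, Real.norm_eq_abs, abs_of_nonneg hx] at this
    exact this
  have a1 : ‖gam (z * (x:ℂ))‖ ≤ C * x := by
    apply key
    intro t ht
    refine (hd t ht.1).trans ?_
    have := (x_div_sqrt ht.1).1
    nlinarith
  have a2 : ‖gam (z * (x:ℂ))‖ ≤ C * x * x := by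
    apply key
    intro t ht
    refine (hd t ht.1).trans ?_
    have := (x_div_sqrt ht.1).2
    exact mul_le_mul_of_nonneg_left (this.trans ht.2) hC0
  unfold mm
  rcases le_total x (x^2) with h | h
  · rw [min_eq_left h]; exact a1
  · rw [min_eq_right h]; linarith [a2]

lemma xr_continuousOn {N : ℝ} : ContinuousOn (xr N) (Ioi 0) := by
  intro u hu
  have hu : (0:ℝ) < u := hu
  have : ContinuousAt (fun u => N / u) u := continuousAt_const.div continuousAt_id hu.ne'
  exact (this.rpow_const (Or.inr (by norm_num))).continuousWithinAt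

lemma gam_meas {z : ℂ} (hz : z ∈ Complex.slitPlane) :
    AEStronglyMeasurable (fun y => gam (z * (xr 1 y : ℂ))) (volume.restrict (Ioi (0:ℝ))) := by
  apply ContinuousOn.aestronglyMeasurable _ measurableSet_Ioi
  have h1 : ContinuousOn (fun t : ℝ => gam (z * (t:ℂ))) (Ici 0) :=
    fun t ht => (gam_x_deriv hz ht).continuousAt.continuousWithinAt
  exact h1.comp xr_continuousOn (fun y hy => xr_nonneg zero_le_one (le_of_lt hy))

lemma gam_integrable {z : ℂ} (hz : z ∈ Complex.slitPlane) :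
    IntegrableOn (fun y => gam (z * (xr 1 y : ℂ))) (Ioi (0:ℝ)) := by
  obtain ⟨C, hC, hb⟩ := gam_bound hz
  have h1 : IntegrableOn (fun y => C * mm (xr 1 y)) (Ioi (0:ℝ)) :=
    (ker_integrable mm_ker zero_le_one).const_mul C
  apply Integrable.mono' h1 (gam_meas hz)
  rw [ae_restrict_iff' measurableSet_Ioi]
  filter_upwards with y hy
  exact hb _ (xr_nonneg zero_le_one (le_of_lt hy))

lemma JJ_deriv {z₀ : ℂ} (hz : z₀ ∈ Complex.slitPlane) : DifferentiableAt ℂ JJ z₀ := by
  have hl := local_bound hz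
  have hk := kap_pos hz
  set C := (‖z₀‖ + 1) / Real.sqrt (kap z₀ / 2) with hC
  have := hasDerivAt_integral_of_dominated_loc_of_deriv_le (𝕜 := ℂ)
    (μ := volume.restrict (Ioi (0:ℝ)))
    (F := fun z y => gam (z * (xr 1 y : ℂ)))
    (F' := fun z y => -(z * (xr 1 y : ℂ) ^ 2) / (1 + z * (xr 1 y :ℂ)))
    (x₀ := z₀) (bound := fun y => C * mm (xr 1 y)) hl ?_ (gam_integrable hz) ?_ ?_
    ((ker_integrable mm_ker zero_le_one).const_mul C) ?_
  · exact this.2.differentiableAt
  · filter_upwards [hl] with z h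
    exact gam_meas h.1
  · apply ContinuousOn.aestronglyMeasurable _ measurableSet_Ioi
    have hx : ContinuousOn (fun y => (xr 1 y : ℂ)) (Ioi 0) :=
      Complex.continuous_ofReal.comp_continuousOn xr_continuousOn
    apply ContinuousOn.div
    · exact (continuousOn_const.mul (hx.pow 2)).neg
    · exact continuousOn_const.add (continuousOn_const.mul hx)
    · intro y hy
      exact Complex.slitPlane_ne_zero (one_add_mem hz (xr_nonneg zero_le_one (le_of_lt hy)))
  · rw [ae_restrict_iff' measurableSet_Ioi]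
    filter_upwards with y hy z hzz
    have hx : 0 ≤ xr 1 y := xr_nonneg zero_le_one (le_of_lt hy)
    set x := xr 1 y
    have hm : 0 < kap z₀ / 2 := by positivity
    have h1 := norm_ge_sqrt hm (hzz.2.2 x hx)
    have hs0 : 0 < Real.sqrt (1 + x ^ 2) := Real.sqrt_pos.2 (by positivity)
    have hsm : 0 < Real.sqrt (kap z₀ / 2) := Real.sqrt_pos.2 hm
    rw [norm_div, norm_neg, norm_mul, norm_pow, Complex.norm_real, Real.norm_eq_abs,
      abs_of_nonneg hx]
    calc ‖z‖ * x ^ 2 / ‖1 + z * (x:ℂ)‖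
        ≤ (‖z₀‖ + 1) * x ^ 2 / (Real.sqrt (kap z₀ / 2) * Real.sqrt (1 + x ^ 2)) := by
          apply div_le_div₀ (by positivity) _ (by positivity) h1
          exact mul_le_mul_of_nonneg_right hzz.2.1 (sq_nonneg _)
      _ = C * (x * (x / Real.sqrt (1 + x ^ 2))) := by rw [hC]; field_simp
      _ ≤ C * mm x := by
          apply mul_le_mul_of_nonneg_left _ (by positivity)
          unfold mm
          apply le_min
          · have := (x_div_sqrt hx).1; nlinarith
          · have := (x_div_sqrt hx).2; nlinarith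
  · rw [ae_restrict_iff' measurableSet_Ioi]
    filter_upwards with y hy z hzz
    exact gam_z_deriv hzz.1 (xr_nonneg zero_le_one (le_of_lt hy))

lemma JJ_scale (z : ℂ) {l : ℝ} (hl : 0 < l) : JJ ((l:ℂ) * z) = (l ^ (4/3 : ℝ) : ℝ) * JJ z := by
  have hb : 0 < l ^ (-(4/3) : ℝ) := Real.rpow_pos_of_pos hl _
  have := integral_comp_mul_left_Ioi (fun y => gam (z * (xr 1 y : ℂ))) 0 hb
  rw [mul_zero] at this
  unfold JJ
  have e : ∫ y in Ioi (0:ℝ), gam ((l:ℂ) * z * (xr 1 y : ℂ))
      = ∫ y in Ioi (0:ℝ), gam (z * (xr 1 (l ^ (-(4/3) : ℝ) * y) : ℂ)) := by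
    apply setIntegral_congr_fun measurableSet_Ioi
    intro y hy
    have hy : (0:ℝ) < y := hy
    have h2 : xr 1 (l ^ (-(4/3) : ℝ) * y) = l * xr 1 y := by
      rw [xr_eq zero_le_one (by positivity), xr_eq zero_le_one hy.le, Real.mul_rpow hb.le hy.le,
        ← Real.rpow_mul hl.le]
      norm_num
    simp only [h2]
    push_cast
    congr 1; ring
  rw [e, this, Real.rpow_neg hl.le, inv_inv]
  exact Complex.real_smul

lemma JJ_euler {z : ℂ} (hz : z ∈ Complex.slitPlane) : z * deriv JJ z = (4/3 : ℂ) * JJ z := by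
  have h1 : HasDerivAt (fun l : ℝ => JJ ((l:ℂ) * z)) (deriv JJ z * z) 1 := by
    have h2 : HasDerivAt (fun l : ℝ => (l:ℂ) * z) z 1 := by
      have := (Complex.ofRealCLM.hasDerivAt (x := (1:ℝ))).mul_const z
      simpa using this
    have h3 : HasDerivAt JJ (deriv JJ z) (((1:ℝ):ℂ) * z) := by
      rw [Complex.ofReal_one, one_mul]
      exact (JJ_deriv hz).hasDerivAt
    have := h3.comp_of_eq (1:ℝ) h2 rfl
    exact this
  have h4 : HasDerivAt (fun l : ℝ => ((l ^ (4/3 : ℝ) : ℝ) : ℂ) * JJ z) ((4/3 : ℂ) * JJ z) 1 := by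
    have h5 : HasDerivAt (fun l : ℝ => l ^ (4/3 : ℝ)) (4/3) 1 := by
      have := Real.hasDerivAt_rpow_const (x := 1) (p := 4/3) (Or.inl one_ne_zero)
      simpa using this
    have h6 := (h5.ofReal_comp).mul_const (JJ z)
    convert! h6 using 1
    push_cast; rfl
  have h7 : HasDerivAt (fun l : ℝ => JJ ((l:ℂ) * z)) ((4/3 : ℂ) * JJ z) 1 := by
    apply h4.congr_of_eventuallyEq
    filter_upwards [lt_mem_nhds (zero_lt_one (α := ℝ))] with l hl
    exact JJ_scale z hl
  have := h1.unique h7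
  rw [mul_comm]; exact this

lemma exp_mem_slit {θ : ℝ} (h1 : -Real.pi < θ) (h2 : θ < Real.pi) :
    Complex.exp (θ * Complex.I) ∈ Complex.slitPlane := by
  rw [Complex.mem_slitPlane_iff_arg]
  constructor
  · rw [Complex.arg_exp_mul_I, toIocMod_eq_self (by positivity) |>.2 ?_]
    · exact h2.ne
    · constructor
      · exact h1
      · linarith
  · exact Complex.exp_ne_zero _

lemma JJ_rot {θ : ℝ} (h1 : -Real.pi < θ) (h2 : θ < Real.pi) :
    JJ (Complex.exp (θ * Complex.I)) = Complex.exp ((4/3 * θ : ℝ) * Complex.I) * JJ 1 := by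
  set q : ℝ → ℂ := fun t => JJ (Complex.exp (t * Complex.I))
    * Complex.exp (-((4/3 : ℂ) * (t * Complex.I))) with hq
  have hder : ∀ t ∈ Ioo (-Real.pi) Real.pi, HasDerivWithinAt q 0 (Ioo (-Real.pi) Real.pi) t := by
    intro t ht
    have hs := exp_mem_slit ht.1 ht.2
    have a1 : HasDerivAt (fun t : ℝ => (t:ℂ) * Complex.I) Complex.I t := by
      have := (Complex.ofRealCLM.hasDerivAt (x := t)).mul_const Complex.I
      simpa using this
    have a2 := a1.cexp
    have a3 : HasDerivAt (fun t : ℝ => JJ (Complex.exp (t * Complex.I)))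
        (deriv JJ (Complex.exp (t * Complex.I)) * (Complex.exp (t * Complex.I) * Complex.I)) t :=
      ((JJ_deriv hs).hasDerivAt).comp_of_eq t a2 rfl
    have a4 := ((a1.const_mul (4/3 : ℂ)).neg).cexp
    have a5 := a3.mul a4
    have e := JJ_euler hs
    have : q = (fun t : ℝ => JJ (Complex.exp (t * Complex.I)))
        * (fun t : ℝ => Complex.exp (-((4/3 : ℂ) * (t * Complex.I)))) := rfl
    rw [this]
    apply HasDerivAt.hasDerivWithinAt
    convert! a5 using 1
    rw [show deriv JJ (Complex.exp (t * Complex.I)) * (Complex.exp (t * Complex.I) * Complex.I)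
      = (Complex.exp (t * Complex.I) * deriv JJ (Complex.exp (t * Complex.I))) * Complex.I by ring,
      e]
    ring
  have hπ := Real.pi_pos
  have := (convex_Ioo (-Real.pi) Real.pi).norm_image_sub_le_of_norm_hasDerivWithin_le
    (f := q) (f' := fun _ => 0) (C := 0) (x := 0) (y := θ) hder (fun _ _ => by simp)
    ⟨by linarith, hπ⟩ ⟨h1, h2⟩
  rw [zero_mul] at this
  have h3 : q θ = q 0 := by
    have := norm_le_zero_iff.1 this
    exact sub_eq_zero.1 this
  rw [hq] at h3
  simp only [Complex.ofReal_zero, zero_mul, Complex.exp_zero, mul_zero, neg_zero, mul_one] at h3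
  rw [← h3]
  have : Complex.exp ((4/3 * θ : ℝ) * Complex.I) * Complex.exp (-((4/3 : ℂ) * (θ * Complex.I))) = 1 := by
    rw [← Complex.exp_add]
    push_cast
    rw [show (4/3 : ℂ) * θ * Complex.I + -((4/3 : ℂ) * (θ * Complex.I)) = 0 by ring,
      Complex.exp_zero]
  calc _ = JJ (Complex.exp (θ * Complex.I)) * 1 := by rw [mul_one]
    _ = _ := by rw [← this]; ring

lemma gam_re {θ x : ℝ} :
    (gam (Complex.exp (θ * Complex.I) * (x:ℂ))).re = ec (-Real.cos θ) x := by
  unfold gam ec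
  have hn : ‖Complex.exp (θ * Complex.I)‖ = 1 := Complex.norm_exp_ofReal_mul_I θ
  have hre : (Complex.exp (θ * Complex.I)).re = Real.cos θ := by
    rw [Complex.exp_ofReal_mul_I_re]
  have h1 := normSq_one_add (Complex.exp (θ * Complex.I)) x
  rw [hn, hre] at h1
  rw [Complex.sub_re, Complex.log_re, Complex.mul_re, hre, Complex.ofReal_re, Complex.ofReal_im,
    mul_zero, sub_zero]
  have h2 : Real.log ‖1 + Complex.exp (θ * Complex.I) * (x:ℂ)‖
      = (1/2) * Real.log (‖1 + Complex.exp (θ * Complex.I) * (x:ℂ)‖ ^ 2) := by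
    rw [Real.log_pow]; push_cast; ring
  rw [h2, h1]
  rw [show 1 - 2 * -Real.cos θ * x + x ^ 2 = 1 + 2 * x * Real.cos θ + x ^ 2 * 1 ^ 2 by ring]
  ring

lemma II_re {θ : ℝ} (h1 : -Real.pi < θ) (h2 : θ < Real.pi) :
    II (ec (-Real.cos θ)) = (JJ (Complex.exp (θ * Complex.I))).re := by
  unfold II JJ
  have := gam_integrable (exp_mem_slit h1 h2)
  have e := integral_re (𝕜 := ℂ) this
  simp only [RCLike.re_eq_complex_re] at e
  rw [← e]
  congr 1
  ext y
  exact gam_re.symm

lemma JJ_one_im : (JJ 1).im = 0 := by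
  unfold JJ
  have h0 : (1:ℂ) ∈ Complex.slitPlane := by simp
  have := gam_integrable h0
  have e := integral_im (𝕜 := ℂ) this
  simp only [RCLike.im_eq_complex_im] at e
  rw [← e]
  rw [setIntegral_eq_zero_of_forall_eq_zero]
  intro y hy
  have hx : 0 ≤ xr 1 y := xr_nonneg zero_le_one (le_of_lt hy)
  rw [one_mul]
  unfold gam
  rw [show (1:ℂ) + (xr 1 y : ℂ) = ((1 + xr 1 y : ℝ) : ℂ) by push_cast; rfl,
    ← Complex.ofReal_log (by positivity), ← Complex.ofReal_sub]
  exact Complex.ofReal_im _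

/-- the key identity -/
theorem II_cos {θ : ℝ} (h1 : -Real.pi < θ) (h2 : θ < Real.pi) :
    II (ec (-Real.cos θ)) = Real.cos (4/3 * θ) * II (ec (-1)) := by
  have hπ := Real.pi_pos
  rw [II_re h1 h2, JJ_rot h1 h2, Complex.mul_re, JJ_one_im, mul_zero, sub_zero,
    Complex.exp_ofReal_mul_I_re]
  congr 1
  have := II_re (θ := 0) (by linarith) hπ
  simpa using this.symm

lemma II_neg : II (ec (-1)) < 0 := by
  have hk := ec_ker (c := -1) (by norm_num) le_rfl
  have hi := ker_integrable hk zero_le_one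
  have hpos : ∀ y : ℝ, 0 < y → ec (-1) (xr 1 y) < 0 := by
    intro y hy
    have hx : 0 < xr 1 y := Real.rpow_pos_of_pos (by positivity) _
    rw [ec_neg_one]
    have := Real.log_lt_sub_one_of_pos (show 0 < 1 + xr 1 y by linarith) (by linarith)
    linarith
  have h2 : 0 < ∫ y in Ioi (0:ℝ), -(ec (-1) (xr 1 y)) := by
    rw [setIntegral_pos_iff_support_of_nonneg_ae]
    · have : (Function.support fun y => -(ec (-1) (xr 1 y))) ∩ Ioi (0:ℝ) = Ioi 0 := by
        ext y
        constructor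
        · intro h; exact h.2
        · intro h
          refine ⟨?_, h⟩
          have := hpos y h
          simp only [Function.mem_support, ne_eq, neg_eq_zero]
          exact this.ne
      rw [this]
      simp
    · rw [EventuallyLE, ae_restrict_iff' measurableSet_Ioi]
      filter_upwards with y hy
      have := hpos y hy
      simp only [Pi.zero_apply]
      linarith
    · exact hi.neg
  unfold II
  rw [integral_neg] at h2
  linarith

/-- the indicator value on the rays -/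
noncomputable def m0 : ℝ := II (ec 0)

lemma m0_eq : m0 = -(II (ec (-1))) / 2 := by
  have hπ := Real.pi_pos
  have := II_cos (θ := Real.pi / 2) (by linarith) (by linarith)
  rw [Real.cos_pi_div_two, neg_zero] at this
  unfold m0
  rw [this, show 4/3 * (Real.pi / 2) = Real.pi - Real.pi / 3 by ring, Real.cos_pi_sub,
    Real.cos_pi_div_three]
  ring

lemma m0_pos : 0 < m0 := by
  rw [m0_eq]; linarith [II_neg]

lemma II_pos {c : ℝ} (h0 : 0 ≤ c) (h1 : c < 1) : 0 < II (ec c) := by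
  have hπ := Real.pi_pos
  set θ := Real.arccos (-c) with hθ
  have hcos : Real.cos θ = -c := Real.cos_arccos (by linarith) (by linarith)
  have hθ1 : Real.pi / 2 ≤ θ := by
    rw [hθ, ← Real.arccos_zero]
    exact Real.antitone_arccos (by linarith)
  have hθ2 : θ < Real.pi := by
    have h3 : θ ≤ Real.pi := Real.arccos_le_pi _
    rcases h3.lt_or_eq with h | h
    · exact h
    · rw [h, Real.cos_pi] at hcos; linarith
  have := II_cos (θ := θ) (by linarith) hθ2
  rw [hcos, neg_neg] at this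
  rw [this]
  apply mul_pos_of_neg_of_neg _ II_neg
  apply Real.cos_neg_of_pi_div_two_lt_of_lt <;> linarith

/-- continuity at the singular kernel -/
lemma II_near {ε : ℝ} (hε : 0 < ε) : ∃ c₀ : ℝ, 0 ≤ c₀ ∧ c₀ < 1 ∧ ∀ c : ℝ, c₀ < c → c < 1 →
    |II (ec c) - m0| < ε := by
  have hπ := Real.pi_pos
  -- the function c ↦ cos (4/3 arccos (-c)) II(-1) is continuous
  have hc : Continuous (fun c : ℝ => Real.cos (4/3 * Real.arccos (-c)) * II (ec (-1))) := by
    exact (Real.continuous_cos.comp (continuous_const.mul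
      (Real.continuous_arccos.comp continuous_neg))).mul continuous_const
  have h1 : Real.cos (4/3 * Real.arccos (-1)) * II (ec (-1)) = m0 := by
    rw [Real.arccos_neg_one, m0_eq, show 4/3 * Real.pi = Real.pi / 3 + Real.pi by ring,
      Real.cos_add_pi, Real.cos_pi_div_three]
    ring
  have h2 := (hc.tendsto 1)
  rw [h1] at h2
  have h3 := h2.eventually (Metric.ball_mem_nhds m0 hε)
  rw [Metric.eventually_nhds_iff] at h3
  obtain ⟨δ, hδ, h4⟩ := h3
  refine ⟨max 0 (1 - δ), le_max_left _ _, max_lt one_pos (by linarith), fun c hc1 hc2 => ?_⟩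
  have hc0 : 0 < c := lt_of_le_of_lt (le_max_left _ _) hc1
  have hcd : 1 - δ < c := lt_of_le_of_lt (le_max_right _ _) hc1
  have h5 := h4 (y := c) (by rw [Real.dist_eq, abs_lt]; constructor <;> linarith)
  have hcos : Real.cos (Real.arccos (-c)) = -c := Real.cos_arccos (by linarith) (by linarith)
  have hlt : Real.arccos (-c) < Real.pi := by
    rcases (Real.arccos_le_pi (-c)).lt_or_eq with h | h
    · exact h
    · rw [h, Real.cos_pi] at hcos; linarith
  have h6 := II_cos (θ := Real.arccos (-c)) (by linarith [Real.arccos_nonneg (-c)]) hlt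
  rw [hcos, neg_neg] at h6
  rw [h6]
  rwa [Real.dist_eq] at h5

end Pool.Agent.Helper26.Leo
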