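import Pool.Agent.Helper26.LeoSum

set_option autoImplicit false
open Filter MeasureTheory Set Topology

namespace Pool.Agent.Helper26.Leo

/-- kernel `e_c(x) = ½ log(1 - 2 c x + x²) + c x` -/
noncomputable def ec (c x : ℝ) : ℝ := (1/2) * Real.log (1 - 2 * c * x + x ^ 2) + c * x

/-- `m(x) = min(x, x²)` -/
noncomputable def mm (x : ℝ) : ℝ := min x (x ^ 2)

lemma mm_nonneg {x : ℝ} (hx : 0 ≤ x) : 0 ≤ mm x := le_min hx (sq_nonneg x)

lemma mm_ker : Ker mm 2 where
  nonneg := by norm_num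
  lip x y hx hy := by
    unfold mm
    rcases le_total x 1 with h1 | h1 <;> rcases le_total y 1 with h2 | h2
    · rw [min_eq_right (by nlinarith), min_eq_right (by nlinarith),
        show x ^ 2 - y ^ 2 = (x + y) * (x - y) by ring, abs_mul]
      apply mul_le_mul_of_nonneg_right _ (abs_nonneg _)
      rw [abs_of_nonneg (by linarith)]; linarith
    · rw [min_eq_right (by nlinarith), min_eq_left (by nlinarith)]
      have : x ≤ y := h1.trans h2
      rw [abs_sub_comm x y, abs_of_nonneg (sub_nonneg.2 this), abs_le]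
      constructor <;> nlinarith
    · rw [min_eq_left (by nlinarith), min_eq_right (by nlinarith)]
      have : y ≤ x := h2.trans h1
      rw [abs_of_nonneg (sub_nonneg.2 this), abs_le]
      constructor <;> nlinarith
    · rw [min_eq_left (by nlinarith), min_eq_left (by nlinarith)]
      nlinarith [abs_nonneg (x - y)]
  quad x hx := by
    rw [abs_of_nonneg (mm_nonneg hx)]
    have : mm x ≤ x ^ 2 := min_le_right _ _
    nlinarith [sq_nonneg x]

/-- derivative criterion -/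
lemma ker_of_deriv {k k' : ℝ → ℝ} {L : ℝ} (hL : 0 ≤ L) (h0 : k 0 = 0)
    (hd : ∀ x, 0 ≤ x → HasDerivAt k (k' x) x) (hb1 : ∀ x, 0 ≤ x → |k' x| ≤ L)
    (hb2 : ∀ x, 0 ≤ x → |k' x| ≤ L * x) : Ker k L where
  nonneg := hL
  lip x y hx hy := by
    have := (convex_Ici (0:ℝ)).norm_image_sub_le_of_norm_hasDerivWithin_le (f := k) (f' := k')
      (C := L) (x := y) (y := x) (fun t ht => (hd t ht).hasDerivWithinAt)
      (fun t ht => by rw [Real.norm_eq_abs]; exact hb1 t ht) hy hx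
    simpa [Real.norm_eq_abs] using this
  quad x hx := by
    have := (convex_Icc (0:ℝ) x).norm_image_sub_le_of_norm_hasDerivWithin_le (f := k) (f' := k')
      (C := L * x) (x := 0) (y := x) (fun t ht => (hd t ht.1).hasDerivWithinAt)
      (fun t ht => by
        rw [Real.norm_eq_abs]
        exact (hb2 t ht.1).trans (mul_le_mul_of_nonneg_left ht.2 hL)) (left_mem_Icc.2 hx)
      (right_mem_Icc.2 hx)
    simp only [h0, sub_zero, Real.norm_eq_abs, abs_of_nonneg hx] at this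
    nlinarith

lemma quad_pos {c : ℝ} (hc : c < 1) (hc' : -1 ≤ c) {x : ℝ} (hx : 0 ≤ x) :
    (1 - c) / 2 * (1 + x ^ 2) ≤ 1 - 2 * c * x + x ^ 2 := by
  rcases le_total c 0 with h | h
  · nlinarith [mul_nonneg (neg_nonneg.2 h) hx, sq_nonneg x]
  · nlinarith [sq_nonneg (x - 1), sq_nonneg x]

lemma ec_hasDeriv {c : ℝ} (hc : c < 1) (hc' : -1 ≤ c) {x : ℝ} (hx : 0 ≤ x) :
    HasDerivAt (ec c) (x * (1 - 2 * c ^ 2 + c * x) / (1 - 2 * c * x + x ^ 2)) x := by
  have hp : 0 < 1 - 2 * c * x + x ^ 2 :=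
    lt_of_lt_of_le (by have := sub_pos.2 hc; positivity) (quad_pos hc hc' hx)
  have h1 : HasDerivAt (fun x : ℝ => 1 - 2 * c * x + x ^ 2) (-(2 * c) + 2 * x) x := by
    have := (((hasDerivAt_id x).const_mul (2 * c)).const_sub 1).add ((hasDerivAt_id x).pow 2)
    convert! this using 1
    simp
  have h2 := (h1.log hp.ne').const_mul (1/2)
  have h3 := h2.add ((hasDerivAt_id x).const_mul c)
  unfold ec
  convert! h3 using 1
  rw [div_eq_iff hp.ne', add_mul, mul_assoc (1/2 : ℝ), div_mul_cancel₀ _ hp.ne']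
  ring

lemma ec_ker {c : ℝ} (hc : c < 1) (hc' : -1 ≤ c) : Ker (ec c) (8 / (1 - c)) := by
  have h1c : 0 < 1 - c := sub_pos.2 hc
  apply ker_of_deriv (by positivity) _ (fun x hx => ec_hasDeriv hc hc' hx)
  · intro x hx
    have hp := quad_pos hc hc' hx
    have hp0 : 0 < (1 - c) / 2 * (1 + x ^ 2) := by positivity
    rw [abs_div, abs_of_pos (hp0.trans_le hp), div_le_div_iff₀ (hp0.trans_le hp) h1c]
    have hn : |x * (1 - 2 * c ^ 2 + c * x)| ≤ x * (1 + x) := by
      rw [abs_mul, abs_of_nonneg hx]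
      apply mul_le_mul_of_nonneg_left _ hx
      rw [abs_le]
      constructor <;> nlinarith
    calc |x * (1 - 2 * c ^ 2 + c * x)| * (1 - c) ≤ (x * (1 + x)) * (1 - c) :=
          mul_le_mul_of_nonneg_right hn h1c.le
      _ ≤ 8 * ((1 - c) / 2 * (1 + x ^ 2)) := by nlinarith [sq_nonneg (x - 1), mul_pos h1c h1c, sq_nonneg x, mul_nonneg h1c.le (sq_nonneg (x-1)), mul_nonneg h1c.le (sq_nonneg x)]
      _ ≤ _ := by linarith
  · intro x hx
    have hp := quad_pos hc hc' hx
    have hp0 : 0 < (1 - c) / 2 * (1 + x ^ 2) := by positivity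
    rw [abs_div, abs_of_pos (hp0.trans_le hp), div_mul_eq_mul_div, div_le_div_iff₀ (hp0.trans_le hp) h1c]
    have hn : |x * (1 - 2 * c ^ 2 + c * x)| ≤ x * (1 + x) := by
      rw [abs_mul, abs_of_nonneg hx]
      apply mul_le_mul_of_nonneg_left _ hx
      rw [abs_le]
      constructor <;> nlinarith
    calc |x * (1 - 2 * c ^ 2 + c * x)| * (1 - c) ≤ (x * (1 + x)) * (1 - c) :=
          mul_le_mul_of_nonneg_right hn h1c.le
      _ ≤ 8 * x * ((1 - c) / 2 * (1 + x ^ 2)) := by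
          have : (1 + x) ≤ 4 * (1 + x^2) := by nlinarith [sq_nonneg (x - 1)]
          have h5 := mul_le_mul_of_nonneg_left this (mul_nonneg hx h1c.le)
          nlinarith
      _ ≤ _ := by
          apply mul_le_mul_of_nonneg_left hp; positivity
  · simp [ec]

lemma D_pos {c : ℝ} (hc : c < 1) (hc' : -1 ≤ c) {x : ℝ} (hx : 0 ≤ x) :
    0 < 1 - 2 * c * x + x ^ 2 :=
  lt_of_lt_of_le (by have := sub_pos.2 hc; positivity) (quad_pos hc hc' hx)

lemma upper_aux {c : ℝ} (hc : c < 1) (hc' : 0 ≤ c) {x : ℝ} (hx : 0 ≤ x) :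
    (1 - x) ^ 2 * Real.exp (2 * ((1 - c) * x - 16 * (1 - c) * mm x)) ≤ 1 - 2 * c * x + x ^ 2 := by
  have hq : 0 < 1 - c := sub_pos.2 hc
  have hD : (1 - x) ^ 2 ≤ 1 - 2 * c * x + x ^ 2 := by nlinarith
  rcases le_total 1 x with h | h
  · have hm : mm x = x := min_eq_left (by nlinarith)
    rw [hm]
    have : Real.exp (2 * ((1 - c) * x - 16 * (1 - c) * x)) ≤ 1 := by
      rw [Real.exp_le_one_iff]; nlinarith [mul_nonneg hq.le hx]
    nlinarith [sq_nonneg (1 - x)]
  · have hm : mm x = x ^ 2 := min_eq_right (by nlinarith)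
    rw [hm]
    rcases le_total (1/16) x with h2 | h2
    · have : Real.exp (2 * ((1 - c) * x - 16 * (1 - c) * x ^ 2)) ≤ 1 := by
        rw [Real.exp_le_one_iff]
        have : (1 - c) * x - 16 * (1 - c) * x ^ 2 = ((1 - c) * x) * (1 - 16 * x) := by ring
        rw [this]
        nlinarith [mul_nonneg hq.le hx]
      nlinarith [sq_nonneg (1 - x)]
    · set t := 2 * ((1 - c) * x - 16 * (1 - c) * x ^ 2) with ht
      have hqx : 0 ≤ (1 - c) * x := mul_nonneg hq.le hx
      have ht' : t = 2 * ((1 - c) * x) * (1 - 16 * x) := by rw [ht]; ring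
      have ht0 : 0 ≤ t := by
        rw [ht']; apply mul_nonneg (by positivity); linarith
      have ht1 : t ≤ 2 * x := by
        rw [ht']
        have : (1 - c) * x ≤ x := by nlinarith
        nlinarith
      have hexp : Real.exp t ≤ 1 + t + t ^ 2 := by
        have := Real.abs_exp_sub_one_sub_id_le (x := t) (by rw [abs_of_nonneg ht0]; linarith)
        have := (abs_le.1 this).2
        linarith
      have h5 : t * (1 + t) ≤ 2 * ((1 - c) * x) := by
        have : t * (1 + t) ≤ t * (1 + 2 * x) := mul_le_mul_of_nonneg_left (by linarith) ht0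
        refine this.trans ?_
        rw [ht', mul_assoc]
        have h6 : (1 - 16 * x) * (1 + 2 * x) ≤ 1 := by nlinarith
        nlinarith
      have h7 : (1 - x) ^ 2 ≤ 1 := by nlinarith
      have h8 : 0 ≤ t * (1 + t) := by positivity
      calc (1 - x) ^ 2 * Real.exp t ≤ (1 - x) ^ 2 * (1 + t + t ^ 2) :=
            mul_le_mul_of_nonneg_left hexp (sq_nonneg _)
        _ = (1 - x) ^ 2 + (1 - x) ^ 2 * (t * (1 + t)) := by ring
        _ ≤ (1 - x) ^ 2 + 1 * (t * (1 + t)) := by gcongr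
        _ ≤ _ := by nlinarith

/-- upper majorant kernel -/
noncomputable def uk (c x : ℝ) : ℝ := ec c x + 16 * (1 - c) * mm x

/-- lower minorant kernel -/
noncomputable def lk (c x : ℝ) : ℝ := ec c x + -(8 * (1 - c)) * mm x

lemma upper_mul {c : ℝ} (hc : c < 1) (hc' : 0 ≤ c) {x : ℝ} (hx : 0 ≤ x) :
    |1 - x| * Real.exp x ≤ Real.exp (uk c x) := by
  have h := upper_aux hc hc' hx
  have hD := D_pos hc (by linarith) hx
  have e1 : Real.exp (uk c x) = Real.sqrt (1 - 2 * c * x + x ^ 2)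
      * Real.exp (c * x + 16 * (1 - c) * mm x) := by
    unfold uk ec
    rw [add_assoc, Real.exp_add]
    congr 1
    rw [← Real.log_sqrt hD.le |>.trans (by ring : Real.log (1 - 2 * c * x + x ^ 2) / 2
      = (1/2) * Real.log (1 - 2 * c * x + x ^ 2)), Real.exp_log (Real.sqrt_pos.2 hD)]
  rw [e1]
  have h2 := Real.sqrt_le_sqrt h
  rw [Real.sqrt_mul (sq_nonneg _), Real.sqrt_sq_eq_abs,
    show 2 * ((1 - c) * x - 16 * (1 - c) * mm x) = ((1 - c) * x - 16 * (1 - c) * mm x)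
      + ((1 - c) * x - 16 * (1 - c) * mm x) by ring, Real.exp_add,
    Real.sqrt_mul_self (Real.exp_nonneg _)] at h2
  calc |1 - x| * Real.exp x = (|1 - x| * Real.exp ((1 - c) * x - 16 * (1 - c) * mm x))
        * Real.exp (c * x + 16 * (1 - c) * mm x) := by
        rw [mul_assoc, ← Real.exp_add]; congr 2; ring
    _ ≤ _ := mul_le_mul_of_nonneg_right h2 (Real.exp_nonneg _)

lemma uk_ker {c : ℝ} (hc : c < 1) (hc' : 0 ≤ c) : ∃ L, Ker (uk c) L :=
  ⟨_, (ec_ker hc (by linarith)).add (mm_ker.smul _)⟩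

lemma lk_ker {c : ℝ} (hc : c < 1) (hc' : 0 ≤ c) : ∃ L, Ker (lk c) L :=
  ⟨_, (ec_ker hc (by linarith)).add (mm_ker.smul _)⟩

lemma exp_le_uk {c : ℝ} (hc : c < 1) (hc' : 0 ≤ c) {x : ℝ} (hx : 0 ≤ x) :
    Real.exp x ≤ Real.exp ((1 - c) - (1/2) * Real.log (1 - c ^ 2)) * Real.exp (uk c x) := by
  rw [← Real.exp_add, Real.exp_le_exp]
  have hq : 0 < 1 - c := sub_pos.2 hc
  have h1 : 0 < 1 - c ^ 2 := by nlinarith
  have h2 : Real.log (1 - c ^ 2) ≤ Real.log (1 - 2 * c * x + x ^ 2) := by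
    apply Real.log_le_log h1
    nlinarith [sq_nonneg (x - c)]
  unfold uk ec
  have h3 : (1 - c) * x ≤ (1 - c) + 16 * (1 - c) * mm x := by
    rcases le_total 1 x with h | h
    · have hm : mm x = x := min_eq_left (by nlinarith)
      rw [hm]; nlinarith
    · have := mm_nonneg hx
      have : (1 - c) * x ≤ 1 - c := by nlinarith
      have : 0 ≤ 16 * (1 - c) * mm x := by positivity
      linarith
  linarith

lemma ec_zero_nonneg (x : ℝ) : 0 ≤ ec 0 x := by
  unfold ec
  have : 0 ≤ Real.log (1 - 2 * 0 * x + x ^ 2) := by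
    apply Real.log_nonneg; nlinarith [sq_nonneg x]
  rw [zero_mul, add_zero]
  positivity

lemma ec_neg_one (x : ℝ) : ec (-1) x = Real.log (1 + x) - x := by
  unfold ec
  rw [show 1 - 2 * (-1) * x + x ^ 2 = (1 + x) ^ 2 by ring, Real.log_pow]
  push_cast; ring

lemma ec_neg_one_nonpos {x : ℝ} (hx : 0 ≤ x) : ec (-1) x ≤ 0 := by
  rw [ec_neg_one x]
  have := Real.log_le_sub_one_of_pos (show 0 < 1 + x by linarith)
  linarith

lemma ec_neg_one_le {x : ℝ} (hx : 0 ≤ x) : ec (-1) x ≤ ec 0 x :=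
  (ec_neg_one_nonpos hx).trans (ec_zero_nonneg x)

lemma log_one_add_le {s : ℝ} (hs : 0 ≤ s) : Real.log (1 + s) ≤ 4 * s ^ (1/4 : ℝ) := by
  set v := s ^ (1/4 : ℝ) with hv
  have hv0 : 0 ≤ v := Real.rpow_nonneg hs _
  have hv4 : v ^ 4 = s := by
    rw [hv, ← Real.rpow_natCast, ← Real.rpow_mul hs]; norm_num
  have h1 : 1 + s ≤ (1 + v) ^ 4 := by
    rw [← hv4]
    nlinarith [pow_nonneg hv0 2, pow_nonneg hv0 3]
  calc Real.log (1 + s) ≤ Real.log ((1 + v) ^ 4) := Real.log_le_log (by linarith) h1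
    _ = 4 * Real.log (1 + v) := by rw [Real.log_pow]; norm_num
    _ ≤ 4 * v := by
      have := Real.log_le_sub_one_of_pos (show 0 < 1 + v by linarith)
      linarith

/-- singular part -/
noncomputable def sg (x : ℝ) : ℝ := if 1/2 < x ∧ x < 2 then |1 - x| ^ (-(1/2) : ℝ) else 0

lemma sg_nonneg (x : ℝ) : 0 ≤ sg x := by
  unfold sg; split_ifs
  · exact Real.rpow_nonneg (abs_nonneg _) _
  · exact le_rfl

lemma ec_one_sub {c : ℝ} (hc : c < 1) (hc' : 0 ≤ c) {x : ℝ} (hx : 0 ≤ x) (hx1 : x ≠ 1) :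
    ec 1 x = ec c x - (1/2) * Real.log (1 + 2 * (1 - c) * x / (1 - x) ^ 2) + (1 - c) * x := by
  have hD := D_pos hc (by linarith) hx
  have h1 : (0:ℝ) < (1 - x) ^ 2 := by
    have : 1 - x ≠ 0 := sub_ne_zero.2 hx1.symm
    positivity
  have e : 1 + 2 * (1 - c) * x / (1 - x) ^ 2 = (1 - 2 * c * x + x ^ 2) / (1 - x) ^ 2 := by
    field_simp; ring
  rw [e, Real.log_div hD.ne' h1.ne']
  unfold ec
  rw [show 1 - 2 * 1 * x + x ^ 2 = (1 - x) ^ 2 by ring]
  ring

lemma lower_ineq {c : ℝ} (hc : c < 1) (hc' : 0 ≤ c) {x : ℝ} (hx : 0 ≤ x) (hx1 : x ≠ 1) :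
    lk c x - 3 * (1 - c) ^ (1/4 : ℝ) * sg x ≤ ec 1 x := by
  rw [ec_one_sub hc hc' hx hx1]
  unfold lk
  have hq : 0 < 1 - c := sub_pos.2 hc
  have hm := mm_nonneg hx
  have h1 : (0:ℝ) < (1 - x) ^ 2 := by
    have : 1 - x ≠ 0 := sub_ne_zero.2 hx1.symm
    positivity
  set s := 2 * (1 - c) * x / (1 - x) ^ 2 with hs
  have hs0 : 0 ≤ s := by positivity
  have hlog : Real.log (1 + s) ≤ s := by
    have := Real.log_le_sub_one_of_pos (show 0 < 1 + s by linarith)
    linarith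
  have hsg := sg_nonneg x
  have hq4 : 0 ≤ (1 - c) ^ (1/4 : ℝ) := Real.rpow_nonneg hq.le _
  by_cases hcase : 1/2 < x ∧ x < 2
  · have hlog4 := log_one_add_le hs0
    have hsg' : sg x = |1 - x| ^ (-(1/2) : ℝ) := by unfold sg; rw [if_pos hcase]
    have habs : 0 < |1 - x| := abs_pos.2 (sub_ne_zero.2 hx1.symm)
    have hs4 : s ^ (1/4 : ℝ) ≤ 3/2 * ((1 - c) ^ (1/4 : ℝ) * |1 - x| ^ (-(1/2) : ℝ)) := by
      have h2 : s ≤ (4 * (1 - c)) * (|1 - x| ^ (-(2:ℝ))) := by
        have e : |1 - x| ^ (-(2:ℝ)) = ((1 - x) ^ 2)⁻¹ := by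
          rw [Real.rpow_neg habs.le, show ((2:ℝ)) = ((2:ℕ):ℝ) by norm_num, Real.rpow_natCast,
            sq_abs]
        rw [e, hs, ← div_eq_mul_inv]
        apply div_le_div_of_nonneg_right _ h1.le
        nlinarith [hcase.2]
      have h3 := Real.rpow_le_rpow hs0 h2 (show (0:ℝ) ≤ 1/4 by norm_num)
      refine h3.trans ?_
      rw [Real.mul_rpow (by positivity) (by positivity), Real.mul_rpow (by norm_num) hq.le,
        ← Real.rpow_mul habs.le]
      have h4 : (4:ℝ) ^ (1/4 : ℝ) ≤ 3/2 := by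
        have h5 : (4:ℝ) ≤ (3/2 : ℝ) ^ (4:ℝ) := by
          rw [show ((4:ℝ)) = ((4:ℕ):ℝ) by norm_num, Real.rpow_natCast]; norm_num
        have h6 := Real.rpow_le_rpow (by norm_num) h5 (show (0:ℝ) ≤ 1/4 by norm_num)
        rw [← Real.rpow_mul (by norm_num)] at h6
        norm_num at h6
        convert! h6 using 2
      rw [show (-(2:ℝ)) * (1/4) = -(1/2) by norm_num]
      have h7 : 0 ≤ |1 - x| ^ (-(1/2) : ℝ) := Real.rpow_nonneg habs.le _
      rw [mul_assoc]
      exact mul_le_mul_of_nonneg_right h4 (by positivity)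
    rw [hsg']
    have : 0 ≤ (1 - c) * x := by positivity
    have : 0 ≤ (1 - c) * mm x := by positivity
    nlinarith
  · have hsg' : sg x = 0 := by unfold sg; rw [if_neg hcase]
    rw [hsg', mul_zero, sub_zero]
    rw [not_and_or, not_lt, not_lt] at hcase
    rcases hcase with h | h
    · have hm' : mm x = x ^ 2 := min_eq_right (by nlinarith)
      rw [hm']
      have h3 : s ≤ 2 * (1 - c) * x + 16 * (1 - c) * x ^ 2 := by
        rw [hs, div_le_iff₀ h1]
        have h4 : 1/4 ≤ (1 - x) ^ 2 := by nlinarith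
        have h5 : 2 * (1 - c) * x * (1 - (1 - x) ^ 2) ≤ 16 * (1 - c) * x ^ 2 * (1 - x) ^ 2 := by
          have h6 : 1 - (1 - x) ^ 2 ≤ 2 * x := by nlinarith
          have h7 : 2 * (1 - c) * x * (1 - (1 - x) ^ 2) ≤ 2 * (1 - c) * x * (2 * x) :=
            mul_le_mul_of_nonneg_left h6 (by positivity)
          have h8 : 16 * (1 - c) * x ^ 2 * (1/4) ≤ 16 * (1 - c) * x ^ 2 * (1 - x) ^ 2 :=
            mul_le_mul_of_nonneg_left h4 (by positivity)
          nlinarith
        nlinarith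
      linarith
    · have hm' : mm x = x := min_eq_left (by nlinarith)
      rw [hm']
      have h3 : s ≤ 16 * (1 - c) * x := by
        rw [hs, div_le_iff₀ h1]
        have h4 : 1 ≤ (1 - x) ^ 2 := by nlinarith
        have : 0 ≤ (1 - c) * x := by positivity
        nlinarith
      have : 0 ≤ (1 - c) * x := by positivity
      linarith

end Pool.Agent.Helper26.Leo
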