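import Pool.Agent.Helper26.LeoWin

set_option autoImplicit false
open Filter MeasureTheory Set Topology

namespace Pool.Agent.Helper26.Leo

/-- radius -/
noncomputable def tt (n : ℕ) : ℝ := ((n:ℝ)+1) ^ (3/4 : ℝ)

lemma tt_pos (n : ℕ) : 0 < tt n := Real.rpow_pos_of_pos (by positivity) _

/-- the zeros -/
noncomputable def aa (n : ℕ) : ℂ := Complex.I ^ (dir n) * (tt n : ℂ)

lemma aa_norm (n : ℕ) : ‖aa n‖ = tt n := by
  unfold aa
  rw [norm_mul, norm_pow, Complex.norm_I, one_pow, one_mul, Complex.norm_real, Real.norm_eq_abs,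
    abs_of_pos (tt_pos n)]

lemma aa_ne (n : ℕ) : aa n ≠ 0 := by
  rw [← norm_pos_iff, aa_norm]; exact tt_pos n

/-- elementary factor -/
noncomputable def EE (n : ℕ) (z : ℂ) : ℂ := (1 - z / aa n) * Complex.exp (z / aa n)

noncomputable def PP (L : ℕ) (z : ℂ) : ℂ := ∏ n ∈ Finset.range L, EE n z

noncomputable def ff (z : ℂ) : ℂ := ∏' n, (1 + (EE n z - 1))

lemma E1_bound {u : ℂ} (hu : ‖u‖ ≤ 1) : ‖(1 - u) * Complex.exp u - 1‖ ≤ 3 * ‖u‖ ^ 2 := by
  have e : (1 - u) * Complex.exp u - 1 = (1 - u) * (Complex.exp u - 1 - u) - u ^ 2 := by ring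
  rw [e]
  have h1 := Complex.norm_exp_sub_one_sub_id_le hu
  have h2 : ‖1 - u‖ ≤ 2 := by
    calc ‖1 - u‖ ≤ ‖(1:ℂ)‖ + ‖u‖ := norm_sub_le _ _
      _ ≤ 2 := by rw [norm_one]; linarith
  calc ‖(1 - u) * (Complex.exp u - 1 - u) - u ^ 2‖
      ≤ ‖(1 - u) * (Complex.exp u - 1 - u)‖ + ‖u ^ 2‖ := norm_sub_le _ _
    _ ≤ 2 * ‖u‖ ^ 2 + ‖u‖ ^ 2 := by
        rw [norm_mul, norm_pow]
        gcongr
    _ = _ := by ring

lemma tt_sq (n : ℕ) : tt n ^ 2 = ((n:ℝ)+1) ^ (3/2 : ℝ) := by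
  unfold tt
  rw [← Real.rpow_natCast, ← Real.rpow_mul (by positivity)]; norm_num

lemma summable_tt : Summable (fun n : ℕ => 1 / tt n ^ 2) := by
  have := (summable_nat_add_iff 1).2 (Real.summable_one_div_nat_rpow (p := 3/2) |>.2 (by norm_num))
  refine this.congr fun n => ?_
  rw [tt_sq]; push_cast; rfl

lemma tt_tendsto : Tendsto tt atTop atTop := by
  unfold tt
  apply (tendsto_rpow_atTop (by norm_num : (0:ℝ) < 3/4)).comp
  exact tendsto_atTop_add_const_right _ _ tendsto_natCast_atTop_atTop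

lemma EE_cont (n : ℕ) : Continuous (EE n) := by
  unfold EE; fun_prop

lemma EE_diff (n : ℕ) : Differentiable ℂ (EE n) := by
  unfold EE; fun_prop

lemma EE_small (R : ℝ) : ∀ᶠ n : ℕ in atTop, ∀ z ∈ Metric.ball (0:ℂ) R,
    ‖EE n z - 1‖ ≤ 3 * R ^ 2 * (1 / tt n ^ 2) := by
  filter_upwards [tt_tendsto.eventually (eventually_ge_atTop R)] with n hn z hz
  rw [mem_ball_zero_iff] at hz
  have hR : 0 < R := (norm_nonneg _).trans_lt hz
  have h1 : ‖z / aa n‖ = ‖z‖ / tt n := by rw [norm_div, aa_norm]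
  have ht := tt_pos n
  have h2 : ‖z / aa n‖ ≤ 1 := by
    rw [h1, div_le_one ht]; linarith
  refine (E1_bound h2).trans ?_
  rw [h1, div_pow, mul_assoc, ← mul_one_div (‖z‖ ^ 2)]
  gcongr

lemma has_prod_ball (R : ℝ) : HasProdLocallyUniformlyOn (fun n z => 1 + (EE n z - 1)) ff
    (Metric.ball (0:ℂ) R) := by
  apply Summable.hasProdLocallyUniformlyOn_nat_one_add Metric.isOpen_ball
    (summable_tt.mul_left (3 * R ^ 2)) (EE_small R)
  intro n
  exact ((EE_cont n).sub continuous_const).continuousOn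

lemma PP_eq (L : ℕ) (z : ℂ) : ∏ n ∈ Finset.range L, (1 + (EE n z - 1)) = PP L z := by
  unfold PP
  exact Finset.prod_congr rfl fun n _ => by ring

lemma PP_tendstoLU (R : ℝ) : TendstoLocallyUniformlyOn PP ff atTop (Metric.ball (0:ℂ) R) := by
  have := (has_prod_ball R).tendstoLocallyUniformlyOn_finsetRange
  apply this.congr
  intro L z _
  exact PP_eq L z

lemma PP_diff (L : ℕ) : Differentiable ℂ (PP L) := by
  unfold PP
  exact Differentiable.fun_finsetProd fun n _ => EE_diff n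

lemma ff_diff : Differentiable ℂ ff := by
  intro z
  have h := (PP_tendstoLU (‖z‖ + 1)).differentiableOn
    (Eventually.of_forall fun L => (PP_diff L).differentiableOn) Metric.isOpen_ball
  exact h.differentiableAt (Metric.isOpen_ball.mem_nhds (by rw [mem_ball_zero_iff]; linarith))

lemma PP_tendsto (z : ℂ) : Tendsto (fun L => PP L z) atTop (𝓝 (ff z)) :=
  (PP_tendstoLU (‖z‖ + 1)).tendsto_at (by rw [mem_ball_zero_iff]; linarith)

lemma PP_deriv_tendsto (z : ℂ) : Tendsto (fun L => deriv (PP L) z) atTop (𝓝 (deriv ff z)) :=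
  ((PP_tendstoLU (‖z‖ + 1)).deriv
    (Eventually.of_forall fun L => (PP_diff L).differentiableOn) Metric.isOpen_ball).tendsto_at
    (by rw [mem_ball_zero_iff]; linarith)

lemma E1_norm (u : ℂ) : ‖(1 - u) * Complex.exp u‖
    = Real.sqrt (1 - 2 * u.re + ‖u‖ ^ 2) * Real.exp u.re := by
  rw [norm_mul, Complex.norm_exp]
  congr 1
  rw [eq_comm, Real.sqrt_eq_iff_mul_self_eq]
  · rw [← pow_two, ← Complex.normSq_eq_norm_sq, ← Complex.normSq_eq_norm_sq, Complex.normSq_apply,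
      Complex.normSq_apply]
    simp only [Complex.sub_re, Complex.one_re, Complex.sub_im, Complex.one_im]
    ring
  · rw [← Complex.normSq_eq_norm_sq, Complex.normSq_apply]
    nlinarith [sq_nonneg (1 - u.re), sq_nonneg u.im]
  · exact norm_nonneg _

/-- basic relation between radii and the scale parameter -/
lemma xr_rel {r : ℝ} (hr : 0 ≤ r) (n : ℕ) : xr (r ^ (4/3 : ℝ)) ((n:ℝ)+1) = r / tt n := by
  unfold xr tt
  rw [Real.div_rpow (Real.rpow_nonneg hr _) (by positivity), ← Real.rpow_mul hr]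
  norm_num

/-- point at angle φ -/
noncomputable def pt (r φ : ℝ) : ℂ := (r : ℂ) * Complex.exp ((φ : ℂ) * Complex.I)

lemma pt_norm {r φ : ℝ} (hr : 0 ≤ r) : ‖pt r φ‖ = r := by
  unfold pt
  rw [norm_mul, Complex.norm_exp_ofReal_mul_I, mul_one, Complex.norm_real, Real.norm_eq_abs,
    abs_of_nonneg hr]

noncomputable def cj (φ : ℝ) (j : ℕ) : ℝ := Real.cos (φ - j * (Real.pi / 2))

lemma I_pow (j : ℕ) : Complex.I ^ j = Complex.exp (((j * (Real.pi / 2) : ℝ) : ℂ) * Complex.I) := by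
  have : Complex.I = Complex.exp (((Real.pi / 2 : ℝ) : ℂ) * Complex.I) := by
    push_cast
    rw [Complex.exp_mul_I, Complex.cos_pi_div_two, Complex.sin_pi_div_two]; simp
  nth_rewrite 1 [this]
  rw [← Complex.exp_nat_mul]
  congr 1; push_cast; ring

lemma pt_div {r φ : ℝ} (hr : 0 ≤ r) (n : ℕ) :
    (pt r φ / aa n).re = cj φ (dir n) * (r / tt n) ∧ ‖pt r φ / aa n‖ = r / tt n := by
  constructor
  · have h1 : pt r φ / aa n = ((r / tt n : ℝ) : ℂ)
        * Complex.exp (((φ - dir n * (Real.pi / 2) : ℝ) : ℂ) * Complex.I) := by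
      unfold pt aa
      rw [I_pow, show (((φ - dir n * (Real.pi / 2) : ℝ) : ℂ) * Complex.I)
        = (φ : ℂ) * Complex.I - ((dir n * (Real.pi / 2) : ℝ) : ℂ) * Complex.I by push_cast; ring,
        Complex.exp_sub]
      push_cast
      have : Complex.exp (↑(dir n) * (↑Real.pi / 2) * Complex.I) ≠ 0 := Complex.exp_ne_zero _
      have h2 : (tt n : ℂ) ≠ 0 := by exact_mod_cast (tt_pos n).ne'
      field_simp
    rw [h1, Complex.mul_re, Complex.ofReal_re, Complex.ofReal_im, zero_mul, sub_zero,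
      Complex.exp_ofReal_mul_I_re]
    unfold cj; ring
  · rw [norm_div, pt_norm hr, aa_norm]

lemma EE_norm {r φ : ℝ} (hr : 0 ≤ r) (n : ℕ) :
    ‖EE n (pt r φ)‖ = Real.sqrt (1 - 2 * cj φ (dir n) * xr (r ^ (4/3 : ℝ)) ((n:ℝ)+1)
      + xr (r ^ (4/3 : ℝ)) ((n:ℝ)+1) ^ 2) * Real.exp (cj φ (dir n) * xr (r ^ (4/3 : ℝ)) ((n:ℝ)+1)) := by
  unfold EE
  obtain ⟨h1, h2⟩ := pt_div (φ := φ) hr n
  rw [E1_norm, h1, h2, xr_rel hr, mul_assoc 2 (cj φ (dir n))]

lemma sqrt_exp_eq {c x : ℝ} (h : 0 < 1 - 2 * c * x + x ^ 2) :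
    Real.sqrt (1 - 2 * c * x + x ^ 2) * Real.exp (c * x) = Real.exp (ec c x) := by
  unfold ec
  rw [Real.exp_add]
  congr 1
  rw [← Real.log_sqrt h.le |>.trans (by ring : Real.log (1 - 2 * c * x + x ^ 2) / 2
      = (1/2) * Real.log (1 - 2 * c * x + x ^ 2)), Real.exp_log (Real.sqrt_pos.2 h)]

/-- upper bound transfer -/
lemma ff_upper {kk : ℕ → ℝ → ℝ} (hk : ∀ j < 3, ∃ L, Ker (kk j) L) {r : ℝ} (hr : 0 ≤ r) {z : ℂ}
    (h : ∀ n : ℕ, ‖EE n z‖ ≤ Real.exp (kk (dir n) (xr (r ^ (4/3 : ℝ)) ((n:ℝ)+1)))) :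
    ‖ff z‖ ≤ Real.exp (GG kk (r ^ (4/3 : ℝ))) := by
  have hN : 0 ≤ r ^ (4/3 : ℝ) := Real.rpow_nonneg hr _
  have hs := (GG_summable hk hN).hasSum.tendsto_sum_nat
  have h2 := (Real.continuous_exp.tendsto _).comp hs
  refine le_of_tendsto_of_tendsto' (PP_tendsto z).norm h2 fun L => ?_
  simp only [Function.comp_apply]
  unfold PP
  rw [norm_prod, Real.exp_sum]
  exact Finset.prod_le_prod (fun _ _ => norm_nonneg _) (fun n _ => h n)

lemma ff_lower {kk : ℕ → ℝ → ℝ} (hk : ∀ j < 3, ∃ L, Ker (kk j) L) {r : ℝ} (hr : 0 ≤ r) {z : ℂ}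
    (h : ∀ n : ℕ, Real.exp (kk (dir n) (xr (r ^ (4/3 : ℝ)) ((n:ℝ)+1))) ≤ ‖EE n z‖) :
    Real.exp (GG kk (r ^ (4/3 : ℝ))) ≤ ‖ff z‖ := by
  have hN : 0 ≤ r ^ (4/3 : ℝ) := Real.rpow_nonneg hr _
  have hs := (GG_summable hk hN).hasSum.tendsto_sum_nat
  have h2 := (Real.continuous_exp.tendsto _).comp hs
  refine le_of_tendsto_of_tendsto' h2 (PP_tendsto z).norm fun L => ?_
  simp only [Function.comp_apply]
  unfold PP
  rw [norm_prod, Real.exp_sum]
  exact Finset.prod_le_prod (fun _ _ => (Real.exp_pos _).le) (fun n _ => h n)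

/-- universal bound for one factor -/
lemma factor_le {c x : ℝ} (hc : |c| ≤ 1) (hx : 0 ≤ x) :
    Real.sqrt (1 - 2 * c * x + x ^ 2) * Real.exp (c * x) ≤ Real.exp (2 * mm x) := by
  have hc' := abs_le.1 hc
  have hD : 0 ≤ 1 - 2 * c * x + x ^ 2 := by
    nlinarith [sq_nonneg (x - 1), mul_nonneg (sub_nonneg.2 hc'.2) hx]
  have e : Real.sqrt (1 - 2 * c * x + x ^ 2) * Real.exp (c * x)
      = Real.sqrt ((1 - 2 * c * x + x ^ 2) * Real.exp (2 * (c * x))) := by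
    rw [Real.sqrt_mul hD, show 2 * (c * x) = c * x + c * x by ring, Real.exp_add,
      Real.sqrt_mul_self (Real.exp_nonneg _)]
  rw [e, Real.sqrt_le_left (Real.exp_nonneg _), ← Real.exp_nat_mul]
  unfold mm
  rcases le_total x (x ^ 2) with h | h
  · rw [min_eq_left h]
    have h1 : 1 - 2 * c * x + x ^ 2 ≤ Real.exp (2 * x) := by
      calc 1 - 2 * c * x + x ^ 2 ≤ (1 + x) ^ 2 := by nlinarith
        _ ≤ (Real.exp x) ^ 2 := by
          gcongr
          linarith [Real.add_one_le_exp x]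
        _ = Real.exp (2 * x) := by rw [← Real.exp_nat_mul]; norm_num
    have h2 : Real.exp (2 * (c * x)) ≤ Real.exp (2 * x) := by
      rw [Real.exp_le_exp]; nlinarith
    calc (1 - 2 * c * x + x ^ 2) * Real.exp (2 * (c * x))
        ≤ Real.exp (2 * x) * Real.exp (2 * x) := by gcongr
      _ = Real.exp ((2:ℕ) * (2 * x)) := by rw [← Real.exp_add]; congr 1; push_cast; ring
  · rw [min_eq_right h]
    have h1 : 1 - 2 * c * x + x ^ 2 ≤ Real.exp (x ^ 2 - 2 * c * x) := by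
      have := Real.add_one_le_exp (x ^ 2 - 2 * c * x)
      linarith
    calc (1 - 2 * c * x + x ^ 2) * Real.exp (2 * (c * x))
        ≤ Real.exp (x ^ 2 - 2 * c * x) * Real.exp (2 * (c * x)) := by gcongr
      _ = Real.exp (x ^ 2) := by rw [← Real.exp_add]; congr 1; ring
      _ ≤ _ := by
        rw [Real.exp_le_exp]; push_cast; nlinarith [sq_nonneg x]

lemma cj_abs (φ : ℝ) (j : ℕ) : |cj φ j| ≤ 1 := Real.abs_cos_le_one _

lemma pt_arg (z : ℂ) : z = pt ‖z‖ (Complex.arg z) := by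
  unfold pt; exact (Complex.norm_mul_exp_arg_mul_I z).symm

/-- crude growth bound -/
lemma mm_sum_bound : ∃ C : ℝ, 0 < C ∧ ∀ N : ℝ, 0 ≤ N →
    ∑' n : ℕ, mm (xr N ((n:ℝ)+1)) ≤ C * (N + 1) := by
  refine ⟨|II mm| + 10, by positivity, fun N hN => ?_⟩
  have h := disc_inf (k := mm) (L := 2) (N := N) (φ := fun _ => 1) (w := fun _ => 1) (B := 0)
    mm_ker hN (fun _ => by simp) measurable_const (fun _ => zero_le_one) (fun _ => le_rfl) le_rfl
    (fun n => by simp)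
  rcases hN.eq_or_lt with h0 | h0
  · rw [← h0]
    have : ∀ n : ℕ, mm (xr 0 ((n:ℝ)+1)) = 0 := by
      intro n; unfold xr mm; rw [zero_div, Real.zero_rpow (by norm_num)]; simp
    simp only [this, tsum_zero]
    positivity
  · have h2 := scale_int (k := mm) (φ := fun _ => 1) h0
    rw [h2] at h
    simp only [one_mul] at h
    have h3 := (abs_le.1 h).2
    have h4 : N * II mm ≤ |II mm| * N := by
      nlinarith [le_abs_self (II mm)]
    unfold II at h4
    have h5 : N ^ (3/4 : ℝ) ≤ N + 1 := by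
      rcases le_total N 1 with h | h
      · have := Real.rpow_le_one hN h (show (0:ℝ) ≤ 3/4 by norm_num)
        linarith
      · have := Real.rpow_le_rpow_of_exponent_le h (show (3/4:ℝ) ≤ 1 by norm_num)
        rw [Real.rpow_one] at this
        linarith
    have h6 : 0 ≤ |II mm| := abs_nonneg _
    unfold II at h6 ⊢
    nlinarith

theorem ff_growth : ∃ C : ℝ, ∀ z : ℂ, ‖ff z‖ ≤ C * Real.exp (C * ‖z‖ ^ (4/3 : ℝ)) := by
  obtain ⟨C, hC, hb⟩ := mm_sum_bound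
  refine ⟨max (2 * C) (Real.exp (2 * C)), fun z => ?_⟩
  have hN : 0 ≤ ‖z‖ ^ (4/3 : ℝ) := Real.rpow_nonneg (norm_nonneg _) _
  have h1 : ‖ff z‖ ≤ Real.exp (GG (fun _ x => 2 * mm x) (‖z‖ ^ (4/3 : ℝ))) := by
    apply ff_upper (fun j _ => ⟨_, mm_ker.smul 2⟩) (norm_nonneg z)
    intro n
    rw [pt_arg z, EE_norm (norm_nonneg z), ← pt_arg z]
    exact factor_le (cj_abs _ _) (xr_nonneg hN (by positivity))
  have h2 : GG (fun _ x => 2 * mm x) (‖z‖ ^ (4/3 : ℝ)) ≤ 2 * C + 2 * C * ‖z‖ ^ (4/3 : ℝ) := by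
    unfold GG
    rw [tsum_mul_left]
    have := hb _ hN
    linarith
  have h3 : (0:ℝ) ≤ Real.exp (2 * C * ‖z‖ ^ (4/3 : ℝ)) := (Real.exp_pos _).le
  calc ‖ff z‖ ≤ Real.exp (2 * C + 2 * C * ‖z‖ ^ (4/3 : ℝ)) := h1.trans (Real.exp_le_exp.2 h2)
    _ = Real.exp (2 * C) * Real.exp (2 * C * ‖z‖ ^ (4/3 : ℝ)) := Real.exp_add _ _
    _ ≤ max (2 * C) (Real.exp (2 * C)) * Real.exp (max (2 * C) (Real.exp (2 * C)) * ‖z‖ ^ (4/3 : ℝ)) := by
      apply mul_le_mul (le_max_right _ _) _ h3 (by positivity)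
      rw [Real.exp_le_exp]
      exact mul_le_mul_of_nonneg_right (le_max_left _ _) hN

end Pool.Agent.Helper26.Leo
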