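import Pool.Agent.Helper26.LeoKer

set_option autoImplicit false
open Filter MeasureTheory Set Topology

namespace Pool.Agent.Helper26.Leo

lemma sum_inv_sqrt (m : ℕ) : ∑ j ∈ Finset.range m, 1 / Real.sqrt ((j:ℝ)+1) ≤ 2 * Real.sqrt m := by
  induction m with
  | zero => simp
  | succ m ih =>
    rw [Finset.sum_range_succ]
    have h1 : 1 / Real.sqrt ((m:ℝ)+1) ≤ 2 * (Real.sqrt ((m:ℝ)+1) - Real.sqrt m) := by
      have ha : 0 < Real.sqrt ((m:ℝ)+1) := Real.sqrt_pos.2 (by positivity)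
      have hb : 0 ≤ Real.sqrt (m:ℝ) := Real.sqrt_nonneg _
      have ha2 : Real.sqrt ((m:ℝ)+1) ^ 2 = m + 1 := Real.sq_sqrt (by positivity)
      have hb2 : Real.sqrt (m:ℝ) ^ 2 = m := Real.sq_sqrt (by positivity)
      rw [div_le_iff₀ ha]
      nlinarith [sq_nonneg (Real.sqrt ((m:ℝ)+1) - Real.sqrt m)]
    push_cast
    linarith

/-- elementary comparison -/
lemma xr_dist {K n : ℕ} (hn : n ≠ K) (h1 : 1/2 < xr ((K:ℝ)+1) ((n:ℝ)+1))
    (h2 : xr ((K:ℝ)+1) ((n:ℝ)+1) < 2) :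
    n < 3 * K + 3 ∧ |(n:ℝ) - K| / (6 * ((K:ℝ)+1)) ≤ |1 - xr ((K:ℝ)+1) ((n:ℝ)+1)| := by
  have hK : (0:ℝ) ≤ K := Nat.cast_nonneg K
  have hn0 : (0:ℝ) ≤ n := Nat.cast_nonneg n
  set R : ℝ := ((K:ℝ)+1) / ((n:ℝ)+1) with hR
  have hR0 : 0 < R := by positivity
  set v : ℝ := R ^ (1/4 : ℝ) with hv
  have hv0 : 0 < v := Real.rpow_pos_of_pos hR0 _
  have hv4 : v ^ 4 = R := by
    rw [hv, ← Real.rpow_natCast, ← Real.rpow_mul hR0.le]; norm_num
  have hx : xr ((K:ℝ)+1) ((n:ℝ)+1) = v ^ 3 := by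
    unfold xr
    rw [← hR, hv, ← Real.rpow_natCast, ← Real.rpow_mul hR0.le]; norm_num
  rw [hx] at h1 h2 ⊢
  have hv1 : 1/3 < v ^ 4 := by
    by_contra hcon
    push Not at hcon
    have h3 : v ^ 12 ≤ 1/27 := by
      calc v ^ 12 = (v ^ 4) ^ 3 := by ring
        _ ≤ (1/3) ^ 3 := by gcongr
        _ = 1/27 := by norm_num
    have h4 : (1/2 : ℝ) ^ 4 ≤ v ^ 12 := by
      calc (1/2:ℝ) ^ 4 ≤ (v ^ 3) ^ 4 := by gcongr
        _ = v ^ 12 := by ring
    norm_num at h4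
    linarith
  rw [hv4, hR, lt_div_iff₀ (by positivity)] at hv1
  have hn3 : (n:ℝ) + 1 < 3 * ((K:ℝ)+1) := by linarith
  refine ⟨by exact_mod_cast (by linarith : (n:ℝ) < 3 * (K:ℝ) + 3), ?_⟩
  have h5 : |1 - v ^ 4| ≤ 2 * |1 - v ^ 3| := by
    have e1 : 1 - v ^ 4 = (1 - v) * (1 + v + v ^ 2 + v ^ 3) := by ring
    have e2 : 1 - v ^ 3 = (1 - v) * (1 + v + v ^ 2) := by ring
    rw [e1, e2, abs_mul, abs_mul, abs_of_pos (show 0 < 1 + v + v ^ 2 + v ^ 3 by positivity),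
      abs_of_pos (show 0 < 1 + v + v ^ 2 by positivity)]
    have h6 : v ^ 3 ≤ 1 + v + v ^ 2 := by
      rcases le_total v 1 with h | h
      · have : v ^ 3 ≤ 1 := pow_le_one₀ hv0.le h
        nlinarith [sq_nonneg v]
      · nlinarith
    nlinarith [abs_nonneg (1 - v)]
  have h7 : |1 - v ^ 4| = |(n:ℝ) - K| / ((n:ℝ)+1) := by
    rw [hv4, hR]
    have : 1 - ((K:ℝ)+1) / ((n:ℝ)+1) = ((n:ℝ) - K) / ((n:ℝ)+1) := by
      field_simp; ring
    rw [this, abs_div, abs_of_pos (show (0:ℝ) < (n:ℝ)+1 by positivity)]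
  rw [h7] at h5
  have h8 : |(n:ℝ) - K| / (3 * ((K:ℝ)+1)) ≤ |(n:ℝ) - K| / ((n:ℝ)+1) :=
    div_le_div_of_nonneg_left (abs_nonneg _) (by positivity) hn3.le
  have h9 : |(n:ℝ) - K| / (6 * ((K:ℝ)+1)) = |(n:ℝ) - K| / (3 * ((K:ℝ)+1)) / 2 := by
    rw [div_div]; congr 1; ring
  rw [h9]
  linarith

lemma sg_le {K n : ℕ} (hn : n ≠ K) :
    sg (xr ((K:ℝ)+1) ((n:ℝ)+1)) ≤ if n < 3 * K + 3 then
      Real.sqrt (6 * ((K:ℝ)+1)) * (1 / Real.sqrt |(n:ℝ) - K|) else 0 := by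
  by_cases hc : 1/2 < xr ((K:ℝ)+1) ((n:ℝ)+1) ∧ xr ((K:ℝ)+1) ((n:ℝ)+1) < 2
  · obtain ⟨h1, h2⟩ := xr_dist hn hc.1 hc.2
    rw [if_pos h1]
    unfold sg
    rw [if_pos hc]
    have habs : 0 < |(n:ℝ) - K| := by
      apply abs_pos.2; rw [sub_ne_zero]; exact_mod_cast hn
    have hK : (0:ℝ) ≤ K := Nat.cast_nonneg K
    have h3 : 0 < |(n:ℝ) - K| / (6 * ((K:ℝ)+1)) := by positivity
    have h4 := Real.rpow_le_rpow_of_nonpos h3 h2 (show (-(1/2):ℝ) ≤ 0 by norm_num)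
    refine h4.trans (le_of_eq ?_)
    rw [Real.rpow_neg h3.le, ← Real.sqrt_eq_rpow, Real.sqrt_div habs.le, inv_div]
    ring
  · have : sg (xr ((K:ℝ)+1) ((n:ℝ)+1)) = 0 := by unfold sg; rw [if_neg hc]
    rw [this]
    split_ifs
    · positivity
    · exact le_rfl

lemma sg_sum (K M : ℕ) :
    ∑ n ∈ Finset.range M, (if n = K then 0 else sg (xr ((K:ℝ)+1) ((n:ℝ)+1)))
      ≤ 14 * ((K:ℝ)+1) := by
  have hK : (0:ℝ) ≤ K := Nat.cast_nonneg K
  set T : ℕ → ℝ := fun n => if n = K then 0 else if n < 3 * K + 3 then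
      Real.sqrt (6 * ((K:ℝ)+1)) * (1 / Real.sqrt |(n:ℝ) - K|) else 0 with hT
  have hT0 : ∀ n, 0 ≤ T n := by
    intro n; rw [hT]; dsimp only
    split_ifs <;> positivity
  have h1 : ∑ n ∈ Finset.range M, (if n = K then 0 else sg (xr ((K:ℝ)+1) ((n:ℝ)+1)))
      ≤ ∑ n ∈ Finset.range M, T n := by
    apply Finset.sum_le_sum
    intro n _
    rw [hT]; dsimp only
    by_cases hn : n = K
    · rw [if_pos hn, if_pos hn]
    · rw [if_neg hn, if_neg hn]; exact sg_le hn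
  have h2 : ∑ n ∈ Finset.range M, T n ≤ ∑ n ∈ Finset.range (K + 1 + (2 * K + 2)), T n := by
    rw [← Finset.sum_filter_add_sum_filter_not (Finset.range M) (fun n => n < 3 * K + 3)]
    have h3 : ∑ n ∈ Finset.range M with ¬ n < 3 * K + 3, T n = 0 := by
      apply Finset.sum_eq_zero
      intro n hn
      rw [Finset.mem_filter] at hn
      rw [hT]; dsimp only
      rw [if_neg (by omega : ¬ n = K), if_neg hn.2]
    rw [h3, add_zero]
    apply Finset.sum_le_sum_of_subset_of_nonneg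
    · intro n hn
      rw [Finset.mem_filter] at hn
      rw [Finset.mem_range]; omega
    · intro n _ _; exact hT0 n
  have h3 : ∑ n ∈ Finset.range (K + 1 + (2 * K + 2)), T n
      ≤ Real.sqrt (6 * ((K:ℝ)+1)) * (2 * Real.sqrt K)
        + Real.sqrt (6 * ((K:ℝ)+1)) * (2 * Real.sqrt ((2 * K + 2 : ℕ) : ℝ)) := by
    rw [Finset.sum_range_add, Finset.sum_range_succ]
    have hTK : T K = 0 := by rw [hT]; dsimp only; rw [if_pos rfl]
    rw [hTK, add_zero]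
    apply add_le_add
    · refine le_trans ?_ (mul_le_mul_of_nonneg_left (sum_inv_sqrt K) (Real.sqrt_nonneg _))
      rw [Finset.mul_sum, ← Finset.sum_range_reflect]
      apply Finset.sum_le_sum
      intro n hn
      rw [Finset.mem_range] at hn
      rw [hT]; dsimp only
      rw [if_neg (by omega), if_pos (by omega)]
      apply le_of_eq
      congr 3
      have : ((K - 1 - n : ℕ) : ℝ) = (K:ℝ) - 1 - n := by
        rw [Nat.cast_sub (by omega), Nat.cast_sub (by omega)]; norm_num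
      rw [this]
      have hn' : (n:ℝ) + 1 ≤ K := by exact_mod_cast hn
      rw [show (K:ℝ) - 1 - n - K = -((n:ℝ)+1) by ring, abs_neg, abs_of_nonneg (by positivity)]
    · refine le_trans ?_ (mul_le_mul_of_nonneg_left (sum_inv_sqrt (2*K+2)) (Real.sqrt_nonneg _))
      rw [Finset.mul_sum]
      apply Finset.sum_le_sum
      intro n hn
      rw [Finset.mem_range] at hn
      rw [hT]; dsimp only
      rw [if_neg (by omega), if_pos (by omega)]
      apply le_of_eq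
      congr 3
      push_cast
      rw [show (K:ℝ) + 1 + n - K = ((n:ℝ)+1) by ring, abs_of_nonneg (by positivity)]
  refine (h1.trans h2).trans (h3.trans ?_)
  have h4 : Real.sqrt (6 * ((K:ℝ)+1)) = Real.sqrt 6 * Real.sqrt ((K:ℝ)+1) :=
    Real.sqrt_mul (by norm_num) _
  have h5 : Real.sqrt (K:ℝ) ≤ Real.sqrt ((K:ℝ)+1) := Real.sqrt_le_sqrt (by linarith)
  have h6 : Real.sqrt ((2 * K + 2 : ℕ) : ℝ) = Real.sqrt 2 * Real.sqrt ((K:ℝ)+1) := by
    rw [← Real.sqrt_mul (by norm_num)]; congr 1; push_cast; ring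
  rw [h4, h6]
  have h7 : Real.sqrt ((K:ℝ)+1) * Real.sqrt ((K:ℝ)+1) = K + 1 :=
    Real.mul_self_sqrt (by positivity)
  have h8 : Real.sqrt 6 ≤ 5/2 := by
    rw [Real.sqrt_le_left (by norm_num)]; norm_num
  have h9 : Real.sqrt 2 ≤ 3/2 := by
    rw [Real.sqrt_le_left (by norm_num)]; norm_num
  set a := Real.sqrt ((K:ℝ)+1) with ha
  have ha0 : 0 ≤ a := Real.sqrt_nonneg _
  set b := Real.sqrt (K:ℝ)
  have hb0 : 0 ≤ b := Real.sqrt_nonneg _
  have h60 : 0 ≤ Real.sqrt 6 := Real.sqrt_nonneg _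
  have h20 : 0 ≤ Real.sqrt 2 := Real.sqrt_nonneg _
  have e1 : Real.sqrt 6 * a * (2 * b) ≤ 5/2 * a * (2 * a) := by gcongr
  have e2 : Real.sqrt 6 * a * (2 * (Real.sqrt 2 * a)) ≤ 5/2 * a * (2 * (3/2 * a)) := by gcongr
  nlinarith

end Pool.Agent.Helper26.Leo
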