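import Mathlib

set_option autoImplicit false
open Filter MeasureTheory Set Topology

namespace Pool.Agent.Helper26.Leo

/-- the class of kernels: Lipschitz on `[0,∞)` and quadratically small at `0`. -/
structure Ker (k : ℝ → ℝ) (L : ℝ) : Prop where
  nonneg : 0 ≤ L
  lip : ∀ x y : ℝ, 0 ≤ x → 0 ≤ y → |k x - k y| ≤ L * |x - y|
  quad : ∀ x : ℝ, 0 ≤ x → |k x| ≤ L * x ^ 2

/-- `x_N(u) = (N/u)^{3/4}` -/
noncomputable def xr (N u : ℝ) : ℝ := (N / u) ^ (3 / 4 : ℝ)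

lemma xr_nonneg {N u : ℝ} (hN : 0 ≤ N) (hu : 0 ≤ u) : 0 ≤ xr N u :=
  Real.rpow_nonneg (div_nonneg hN hu) _

lemma xr_anti {N u v : ℝ} (hN : 0 ≤ N) (hu : 0 < u) (huv : u ≤ v) : xr N v ≤ xr N u := by
  unfold xr
  apply Real.rpow_le_rpow (div_nonneg hN (hu.le.trans huv)) _ (by norm_num)
  exact div_le_div_of_nonneg_left hN hu huv

lemma xr_eq {N u : ℝ} (hN : 0 ≤ N) (hu : 0 ≤ u) : xr N u = N ^ (3 / 4 : ℝ) * u ^ (-(3 / 4) : ℝ) := by
  unfold xr
  rw [Real.div_rpow hN hu, Real.rpow_neg hu]; rfl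

namespace Ker
variable {k : ℝ → ℝ} {L : ℝ}

lemma zero (h : Ker k L) : k 0 = 0 := by
  have := h.quad 0 le_rfl
  simpa using this

lemma lin (h : Ker k L) {x : ℝ} (hx : 0 ≤ x) : |k x| ≤ L * x := by
  have := h.lip x 0 hx le_rfl
  rwa [h.zero, sub_zero, sub_zero, abs_of_nonneg hx] at this

lemma continuousOn (h : Ker k L) : ContinuousOn k (Ici 0) := by
  have : LipschitzOnWith ⟨L, h.nonneg⟩ k (Ici 0) := by
    apply LipschitzOnWith.of_dist_le_mul
    intro x hx y hy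
    rw [Real.dist_eq, Real.dist_eq]
    exact h.lip x y hx hy
  exact this.continuousOn

lemma add {k' : ℝ → ℝ} {L' : ℝ} (h : Ker k L) (h' : Ker k' L') :
    Ker (fun x => k x + k' x) (L + L') where
  nonneg := add_nonneg h.nonneg h'.nonneg
  lip x y hx hy := by
    have h1 := h.lip x y hx hy
    have h2 := h'.lip x y hx hy
    calc |k x + k' x - (k y + k' y)| = |(k x - k y) + (k' x - k' y)| := by ring_nf
      _ ≤ |k x - k y| + |k' x - k' y| := abs_add_le _ _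
      _ ≤ _ := by nlinarith
  quad x hx := by
    have h1 := h.quad x hx
    have h2 := h'.quad x hx
    calc |k x + k' x| ≤ |k x| + |k' x| := abs_add_le _ _
      _ ≤ _ := by nlinarith

lemma smul (h : Ker k L) (c : ℝ) : Ker (fun x => c * k x) (|c| * L) where
  nonneg := mul_nonneg (abs_nonneg _) h.nonneg
  lip x y hx hy := by
    have h1 := h.lip x y hx hy
    rw [← mul_sub, abs_mul, mul_assoc]
    exact mul_le_mul_of_nonneg_left h1 (abs_nonneg _)
  quad x hx := by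
    have h1 := h.quad x hx
    rw [abs_mul, mul_assoc]
    exact mul_le_mul_of_nonneg_left h1 (abs_nonneg _)

end Ker

/-- integral functional of a kernel -/
noncomputable def II (k : ℝ → ℝ) : ℝ := ∫ y in Ioi (0:ℝ), k (xr 1 y)

lemma xr_measurable (N : ℝ) : Measurable (xr N) := by
  unfold xr
  exact (measurable_const.div measurable_id).pow_const _

lemma measurable_ker {k : ℝ → ℝ} {L : ℝ} (h : Ker k L) {N : ℝ} (hN : 0 ≤ N) :
    AEStronglyMeasurable (fun u => k (xr N u)) (volume.restrict (Ioi (0:ℝ))) := by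
  have hc : ContinuousOn (fun u => k (xr N u)) (Ioi 0) := by
    apply h.continuousOn.comp
    · intro u hu
      have hu : (0:ℝ) < u := hu
      have : ContinuousAt (fun u => N / u) u := continuousAt_const.div continuousAt_id hu.ne'
      exact (this.rpow_const (Or.inr (by norm_num))).continuousWithinAt
    · intro u hu
      exact xr_nonneg hN (le_of_lt hu)
  exact hc.aestronglyMeasurable measurableSet_Ioi

lemma integrableOn_rpow_Ioc {s : ℝ} (hs : -1 < s) : IntegrableOn (fun u : ℝ => u ^ s) (Ioc 0 1) := by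
  have := intervalIntegral.intervalIntegrable_rpow' (a := 0) (b := 1) hs
  rwa [intervalIntegrable_iff_integrableOn_Ioc_of_le zero_le_one] at this

lemma ker_integrable {k : ℝ → ℝ} {L : ℝ} (h : Ker k L) {N : ℝ} (hN : 0 ≤ N) :
    IntegrableOn (fun u => k (xr N u)) (Ioi (0:ℝ)) := by
  rw [← Ioc_union_Ioi_eq_Ioi (zero_le_one (α := ℝ))]
  apply IntegrableOn.union
  · have h1 : IntegrableOn (fun u : ℝ => (L * N ^ (3/4:ℝ)) * u ^ (-(3/4):ℝ)) (Ioc 0 1) :=
      (integrableOn_rpow_Ioc (by norm_num)).const_mul _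
    apply Integrable.mono' h1
    · exact (measurable_ker h hN).mono_measure (Measure.restrict_mono Ioc_subset_Ioi_self le_rfl)
    · rw [ae_restrict_iff' measurableSet_Ioc]
      filter_upwards with u hu
      have := h.lin (xr_nonneg hN hu.1.le)
      rw [xr_eq hN hu.1.le, ← mul_assoc] at this
      rw [Real.norm_eq_abs, xr_eq hN hu.1.le]
      exact this
  · have h1 : IntegrableOn (fun u : ℝ => (L * N ^ (3/2:ℝ)) * u ^ (-(3/2):ℝ)) (Ioi 1) :=
      (integrableOn_Ioi_rpow_of_lt (by norm_num) zero_lt_one).const_mul _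
    apply Integrable.mono' h1
    · exact (measurable_ker h hN).mono_measure
        (Measure.restrict_mono (Ioi_subset_Ioi zero_le_one) le_rfl)
    · rw [ae_restrict_iff' measurableSet_Ioi]
      filter_upwards with u hu
      have hu0 : (0:ℝ) ≤ u := (zero_lt_one.trans hu).le
      have := h.quad _ (xr_nonneg hN hu0)
      rw [Real.norm_eq_abs]
      refine this.trans (le_of_eq ?_)
      rw [xr_eq hN hu0, mul_pow, ← Real.rpow_natCast, ← Real.rpow_natCast, ← Real.rpow_mul hN,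
        ← Real.rpow_mul hu0]
      norm_num
      ring

lemma intervalIntegrable_phi {φ : ℝ → ℝ} (hφm : Measurable φ) (hφ0 : ∀ u, 0 ≤ φ u)
    (hφ1 : ∀ u, φ u ≤ 1) (a b : ℝ) : IntervalIntegrable φ volume a b := by
  rw [intervalIntegrable_iff]
  apply Measure.integrableOn_of_bounded (M := 1)
  · simp [uIoc]
  · exact hφm.aestronglyMeasurable
  · filter_upwards with u
    rw [Real.norm_eq_abs, abs_of_nonneg (hφ0 u)]
    exact hφ1 u

lemma phi_ker_integrable {k : ℝ → ℝ} {L : ℝ} (h : Ker k L) {N : ℝ} (hN : 0 ≤ N)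
    {φ : ℝ → ℝ} (hφm : Measurable φ) (hφ0 : ∀ u, 0 ≤ φ u) (hφ1 : ∀ u, φ u ≤ 1) :
    IntegrableOn (fun u => φ u * k (xr N u)) (Ioi (0:ℝ)) := by
  have := ker_integrable h hN
  apply this.norm.mono'
  · exact hφm.aestronglyMeasurable.mul (measurable_ker h hN)
  · filter_upwards with u
    rw [norm_mul, Real.norm_eq_abs (φ u), abs_of_nonneg (hφ0 u)]
    exact mul_le_of_le_one_left (norm_nonneg _) (hφ1 u)

lemma phi_ker_ii {k : ℝ → ℝ} {L : ℝ} (h : Ker k L) {N : ℝ} (hN : 0 ≤ N)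
    {φ : ℝ → ℝ} (hφm : Measurable φ) (hφ0 : ∀ u, 0 ≤ φ u) (hφ1 : ∀ u, φ u ≤ 1)
    {a b : ℝ} (ha : 0 ≤ a) (hb : 0 ≤ b) :
    IntervalIntegrable (fun u => φ u * k (xr N u)) volume a b := by
  rw [intervalIntegrable_iff]
  apply (phi_ker_integrable h hN hφm hφ0 hφ1).mono_set
  intro u hu
  rw [uIoc, mem_Ioc] at hu
  exact lt_of_le_of_lt (le_min ha hb) hu.1

section disc
variable {k : ℝ → ℝ} {L : ℝ} {N : ℝ} {φ : ℝ → ℝ} {w : ℕ → ℝ} {B : ℝ}

lemma step_bound (h : Ker k L) (hN : 0 ≤ N) {n : ℕ} :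
    |k (xr N ((n:ℝ) + 2)) - k (xr N ((n:ℝ) + 1))| ≤ L * (xr N ((n:ℝ)+1) - xr N ((n:ℝ)+2)) := by
  have h1 := h.lip (xr N ((n:ℝ) + 2)) (xr N ((n:ℝ) + 1)) (xr_nonneg hN (by positivity))
    (xr_nonneg hN (by positivity))
  have h2 : xr N ((n:ℝ) + 2) ≤ xr N ((n:ℝ) + 1) := xr_anti hN (by positivity) (by linarith)
  rwa [abs_sub_comm (xr N ((n:ℝ) + 2)), abs_of_nonneg (sub_nonneg.2 h2)] at h1

lemma partA (h : Ker k L) (hN : 0 ≤ N) (b : ℕ → ℝ) (hB : 0 ≤ B)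
    (hD : ∀ n : ℕ, |∑ i ∈ Finset.range n, (w i - b i)| ≤ B) (M : ℕ) :
    |∑ n ∈ Finset.range (M+1), (w n - b n) * k (xr N ((n:ℝ)+1))
      - (∑ i ∈ Finset.range (M+1), (w i - b i)) * k (xr N ((M:ℝ)+1))|
      ≤ B * (L * (xr N 1 - xr N ((M:ℝ)+1))) := by
  induction M with
  | zero => simp
  | succ M ih =>
    rw [Finset.sum_range_succ (n := M+1), Finset.sum_range_succ (n := M+1)]
    set S := ∑ n ∈ Finset.range (M+1), (w n - b n) * k (xr N ((n:ℝ)+1))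
    set D := ∑ i ∈ Finset.range (M+1), (w i - b i) with hDdef
    have hDB : |D| ≤ B := hD (M+1)
    have hst := step_bound h hN (n := M)
    have e1 : (((M+1 : ℕ) : ℝ) + 1) = (M:ℝ) + 2 := by push_cast; ring
    rw [e1]
    have e2 : S + (w (M + 1) - b (M + 1)) * k (xr N ((M:ℝ) + 2))
        - (D + (w (M + 1) - b (M + 1))) * k (xr N ((M:ℝ) + 2))
        = (S - D * k (xr N ((M:ℝ)+1))) - D * (k (xr N ((M:ℝ) + 2)) - k (xr N ((M:ℝ) + 1))) := by
      ring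
    rw [e2]
    have h3 : |D * (k (xr N ((M:ℝ) + 2)) - k (xr N ((M:ℝ) + 1)))|
        ≤ B * (L * (xr N ((M:ℝ)+1) - xr N ((M:ℝ)+2))) := by
      rw [abs_mul]
      exact mul_le_mul hDB hst (abs_nonneg _) hB
    calc _ ≤ |S - D * k (xr N ((M:ℝ)+1))|
          + |D * (k (xr N ((M:ℝ) + 2)) - k (xr N ((M:ℝ) + 1)))| := abs_sub _ _
      _ ≤ B * (L * (xr N 1 - xr N ((M:ℝ)+1))) + B * (L * (xr N ((M:ℝ)+1) - xr N ((M:ℝ)+2))) :=
          add_le_add ih h3
      _ = _ := by ring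

lemma xr_integral (hN : 0 ≤ N) : ∫ u in (0:ℝ)..1, xr N u = 4 * N ^ (3/4:ℝ) := by
  have : ∫ u in (0:ℝ)..1, xr N u = ∫ u in (0:ℝ)..1, N ^ (3 / 4 : ℝ) * u ^ (-(3 / 4) : ℝ) := by
    apply intervalIntegral.integral_congr
    intro u hu
    rw [uIcc_of_le zero_le_one] at hu
    exact xr_eq hN hu.1
  rw [this, intervalIntegral.integral_const_mul, integral_rpow (Or.inl (by norm_num))]
  norm_num
  ring

lemma partB0 (h : Ker k L) (hN : 0 ≤ N)
    (hφm : Measurable φ) (hφ0 : ∀ u, 0 ≤ φ u) (hφ1 : ∀ u, φ u ≤ 1) :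
    |(∫ u in (0:ℝ)..1, φ u) * k (xr N 1) - ∫ u in (0:ℝ)..1, φ u * k (xr N u)|
      ≤ L * (4 * N ^ (3/4:ℝ)) := by
  rw [← intervalIntegral.integral_mul_const, ← intervalIntegral.integral_sub]
  · rw [← xr_integral hN, ← intervalIntegral.integral_const_mul, ← Real.norm_eq_abs]
    apply intervalIntegral.norm_integral_le_of_norm_le zero_le_one
    · filter_upwards with u hu
      rw [← mul_sub, Real.norm_eq_abs, abs_mul, abs_of_nonneg (hφ0 u)]
      have h1 := h.lip (xr N 1) (xr N u) (xr_nonneg hN zero_le_one) (xr_nonneg hN hu.1.le)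
      have h2 : xr N 1 ≤ xr N u := xr_anti hN hu.1 hu.2
      rw [abs_sub_comm (xr N 1), abs_of_nonneg (sub_nonneg.2 h2)] at h1
      have h3 := xr_nonneg hN (zero_le_one (α := ℝ))
      have h4 := h.nonneg
      calc φ u * |k (xr N 1) - k (xr N u)| ≤ 1 * |k (xr N 1) - k (xr N u)| :=
            mul_le_mul_of_nonneg_right (hφ1 u) (abs_nonneg _)
        _ ≤ L * (xr N u - xr N 1) := by rw [one_mul]; exact h1
        _ ≤ L * xr N u := by nlinarith
    · apply IntervalIntegrable.const_mul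
      have : IntervalIntegrable (fun u => N ^ (3 / 4 : ℝ) * u ^ (-(3 / 4) : ℝ)) volume 0 1 :=
        (intervalIntegral.intervalIntegrable_rpow' (by norm_num)).const_mul _
      apply this.congr
      intro u hu
      rw [uIoc_of_le zero_le_one] at hu
      exact (xr_eq hN hu.1.le).symm
  · exact (intervalIntegrable_phi hφm hφ0 hφ1 _ _).mul_const _
  · exact phi_ker_ii h hN hφm hφ0 hφ1 le_rfl zero_le_one

lemma partBn (h : Ker k L) (hN : 0 ≤ N)
    (hφm : Measurable φ) (hφ0 : ∀ u, 0 ≤ φ u) (hφ1 : ∀ u, φ u ≤ 1) (n : ℕ) :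
    |(∫ u in ((n:ℝ)+1)..((n:ℝ)+2), φ u) * k (xr N ((n:ℝ)+2))
        - ∫ u in ((n:ℝ)+1)..((n:ℝ)+2), φ u * k (xr N u)|
      ≤ L * (xr N ((n:ℝ)+1) - xr N ((n:ℝ)+2)) := by
  have hn : (0:ℝ) ≤ n := Nat.cast_nonneg n
  rw [← intervalIntegral.integral_mul_const, ← intervalIntegral.integral_sub]
  · rw [← Real.norm_eq_abs]
    have := intervalIntegral.norm_integral_le_of_norm_le_const
      (a := (n:ℝ)+1) (b := (n:ℝ)+2) (C := L * (xr N ((n:ℝ)+1) - xr N ((n:ℝ)+2)))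
      (f := fun x => φ x * k (xr N ((n:ℝ)+2)) - φ x * k (xr N x)) ?_
    · refine this.trans (le_of_eq ?_)
      rw [show ((n:ℝ)+2 - ((n:ℝ)+1)) = 1 by ring, abs_one, mul_one]
    · intro u hu
      rw [uIoc_of_le (by linarith)] at hu
      have hu0 : 0 < u := by linarith [hu.1]
      rw [← mul_sub, Real.norm_eq_abs, abs_mul, abs_of_nonneg (hφ0 u)]
      have h1 := h.lip (xr N ((n:ℝ)+2)) (xr N u) (xr_nonneg hN (by positivity))
        (xr_nonneg hN hu0.le)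
      have h2 : xr N ((n:ℝ)+2) ≤ xr N u := xr_anti hN hu0 hu.2
      have h2' : xr N u ≤ xr N ((n:ℝ)+1) := xr_anti hN (by positivity) hu.1.le
      rw [abs_sub_comm (xr N _) (xr N u), abs_of_nonneg (sub_nonneg.2 h2)] at h1
      have h4 := h.nonneg
      calc φ u * |k (xr N ((n:ℝ)+2)) - k (xr N u)| ≤ 1 * |k (xr N ((n:ℝ)+2)) - k (xr N u)| :=
            mul_le_mul_of_nonneg_right (hφ1 u) (abs_nonneg _)
        _ ≤ L * (xr N u - xr N ((n:ℝ)+2)) := by rw [one_mul]; exact h1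
        _ ≤ L * (xr N ((n:ℝ)+1) - xr N ((n:ℝ)+2)) := by
          apply mul_le_mul_of_nonneg_left _ h4; linarith
  · exact (intervalIntegrable_phi hφm hφ0 hφ1 _ _).mul_const _
  · exact phi_ker_ii h hN hφm hφ0 hφ1 (by positivity) (by positivity)

lemma partB (h : Ker k L) (hN : 0 ≤ N)
    (hφm : Measurable φ) (hφ0 : ∀ u, 0 ≤ φ u) (hφ1 : ∀ u, φ u ≤ 1) (M : ℕ) :
    |∑ n ∈ Finset.range (M+1), (∫ u in (n:ℝ)..((n:ℝ)+1), φ u) * k (xr N ((n:ℝ)+1))
      - ∫ u in (0:ℝ)..((M:ℝ)+1), φ u * k (xr N u)|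
      ≤ L * (4 * N ^ (3/4:ℝ)) + L * (xr N 1 - xr N ((M:ℝ)+1)) := by
  induction M with
  | zero =>
    simp only [zero_add, Finset.range_one, Finset.sum_singleton, Nat.cast_zero, sub_self, mul_zero,
      add_zero]
    exact partB0 h hN hφm hφ0 hφ1
  | succ M ih =>
    have hM : (0:ℝ) ≤ M := Nat.cast_nonneg M
    rw [Finset.sum_range_succ (n := M+1)]
    have e1 : (((M+1 : ℕ) : ℝ)) = (M:ℝ) + 1 := by push_cast; ring
    rw [e1, show (M:ℝ) + 1 + 1 = (M:ℝ) + 2 by ring]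
    rw [← intervalIntegral.integral_add_adjacent_intervals
      (phi_ker_ii h hN hφm hφ0 hφ1 le_rfl (by positivity : (0:ℝ) ≤ (M:ℝ)+1))
      (phi_ker_ii h hN hφm hφ0 hφ1 (by positivity) (by positivity : (0:ℝ) ≤ (M:ℝ)+2))]
    have h2 := partBn h hN hφm hφ0 hφ1 M
    calc _ = |(∑ n ∈ Finset.range (M+1), (∫ u in (n:ℝ)..((n:ℝ)+1), φ u) * k (xr N ((n:ℝ)+1))
            - ∫ u in (0:ℝ)..((M:ℝ)+1), φ u * k (xr N u))
          + ((∫ u in ((M:ℝ)+1)..((M:ℝ)+2), φ u) * k (xr N ((M:ℝ)+2))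
        - ∫ u in ((M:ℝ)+1)..((M:ℝ)+2), φ u * k (xr N u))| := by congr 1; ring
      _ ≤ _ := abs_add_le _ _
      _ ≤ (L * (4 * N ^ (3/4:ℝ)) + L * (xr N 1 - xr N ((M:ℝ)+1)))
          + L * (xr N ((M:ℝ)+1) - xr N ((M:ℝ)+2)) := add_le_add ih h2
      _ = _ := by ring

lemma sum_phi (hφm : Measurable φ) (hφ0 : ∀ u, 0 ≤ φ u) (hφ1 : ∀ u, φ u ≤ 1) (n : ℕ) :
    ∑ i ∈ Finset.range n, (∫ u in (i:ℝ)..((i:ℝ)+1), φ u) = ∫ u in (0:ℝ)..(n:ℝ), φ u := by
  induction n with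
  | zero => simp
  | succ n ih =>
    rw [Finset.sum_range_succ, ih, intervalIntegral.integral_add_adjacent_intervals
      (intervalIntegrable_phi hφm hφ0 hφ1 _ _) (intervalIntegrable_phi hφm hφ0 hφ1 _ _)]
    push_cast; rfl

/-- discretization, finite version -/
lemma disc_fin (h : Ker k L) (hN : 0 ≤ N)
    (hφm : Measurable φ) (hφ0 : ∀ u, 0 ≤ φ u) (hφ1 : ∀ u, φ u ≤ 1) (hB : 0 ≤ B)
    (hD : ∀ n : ℕ, |∑ i ∈ Finset.range n, w i - ∫ u in (0:ℝ)..(n:ℝ), φ u| ≤ B) (M : ℕ) :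
    |∑ n ∈ Finset.range (M+1), w n * k (xr N ((n:ℝ)+1))
      - ∫ u in (0:ℝ)..((M:ℝ)+1), φ u * k (xr N u)|
      ≤ (2 * B + 5) * L * N ^ (3/4:ℝ) := by
  have hM : (0:ℝ) ≤ M := Nat.cast_nonneg M
  set b : ℕ → ℝ := fun n => ∫ u in (n:ℝ)..((n:ℝ)+1), φ u with hb
  have hD' : ∀ n : ℕ, |∑ i ∈ Finset.range n, (w i - b i)| ≤ B := by
    intro n
    rw [Finset.sum_sub_distrib, sum_phi hφm hφ0 hφ1]
    exact hD n
  have hA := partA h hN b hB hD' M
  have hBB := partB h hN hφm hφ0 hφ1 M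
  have hx1 : xr N 1 = N ^ (3/4:ℝ) := by unfold xr; rw [div_one]
  have hxM : 0 ≤ xr N ((M:ℝ)+1) := xr_nonneg hN (by positivity)
  have hxM1 : xr N ((M:ℝ)+1) ≤ xr N 1 := xr_anti hN one_pos (by linarith)
  have hL := h.nonneg
  have hC : |(∑ i ∈ Finset.range (M+1), (w i - b i)) * k (xr N ((M:ℝ)+1))|
      ≤ B * (L * xr N ((M:ℝ)+1)) := by
    rw [abs_mul]
    exact mul_le_mul (hD' _) (h.lin hxM) (abs_nonneg _) hB
  have e : ∑ n ∈ Finset.range (M+1), w n * k (xr N ((n:ℝ)+1))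
      - ∫ u in (0:ℝ)..((M:ℝ)+1), φ u * k (xr N u)
      = (∑ n ∈ Finset.range (M+1), (w n - b n) * k (xr N ((n:ℝ)+1))
        - (∑ i ∈ Finset.range (M+1), (w i - b i)) * k (xr N ((M:ℝ)+1)))
      + (∑ i ∈ Finset.range (M+1), (w i - b i)) * k (xr N ((M:ℝ)+1))
      + (∑ n ∈ Finset.range (M+1), b n * k (xr N ((n:ℝ)+1))
        - ∫ u in (0:ℝ)..((M:ℝ)+1), φ u * k (xr N u)) := by
    have : ∑ n ∈ Finset.range (M+1), (w n - b n) * k (xr N ((n:ℝ)+1))
        = ∑ n ∈ Finset.range (M+1), w n * k (xr N ((n:ℝ)+1))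
          - ∑ n ∈ Finset.range (M+1), b n * k (xr N ((n:ℝ)+1)) := by
      rw [← Finset.sum_sub_distrib]
      exact Finset.sum_congr rfl fun _ _ => by ring
    rw [this]; ring
  rw [e]
  refine (abs_add_three _ _ _).trans ?_
  refine (add_le_add (add_le_add hA hC) hBB).trans ?_
  rw [hx1] at *
  have hLx : L * xr N ((M:ℝ)+1) ≤ L * N ^ (3/4:ℝ) := mul_le_mul_of_nonneg_left hxM1 hL
  have hLx0 : 0 ≤ L * xr N ((M:ℝ)+1) := mul_nonneg hL hxM
  have hLN : 0 ≤ L * N ^ (3/4:ℝ) := hLx0.trans hLx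
  nlinarith [mul_nonneg hB hLx0, mul_nonneg hB hLN]

lemma summable_x2 {N : ℝ} (hN : 0 ≤ N) : Summable (fun n : ℕ => (xr N ((n:ℝ)+1)) ^ 2) := by
  have h1 : Summable (fun n : ℕ => 1 / ((n:ℝ)+1) ^ (3/2 : ℝ)) := by
    have := (summable_nat_add_iff 1).2 (Real.summable_one_div_nat_rpow (p := 3/2) |>.2 (by norm_num))
    simpa using this
  have h2 := h1.mul_left (N ^ (3/2:ℝ))
  refine h2.congr fun n => ?_
  have hn : (0:ℝ) ≤ (n:ℝ) + 1 := by positivity
  rw [xr_eq hN hn, mul_pow, ← Real.rpow_natCast, ← Real.rpow_natCast, ← Real.rpow_mul hN,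
    ← Real.rpow_mul hn, one_div, ← Real.rpow_neg hn]
  norm_num

lemma summable_wk (h : Ker k L) (hN : 0 ≤ N) (hw : ∀ n, |w n| ≤ 1) :
    Summable (fun n : ℕ => w n * k (xr N ((n:ℝ)+1))) := by
  apply Summable.of_norm_bounded ((summable_x2 hN).mul_left L)
  intro n
  rw [norm_mul, Real.norm_eq_abs, Real.norm_eq_abs]
  calc |w n| * |k (xr N ((n:ℝ)+1))| ≤ 1 * |k (xr N ((n:ℝ)+1))| :=
        mul_le_mul_of_nonneg_right (hw n) (abs_nonneg _)
    _ ≤ _ := by rw [one_mul]; exact h.quad _ (xr_nonneg hN (by positivity))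

lemma disc_inf (h : Ker k L) (hN : 0 ≤ N) (hw : ∀ n, |w n| ≤ 1)
    (hφm : Measurable φ) (hφ0 : ∀ u, 0 ≤ φ u) (hφ1 : ∀ u, φ u ≤ 1) (hB : 0 ≤ B)
    (hD : ∀ n : ℕ, |∑ i ∈ Finset.range n, w i - ∫ u in (0:ℝ)..(n:ℝ), φ u| ≤ B) :
    |∑' n : ℕ, w n * k (xr N ((n:ℝ)+1)) - ∫ u in Ioi (0:ℝ), φ u * k (xr N u)|
      ≤ (2 * B + 5) * L * N ^ (3/4:ℝ) := by
  have h1 : Tendsto (fun M : ℕ => ∑ n ∈ Finset.range (M+1), w n * k (xr N ((n:ℝ)+1))) atTop
      (𝓝 (∑' n : ℕ, w n * k (xr N ((n:ℝ)+1)))) :=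
    ((summable_wk h hN hw).hasSum.tendsto_sum_nat).comp (tendsto_add_atTop_nat 1)
  have h2 : Tendsto (fun M : ℕ => ∫ u in (0:ℝ)..((M:ℝ)+1), φ u * k (xr N u)) atTop
      (𝓝 (∫ u in Ioi (0:ℝ), φ u * k (xr N u))) := by
    apply intervalIntegral_tendsto_integral_Ioi 0 (phi_ker_integrable h hN hφm hφ0 hφ1)
    exact tendsto_atTop_add_const_right _ _ tendsto_natCast_atTop_atTop
  exact le_of_tendsto (h1.sub h2).abs
    (Eventually.of_forall fun M => disc_fin h hN hφm hφ0 hφ1 hB hD M)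

lemma scale_int (hN : 0 < N) :
    ∫ u in Ioi (0:ℝ), φ u * k (xr N u) = N * ∫ y in Ioi (0:ℝ), φ (N * y) * k (xr 1 y) := by
  have := integral_comp_mul_left_Ioi (fun u => φ u * k (xr N u)) 0 hN
  rw [mul_zero] at this
  have h2 : ∫ y in Ioi (0:ℝ), φ (N * y) * k (xr 1 y)
      = ∫ y in Ioi (0:ℝ), φ (N * y) * k (xr N (N * y)) := by
    apply setIntegral_congr_fun measurableSet_Ioi
    intro y hy
    have : xr N (N * y) = xr 1 y := by
      unfold xr
      congr 1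
      field_simp
    simp only [this]
  rw [h2, this, smul_eq_mul]
  field_simp

/-- slowly varying -/
def SV (φ : ℝ → ℝ) : Prop := ∀ y : ℝ, 0 < y → Tendsto (fun N : ℝ => φ (N * y) - φ N) atTop (𝓝 0)

lemma sv_tendsto (h : Ker k L)
    (hφm : Measurable φ) (hφ0 : ∀ u, 0 ≤ φ u) (hφ1 : ∀ u, φ u ≤ 1) (hsv : SV φ) :
    Tendsto (fun N : ℝ => ∫ y in Ioi (0:ℝ), (φ (N * y) - φ N) * k (xr 1 y)) atTop (𝓝 0) := by
  have hint := ker_integrable h (zero_le_one (α := ℝ))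
  have := tendsto_integral_filter_of_dominated_convergence (μ := volume.restrict (Ioi (0:ℝ)))
    (l := atTop) (F := fun (N:ℝ) y => (φ (N * y) - φ N) * k (xr 1 y)) (f := fun _ => 0)
    (bound := fun y => 2 * ‖k (xr 1 y)‖) ?_ ?_ (hint.norm.const_mul 2) ?_
  · simpa using this
  · filter_upwards with N
    apply AEStronglyMeasurable.mul
    · exact ((hφm.comp (measurable_const.mul measurable_id)).sub
        measurable_const).aestronglyMeasurable
    · exact measurable_ker h zero_le_one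
  · filter_upwards with N
    filter_upwards with y
    rw [norm_mul]
    apply mul_le_mul_of_nonneg_right _ (norm_nonneg _)
    rw [Real.norm_eq_abs, abs_le]
    constructor <;> linarith [hφ0 (N * y), hφ0 N, hφ1 (N * y), hφ1 N]
  · rw [ae_restrict_iff' measurableSet_Ioi]
    filter_upwards with y hy
    have := (hsv y hy).mul_const (k (xr 1 y))
    simpa using this

/-- Main summation lemma. -/
theorem main_sum (h : Ker k L) (hw : ∀ n, |w n| ≤ 1)
    (hφm : Measurable φ) (hφ0 : ∀ u, 0 ≤ φ u) (hφ1 : ∀ u, φ u ≤ 1) (hsv : SV φ)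
    (hD : ∃ B : ℝ, ∀ n : ℕ, |∑ i ∈ Finset.range n, w i - ∫ u in (0:ℝ)..(n:ℝ), φ u| ≤ B) :
    Tendsto (fun N : ℝ => (∑' n : ℕ, w n * k (xr N ((n:ℝ)+1))) / N - φ N * II k) atTop (𝓝 0) := by
  obtain ⟨B, hD⟩ := hD
  have hB : 0 ≤ B := (abs_nonneg _).trans (hD 0)
  have h1 : Tendsto (fun N : ℝ => (∑' n : ℕ, w n * k (xr N ((n:ℝ)+1))) / N
      - (∫ u in Ioi (0:ℝ), φ u * k (xr N u)) / N) atTop (𝓝 0) := by
    apply squeeze_zero_norm' (a := fun N : ℝ => (2 * B + 5) * L * N ^ (-(1/4):ℝ))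
    · filter_upwards [eventually_gt_atTop 0] with N hN
      have := disc_inf h hN.le hw hφm hφ0 hφ1 hB hD
      rw [← sub_div, norm_div, Real.norm_eq_abs, Real.norm_eq_abs, abs_of_pos hN,
        div_le_iff₀ hN]
      refine this.trans (le_of_eq ?_)
      have : N ^ (3/4:ℝ) = N ^ (-(1/4):ℝ) * N := by
        nth_rewrite 3 [← Real.rpow_one N]
        rw [← Real.rpow_add hN]
        norm_num
      rw [this]; ring
    · have := (tendsto_rpow_neg_atTop (show (0:ℝ) < 1/4 by norm_num)).const_mul ((2 * B + 5) * L)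
      simpa using this
  have h2 := sv_tendsto h hφm hφ0 hφ1 hsv
  have h3 := h1.add h2
  rw [add_zero] at h3
  apply h3.congr'
  filter_upwards [eventually_gt_atTop 0] with N hN
  have hi1 : IntegrableOn (fun y => φ (N * y) * k (xr 1 y)) (Ioi (0:ℝ)) :=
    phi_ker_integrable (φ := fun y => φ (N * y)) h zero_le_one
      (hφm.comp (measurable_const.mul measurable_id)) (fun _ => hφ0 _) (fun _ => hφ1 _)
  have hi2 : IntegrableOn (fun y => φ N * k (xr 1 y)) (Ioi (0:ℝ)) :=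
    (ker_integrable h zero_le_one).const_mul _
  have e : ∫ y in Ioi (0:ℝ), (φ (N * y) - φ N) * k (xr 1 y)
      = (∫ y in Ioi (0:ℝ), φ (N * y) * k (xr 1 y)) - φ N * II k := by
    unfold II
    rw [← integral_const_mul, ← integral_sub hi1 hi2]
    congr 1; ext y; ring
  rw [e, scale_int hN]
  field_simp
  ring

end disc

end Pool.Agent.Helper26.Leo
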