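import Pool.Agent.Helper26.LeoInt

set_option autoImplicit false
open Filter MeasureTheory Set Topology

namespace Pool.Agent.Helper26.Leo

noncomputable def ss (u : ℝ) : ℝ := Real.log (Real.log (u + 16))

noncomputable def clip (t : ℝ) : ℝ := max 0 (min 1 t)

lemma clip_nonneg (t : ℝ) : 0 ≤ clip t := le_max_left _ _
lemma clip_le_one (t : ℝ) : clip t ≤ 1 := max_le zero_le_one (min_le_left _ _)
lemma clip_eq_one {t : ℝ} (h : 1 ≤ t) : clip t = 1 := by
  unfold clip; rw [min_eq_left h]; exact max_eq_right zero_le_one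
lemma clip_eq_zero {t : ℝ} (h : t ≤ 0) : clip t = 0 := by
  unfold clip; rw [min_eq_right (by linarith)]; exact max_eq_left h

lemma clip_lip (a b : ℝ) : |clip a - clip b| ≤ |a - b| := by
  unfold clip
  calc |max 0 (min 1 a) - max 0 (min 1 b)| ≤ |min 1 a - min 1 b| := by
        have := abs_max_sub_max_le_abs (min 1 a) (min 1 b) 0
        rwa [max_comm, max_comm (min 1 b)] at this
    _ ≤ |a - b| := by
        have := abs_min_sub_min_le_max 1 a 1 b
        simpa using this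

/-- local densities of the three directions -/
noncomputable def ph (j : ℕ) (u : ℝ) : ℝ :=
  if j = 0 then clip (2 * Real.sin (ss u) - 1/2)
  else if j = 2 then clip (-(2 * Real.sin (ss u)) - 1/2)
  else 1 - clip (2 * Real.sin (ss u) - 1/2) - clip (-(2 * Real.sin (ss u)) - 1/2)

lemma ph0 (u : ℝ) : ph 0 u = clip (2 * Real.sin (ss u) - 1/2) := by simp [ph]
lemma ph2 (u : ℝ) : ph 2 u = clip (-(2 * Real.sin (ss u)) - 1/2) := by simp [ph]
lemma ph1 (u : ℝ) : ph 1 u = 1 - ph 0 u - ph 2 u := by simp [ph]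

lemma ss_meas : Measurable ss := by
  unfold ss
  exact Real.measurable_log.comp (Real.measurable_log.comp (measurable_id.add_const 16))

lemma clip_meas : Measurable clip := by
  unfold clip
  exact measurable_const.max (measurable_const.min measurable_id)

lemma ph0_meas : Measurable (ph 0) := by
  have : ph 0 = fun u => clip (2 * Real.sin (ss u) - 1/2) := funext ph0
  rw [this]
  exact clip_meas.comp (((Real.measurable_sin.comp ss_meas).const_mul 2).sub_const _)

lemma ph2_meas : Measurable (ph 2) := by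
  have : ph 2 = fun u => clip (-(2 * Real.sin (ss u)) - 1/2) := funext ph2
  rw [this]
  exact clip_meas.comp ((((Real.measurable_sin.comp ss_meas).const_mul 2).neg).sub_const _)

lemma ph1_meas : Measurable (ph 1) := by
  have : ph 1 = fun u => 1 - ph 0 u - ph 2 u := funext ph1
  rw [this]
  exact (ph0_meas.const_sub 1).sub ph2_meas

lemma ph_excl (u : ℝ) : ph 0 u = 0 ∨ ph 2 u = 0 := by
  rw [ph0, ph2]
  rcases le_total (Real.sin (ss u)) 0 with h | h
  · left; exact clip_eq_zero (by linarith)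
  · right; exact clip_eq_zero (by linarith)

lemma ph_range (j : ℕ) (hj : j < 3) (u : ℝ) : 0 ≤ ph j u ∧ ph j u ≤ 1 := by
  interval_cases j
  · rw [ph0]; exact ⟨clip_nonneg _, clip_le_one _⟩
  · rw [ph1]
    have a0 : 0 ≤ ph 0 u := by rw [ph0]; exact clip_nonneg _
    have a1 : ph 0 u ≤ 1 := by rw [ph0]; exact clip_le_one _
    have b0 : 0 ≤ ph 2 u := by rw [ph2]; exact clip_nonneg _
    have b1 : ph 2 u ≤ 1 := by rw [ph2]; exact clip_le_one _
    rcases ph_excl u with h | h <;> constructor <;> linarith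
  · rw [ph2]; exact ⟨clip_nonneg _, clip_le_one _⟩

lemma ph_meas (j : ℕ) (hj : j < 3) : Measurable (ph j) := by
  interval_cases j
  · exact ph0_meas
  · exact ph1_meas
  · exact ph2_meas

lemma one_le_log16 {u : ℝ} (hu : 0 ≤ u) : 1 ≤ Real.log (u + 16) := by
  rw [Real.le_log_iff_exp_le (by linarith)]
  have := Real.exp_one_lt_d9
  linarith

lemma ss_mono {a b : ℝ} (ha : 0 ≤ a) (hab : a ≤ b) : ss a ≤ ss b := by
  unfold ss
  have h1 := one_le_log16 ha
  apply Real.log_le_log (by linarith)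
  exact Real.log_le_log (by linarith) (by linarith)

lemma ss_diff {a b : ℝ} (ha : 0 ≤ a) (hab : a ≤ b) :
    ss b - ss a ≤ Real.log ((b + 16) / (a + 16)) / Real.log (a + 16) := by
  unfold ss
  have h1 := one_le_log16 ha
  have h2 := one_le_log16 (ha.trans hab)
  rw [← Real.log_div (by linarith) (by linarith)]
  have h3 := Real.log_le_sub_one_of_pos
    (show 0 < Real.log (b + 16) / Real.log (a + 16) by positivity)
  refine h3.trans (le_of_eq ?_)
  rw [Real.log_div (by linarith) (by linarith)]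
  field_simp

lemma ss_step {a b : ℝ} (ha : 0 ≤ a) (hab : a ≤ b) (hb : b ≤ a + 1) :
    ss b - ss a ≤ 1/16 := by
  have h1 := one_le_log16 ha
  refine (ss_diff ha hab).trans ?_
  have h2 : Real.log ((b + 16) / (a + 16)) ≤ 1/16 := by
    have h3 := Real.log_le_sub_one_of_pos (show 0 < (b + 16) / (a + 16) by
      have : 0 < b + 16 := by linarith
      have : 0 < a + 16 := by linarith
      positivity)
    refine h3.trans ?_
    rw [div_sub_one (by linarith), div_le_iff₀ (by linarith)]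
    linarith
  have h4 : 0 ≤ Real.log ((b + 16) / (a + 16)) := by
    apply Real.log_nonneg
    rw [le_div_iff₀ (by linarith)]; linarith
  rw [div_le_iff₀ (by linarith)]
  nlinarith

/-- windows -/
lemma ss_window {K ε : ℝ} (hK : 1 ≤ K) (hε : 0 < ε) :
    ∃ R : ℝ, 0 < R ∧ ∀ N : ℝ, R ≤ N → ∀ u : ℝ, N / K ≤ u → u ≤ K * N → |ss u - ss N| ≤ ε := by
  have hK0 : 0 < K := by linarith
  -- need 2 log K / log (N/K + 16) ≤ ε
  have h1 : Tendsto (fun N : ℝ => 2 * Real.log K / Real.log (N / K + 16)) atTop (𝓝 0) := by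
    apply Tendsto.const_div_atTop
    exact Real.tendsto_log_atTop.comp
      (tendsto_atTop_add_const_right _ _ (tendsto_id.atTop_div_const hK0))
  have h2 := h1.eventually (gt_mem_nhds hε)
  rw [eventually_atTop] at h2
  obtain ⟨R, hR⟩ := h2
  refine ⟨max R 1, by positivity, fun N hN u hu1 hu2 => ?_⟩
  have hN1 : 1 ≤ N := (le_max_right _ _).trans hN
  have h3 := hR N ((le_max_left _ _).trans hN)
  have hNK : 0 < N / K := by positivity
  have hNle : N / K ≤ N := by rw [div_le_iff₀ hK0]; nlinarith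
  have hNle2 : N ≤ K * N := by nlinarith
  have h4 : ss (K * N) - ss (N / K) ≤ ε := by
    refine (ss_diff hNK.le (hNle.trans hNle2)).trans ?_
    refine le_trans ?_ h3.le
    have h5 := one_le_log16 hNK.le
    apply div_le_div_of_nonneg_right _ (by linarith)
    rw [show 2 * Real.log K = Real.log (K ^ 2) by rw [Real.log_pow]; push_cast; ring]
    apply Real.log_le_log (by positivity)
    rw [div_le_iff₀ (by positivity)]
    have : K ^ 2 * (N / K + 16) = K * N + 16 * K ^ 2 := by field_simp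
    rw [this]
    nlinarith
  have a1 := ss_mono hNK.le hu1
  have a2 := ss_mono (hNK.le.trans hu1) hu2
  have a3 := ss_mono hNK.le hNle
  have a4 := ss_mono (by linarith : (0:ℝ) ≤ N) hNle2
  rw [abs_le]; constructor <;> linarith

lemma sin_diff (a b : ℝ) : |Real.sin a - Real.sin b| ≤ |a - b| := by
  have := Real.abs_sin_sub_sin_le a b
  exact this

lemma ph0_lip (a b : ℝ) : |ph 0 a - ph 0 b| ≤ 2 * |ss a - ss b| := by
  rw [ph0, ph0]
  refine (clip_lip _ _).trans ?_
  have := sin_diff (ss a) (ss b)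
  rw [show 2 * Real.sin (ss a) - 1/2 - (2 * Real.sin (ss b) - 1/2)
    = 2 * (Real.sin (ss a) - Real.sin (ss b)) by ring, abs_mul, abs_two]
  linarith

lemma ph2_lip (a b : ℝ) : |ph 2 a - ph 2 b| ≤ 2 * |ss a - ss b| := by
  rw [ph2, ph2]
  refine (clip_lip _ _).trans ?_
  have := sin_diff (ss a) (ss b)
  rw [show -(2 * Real.sin (ss a)) - 1/2 - (-(2 * Real.sin (ss b)) - 1/2)
    = -2 * (Real.sin (ss a) - Real.sin (ss b)) by ring, abs_mul, abs_neg, abs_two]
  linarith

lemma ph1_lip (a b : ℝ) : |ph 1 a - ph 1 b| ≤ 4 * |ss a - ss b| := by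
  rw [ph1, ph1]
  have h0 := abs_le.1 (ph0_lip a b)
  have h2 := abs_le.1 (ph2_lip a b)
  rw [abs_le]; constructor <;> linarith

lemma ss_sv {y : ℝ} (hy : 0 < y) : Tendsto (fun N : ℝ => |ss (N * y) - ss N|) atTop (𝓝 0) := by
  rw [Metric.tendsto_atTop]
  intro ε hε
  set K := max 1 (max y (1/y)) with hK
  obtain ⟨R, hR0, hR⟩ := ss_window (K := K) (le_max_left _ _) (half_pos hε)
  refine ⟨R, fun N hN => ?_⟩
  have hN0 : 0 < N := by linarith
  have hK1 : 1 ≤ K := le_max_left _ _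
  have hKy : y ≤ K := (le_max_left _ _).trans (le_max_right _ _)
  have hKy' : 1/y ≤ K := (le_max_right _ _).trans (le_max_right _ _)
  have h := hR N hN (N * y) ?_ ?_
  · rw [Real.dist_eq, sub_zero, abs_abs]; linarith
  · rw [div_le_iff₀ (by linarith)]
    rw [div_le_iff₀ hy] at hKy'
    nlinarith
  · nlinarith

lemma ph_sv (j : ℕ) (hj : j < 3) : SV (ph j) := by
  intro y hy
  have h := (ss_sv hy).const_mul 4
  rw [mul_zero] at h
  apply squeeze_zero_norm _ h
  intro N
  rw [Real.norm_eq_abs]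
  have h0 := abs_nonneg (ss (N * y) - ss N)
  interval_cases j
  · exact (ph0_lip _ _).trans (by linarith)
  · exact ph1_lip _ _
  · exact (ph2_lip _ _).trans (by linarith)

/-- existence of scales with prescribed phase -/
lemma exists_phase (θ R : ℝ) : ∃ N : ℝ, R ≤ N ∧ 0 < N ∧ ∃ k : ℕ, ss N = θ + k * (2 * Real.pi) := by
  have h1 : Tendsto (fun k : ℕ => Real.exp (Real.exp (θ + k * (2 * Real.pi))) - 16) atTop atTop := by
    apply tendsto_atTop_add_const_right
    apply Real.tendsto_exp_atTop.comp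
    apply Real.tendsto_exp_atTop.comp
    apply tendsto_atTop_add_const_left
    apply Tendsto.atTop_mul_const (by positivity)
    exact tendsto_natCast_atTop_atTop
  obtain ⟨k, hk⟩ := (h1.eventually (eventually_ge_atTop (max R 1))).exists
  refine ⟨_, (le_max_left _ _).trans hk, by linarith [(le_max_right R 1).trans hk], k, ?_⟩
  unfold ss
  rw [sub_add_cancel, Real.log_exp, Real.log_exp]

/-- integer valued counting -/
noncomputable def Fl (j : ℕ) (n : ℕ) : ℤ := ⌊∫ u in (0:ℝ)..(n:ℝ), ph j u⌋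

lemma Fl_step (j : ℕ) (hj : j < 3) (n : ℕ) :
    Fl j (n+1) = Fl j n ∨ Fl j (n+1) = Fl j n + 1 := by
  have hi := intervalIntegrable_phi (ph_meas j hj) (fun u => (ph_range j hj u).1)
    (fun u => (ph_range j hj u).2)
  have h1 : ∫ u in (0:ℝ)..((n+1:ℕ):ℝ), ph j u
      = (∫ u in (0:ℝ)..(n:ℝ), ph j u) + ∫ u in (n:ℝ)..((n+1:ℕ):ℝ), ph j u :=
    (intervalIntegral.integral_add_adjacent_intervals (hi _ _) (hi _ _)).symm
  have hle : (n:ℝ) ≤ ((n+1:ℕ):ℝ) := by push_cast; linarith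
  have h2 : 0 ≤ ∫ u in (n:ℝ)..((n+1:ℕ):ℝ), ph j u :=
    intervalIntegral.integral_nonneg hle (fun u _ => (ph_range j hj u).1)
  have h3 : ∫ u in (n:ℝ)..((n+1:ℕ):ℝ), ph j u ≤ 1 := by
    have := intervalIntegral.integral_mono_on hle (hi _ _)
      (intervalIntegrable_const (c := (1:ℝ))) (fun u _ => (ph_range j hj u).2)
    rw [intervalIntegral.integral_const] at this
    push_cast at this ⊢
    simpa using this
  have h4 : Fl j n ≤ Fl j (n+1) := by
    unfold Fl; rw [h1]; exact Int.floor_le_floor (by linarith)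
  have h5 : Fl j (n+1) ≤ Fl j n + 1 := by
    unfold Fl; rw [h1, ← Int.floor_add_one]; exact Int.floor_le_floor (by linarith)
  omega

/-- direction of the `n`-th zero: 0, 1, 2 for `1`, `i`, `-1`. -/
noncomputable def dir (n : ℕ) : ℕ :=
  if Fl 0 (n+1) = Fl 0 n + 1 then 0 else if Fl 2 (n+1) = Fl 2 n + 1 then 2 else 1

lemma dir_lt (n : ℕ) : dir n < 3 := by
  unfold dir; split_ifs <;> omega

lemma Fl_const_of_zero (j : ℕ) (n : ℕ) (h : ∀ u ∈ Icc (n:ℝ) ((n:ℝ)+1), ph j u = 0) (hj : j < 3) :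
    Fl j (n+1) = Fl j n := by
  have hi := intervalIntegrable_phi (ph_meas j hj) (fun u => (ph_range j hj u).1)
    (fun u => (ph_range j hj u).2)
  have h1 : ∫ u in (0:ℝ)..((n+1:ℕ):ℝ), ph j u
      = (∫ u in (0:ℝ)..(n:ℝ), ph j u) + ∫ u in (n:ℝ)..((n+1:ℕ):ℝ), ph j u :=
    (intervalIntegral.integral_add_adjacent_intervals (hi _ _) (hi _ _)).symm
  have h2 : ∫ u in (n:ℝ)..((n+1:ℕ):ℝ), ph j u = 0 := by
    have : ∫ u in (n:ℝ)..((n+1:ℕ):ℝ), ph j u = ∫ u in (n:ℝ)..((n+1:ℕ):ℝ), (0:ℝ) := by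
      apply intervalIntegral.integral_congr
      intro u hu
      push_cast at hu
      rw [uIcc_of_le (by linarith)] at hu
      exact h u hu
    rw [this]; simp
  unfold Fl
  rw [h1, h2, add_zero]

lemma Fl_succ_of_one (j : ℕ) (n : ℕ) (h : ∀ u ∈ Icc (n:ℝ) ((n:ℝ)+1), ph j u = 1) (hj : j < 3) :
    Fl j (n+1) = Fl j n + 1 := by
  have hi := intervalIntegrable_phi (ph_meas j hj) (fun u => (ph_range j hj u).1)
    (fun u => (ph_range j hj u).2)
  have h1 : ∫ u in (0:ℝ)..((n+1:ℕ):ℝ), ph j u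
      = (∫ u in (0:ℝ)..(n:ℝ), ph j u) + ∫ u in (n:ℝ)..((n+1:ℕ):ℝ), ph j u :=
    (intervalIntegral.integral_add_adjacent_intervals (hi _ _) (hi _ _)).symm
  have h2 : ∫ u in (n:ℝ)..((n+1:ℕ):ℝ), ph j u = 1 := by
    have : ∫ u in (n:ℝ)..((n+1:ℕ):ℝ), ph j u = ∫ u in (n:ℝ)..((n+1:ℕ):ℝ), (1:ℝ) := by
      apply intervalIntegral.integral_congr
      intro u hu
      push_cast at hu
      rw [uIcc_of_le (by linarith)] at hu
      exact h u hu
    rw [this, intervalIntegral.integral_const]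
    push_cast; simp
  unfold Fl
  rw [h1, h2, Int.floor_add_one]

/-- within one unit step the phase is almost constant -/
lemma sin_step {n : ℕ} {u v : ℝ} (hu : u ∈ Icc (n:ℝ) ((n:ℝ)+1)) (hv : v ∈ Icc (n:ℝ) ((n:ℝ)+1)) :
    |Real.sin (ss u) - Real.sin (ss v)| ≤ 1/16 := by
  have hn : (0:ℝ) ≤ n := Nat.cast_nonneg n
  refine (sin_diff _ _).trans ?_
  rcases le_total u v with h | h
  · have := ss_step (hn.trans hu.1) h (by linarith [hu.1, hv.2])
    have := ss_mono (hn.trans hu.1) h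
    rw [abs_le]; constructor <;> linarith
  · have := ss_step (hn.trans hv.1) h (by linarith [hv.1, hu.2])
    have := ss_mono (hn.trans hv.1) h
    rw [abs_le]; constructor <;> linarith

lemma sin_of_Fl0 {n : ℕ} (h : Fl 0 (n+1) = Fl 0 n + 1) :
    ∀ v ∈ Icc (n:ℝ) ((n:ℝ)+1), 3/16 ≤ Real.sin (ss v) := by
  by_contra hcon
  push Not at hcon
  obtain ⟨v, hv, hlt⟩ := hcon
  have : ∀ u ∈ Icc (n:ℝ) ((n:ℝ)+1), ph 0 u = 0 := by
    intro u hu
    have := abs_le.1 (sin_step hu hv)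
    rw [ph0]; apply clip_eq_zero; linarith
  have := Fl_const_of_zero 0 n this (by norm_num)
  omega

lemma sin_of_Fl2 {n : ℕ} (h : Fl 2 (n+1) = Fl 2 n + 1) :
    ∀ v ∈ Icc (n:ℝ) ((n:ℝ)+1), Real.sin (ss v) ≤ -(3/16) := by
  by_contra hcon
  push Not at hcon
  obtain ⟨v, hv, hlt⟩ := hcon
  have : ∀ u ∈ Icc (n:ℝ) ((n:ℝ)+1), ph 2 u = 0 := by
    intro u hu
    have := abs_le.1 (sin_step hu hv)
    rw [ph2]; apply clip_eq_zero; linarith
  have := Fl_const_of_zero 2 n this (by norm_num)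
  omega

lemma dir_zero_iff (n : ℕ) : dir n = 0 ↔ Fl 0 (n+1) = Fl 0 n + 1 := by
  unfold dir; split_ifs with h1 h2 <;> simp [h1]

lemma dir_two_iff (n : ℕ) : dir n = 2 ↔ Fl 2 (n+1) = Fl 2 n + 1 := by
  unfold dir
  split_ifs with h1 h2
  · constructor
    · intro h; exact absurd h (by norm_num)
    · intro h
      have a := sin_of_Fl0 h1 n (left_mem_Icc.2 (by linarith))
      have b := sin_of_Fl2 h n (left_mem_Icc.2 (by linarith))
      exfalso; linarith
  · simp [h2]
  · simp [h2]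

/-- opposite densities vanish -/
lemma ph2_of_dir0 {n : ℕ} (h : dir n = 0) : ph 2 ((n:ℝ)+1) = 0 := by
  have := sin_of_Fl0 ((dir_zero_iff n).1 h) ((n:ℝ)+1) (right_mem_Icc.2 (by linarith))
  rw [ph2]; apply clip_eq_zero; linarith

lemma ph0_of_dir2 {n : ℕ} (h : dir n = 2) : ph 0 ((n:ℝ)+1) = 0 := by
  have := sin_of_Fl2 ((dir_two_iff n).1 h) ((n:ℝ)+1) (right_mem_Icc.2 (by linarith))
  rw [ph0]; apply clip_eq_zero; linarith

/-- indicator weights -/
noncomputable def ww (j n : ℕ) : ℝ := if dir n = j then 1 else 0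

lemma ww_abs (j n : ℕ) : |ww j n| ≤ 1 := by
  unfold ww; split_ifs <;> simp

lemma ww_nonneg (j n : ℕ) : 0 ≤ ww j n := by
  unfold ww; split_ifs <;> simp

lemma ww_sum (n : ℕ) : ww 0 n + ww 1 n + ww 2 n = 1 := by
  have := dir_lt n
  unfold ww
  interval_cases h : dir n <;> simp

lemma ww0_eq (n : ℕ) : ww 0 n = ((Fl 0 (n+1) - Fl 0 n : ℤ) : ℝ) := by
  unfold ww
  by_cases h : Fl 0 (n+1) = Fl 0 n + 1
  · rw [if_pos ((dir_zero_iff n).2 h), h]; simp
  · rw [if_neg (fun h' => h ((dir_zero_iff n).1 h'))]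
    rcases Fl_step 0 (by norm_num) n with h2 | h2
    · rw [h2]; simp
    · exact absurd h2 h

lemma ww2_eq (n : ℕ) : ww 2 n = ((Fl 2 (n+1) - Fl 2 n : ℤ) : ℝ) := by
  unfold ww
  by_cases h : Fl 2 (n+1) = Fl 2 n + 1
  · rw [if_pos ((dir_two_iff n).2 h), h]; simp
  · rw [if_neg (fun h' => h ((dir_two_iff n).1 h'))]
    rcases Fl_step 2 (by norm_num) n with h2 | h2
    · rw [h2]; simp
    · exact absurd h2 h

lemma Fl_zero (j : ℕ) : Fl j 0 = 0 := by
  unfold Fl; simp

lemma sum_Fl (j n : ℕ) : ∑ i ∈ Finset.range n, ((Fl j (i+1) - Fl j i : ℤ) : ℝ) = (Fl j n : ℝ) := by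
  rw [← Int.cast_sum, Finset.sum_range_sub, Fl_zero, sub_zero]

lemma Fl_dev (j n : ℕ) : |(Fl j n : ℝ) - ∫ u in (0:ℝ)..(n:ℝ), ph j u| ≤ 1 := by
  unfold Fl
  have h1 := Int.floor_le (∫ u in (0:ℝ)..(n:ℝ), ph j u)
  have h2 := Int.lt_floor_add_one (∫ u in (0:ℝ)..(n:ℝ), ph j u)
  rw [abs_le]; constructor <;> linarith

lemma ww_dev (j : ℕ) (hj : j < 3) (n : ℕ) :
    |∑ i ∈ Finset.range n, ww j i - ∫ u in (0:ℝ)..(n:ℝ), ph j u| ≤ 2 := by
  have d0 := Fl_dev 0 n
  have d2 := Fl_dev 2 n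
  have s0 : ∑ i ∈ Finset.range n, ww 0 i = (Fl 0 n : ℝ) := by
    rw [← sum_Fl]; exact Finset.sum_congr rfl fun i _ => ww0_eq i
  have s2 : ∑ i ∈ Finset.range n, ww 2 i = (Fl 2 n : ℝ) := by
    rw [← sum_Fl]; exact Finset.sum_congr rfl fun i _ => ww2_eq i
  interval_cases j
  · rw [s0]; linarith
  · have s1 : ∑ i ∈ Finset.range n, ww 1 i = n - (Fl 0 n : ℝ) - (Fl 2 n : ℝ) := by
      have hn : (n:ℝ) = ∑ i ∈ Finset.range n, (1:ℝ) := by simp
      rw [← s0, ← s2, hn, ← Finset.sum_sub_distrib, ← Finset.sum_sub_distrib]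
      apply Finset.sum_congr rfl
      intro i _
      linarith [ww_sum i]
    have i1 : ∫ u in (0:ℝ)..(n:ℝ), ph 1 u
        = n - (∫ u in (0:ℝ)..(n:ℝ), ph 0 u) - ∫ u in (0:ℝ)..(n:ℝ), ph 2 u := by
      have e : (fun u => ph 1 u) = fun u => (1 - ph 0 u) - ph 2 u := by
        ext u; rw [ph1]
      have hi0 := intervalIntegrable_phi (ph_meas 0 (by norm_num)) (fun u => (ph_range 0 (by norm_num) u).1)
        (fun u => (ph_range 0 (by norm_num) u).2) 0 n
      have hi2 := intervalIntegrable_phi (ph_meas 2 (by norm_num)) (fun u => (ph_range 2 (by norm_num) u).1)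
        (fun u => (ph_range 2 (by norm_num) u).2) 0 n
      rw [e, intervalIntegral.integral_sub ((intervalIntegrable_const (c := (1:ℝ))).sub hi0) hi2,
        intervalIntegral.integral_sub (intervalIntegrable_const (c := (1:ℝ))) hi0]
      simp
    rw [s1, i1]
    rw [abs_le] at *
    constructor <;> linarith [d0.1, d0.2, d2.1, d2.2]
  · rw [s2]; linarith

/-- the summation theorem for our weights -/
theorem ww_sum_tendsto {k : ℝ → ℝ} {L : ℝ} (h : Ker k L) (j : ℕ) (hj : j < 3) :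
    Tendsto (fun N : ℝ => (∑' n : ℕ, ww j n * k (xr N ((n:ℝ)+1))) / N - ph j N * II k)
      atTop (𝓝 0) :=
  main_sum h (ww_abs j) (ph_meas j hj) (fun u => (ph_range j hj u).1) (fun u => (ph_range j hj u).2)
    (ph_sv j hj) ⟨2, ww_dev j hj⟩

end Pool.Agent.Helper26.Leo
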