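import Pool.Agent.Helper26.LeoW

set_option autoImplicit false
open Filter MeasureTheory Set Topology

namespace Pool.Agent.Helper26.Leo

lemma win_incl {K : ℝ} (hK : 1 ≤ K) {N : ℝ} (hN : 2 * K ≤ N) {n : ℕ} (h1 : N / K ≤ (n:ℝ)+1)
    (h2 : (n:ℝ)+1 ≤ K * N) {u : ℝ} (hu : u ∈ Icc (n:ℝ) ((n:ℝ)+1)) :
    N / (2 * K) ≤ u ∧ u ≤ (2 * K) * N := by
  have hK0 : 0 < K := by linarith
  have hN0 : 0 < N := by linarith
  constructor
  · refine le_trans ?_ hu.1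
    have h3 : 2 ≤ N / K := by rw [le_div_iff₀ hK0]; linarith
    have h4 : N / (2 * K) = (N / K) / 2 := by field_simp
    rw [h4]; linarith
  · refine hu.2.trans (h2.trans ?_)
    have := mul_pos hK0 hN0
    nlinarith

lemma dir_window {K : ℝ} (hK : 1 ≤ K) : ∃ R : ℝ, 0 < R ∧ ∀ N : ℝ, R ≤ N →
    (Real.sin (ss N) = 1 → ∀ n : ℕ, N / K ≤ (n:ℝ)+1 → (n:ℝ)+1 ≤ K * N → dir n = 0) ∧
    (Real.sin (ss N) = 0 → ∀ n : ℕ, N / K ≤ (n:ℝ)+1 → (n:ℝ)+1 ≤ K * N → dir n = 1) ∧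
    (Real.sin (ss N) = -1 → ∀ n : ℕ, N / K ≤ (n:ℝ)+1 → (n:ℝ)+1 ≤ K * N → dir n = 2) := by
  obtain ⟨R, hR0, hR⟩ := ss_window (K := 2 * K) (ε := 1/16) (by linarith) (by norm_num)
  refine ⟨max R (2 * K), lt_max_of_lt_left hR0, fun N hN => ?_⟩
  have hN1 : R ≤ N := (le_max_left _ _).trans hN
  have hN2 : 2 * K ≤ N := (le_max_right _ _).trans hN
  have key : ∀ n : ℕ, N / K ≤ (n:ℝ)+1 → (n:ℝ)+1 ≤ K * N → ∀ u ∈ Icc (n:ℝ) ((n:ℝ)+1),
      |Real.sin (ss u) - Real.sin (ss N)| ≤ 1/16 := by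
    intro n h1 h2 u hu
    obtain ⟨a, b⟩ := win_incl hK hN2 h1 h2 hu
    exact (sin_diff _ _).trans (hR N hN1 u a b)
  refine ⟨fun hs n h1 h2 => ?_, fun hs n h1 h2 => ?_, fun hs n h1 h2 => ?_⟩
  · rw [dir_zero_iff]
    apply Fl_succ_of_one 0 n _ (by norm_num)
    intro u hu
    have := abs_le.1 (key n h1 h2 u hu)
    rw [ph0]; apply clip_eq_one; linarith
  · have a0 : Fl 0 (n+1) = Fl 0 n := by
      apply Fl_const_of_zero 0 n _ (by norm_num)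
      intro u hu
      have := abs_le.1 (key n h1 h2 u hu)
      rw [ph0]; apply clip_eq_zero; linarith
    have a2 : Fl 2 (n+1) = Fl 2 n := by
      apply Fl_const_of_zero 2 n _ (by norm_num)
      intro u hu
      have := abs_le.1 (key n h1 h2 u hu)
      rw [ph2]; apply clip_eq_zero; linarith
    unfold dir
    rw [if_neg (by omega), if_neg (by omega)]
  · rw [dir_two_iff]
    apply Fl_succ_of_one 2 n _ (by norm_num)
    intro u hu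
    have := abs_le.1 (key n h1 h2 u hu)
    rw [ph2]; apply clip_eq_one; linarith

/-- prescribed values of the sine at large scales -/
lemma exists_sin_one (R : ℝ) : ∃ N : ℝ, R ≤ N ∧ 0 < N ∧ Real.sin (ss N) = 1 := by
  obtain ⟨N, h1, h2, k, h3⟩ := exists_phase (Real.pi / 2) R
  refine ⟨N, h1, h2, ?_⟩
  rw [h3, Real.sin_add_nat_mul_two_pi, Real.sin_pi_div_two]

lemma exists_sin_zero (R : ℝ) : ∃ N : ℝ, R ≤ N ∧ 0 < N ∧ Real.sin (ss N) = 0 := by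
  obtain ⟨N, h1, h2, k, h3⟩ := exists_phase 0 R
  refine ⟨N, h1, h2, ?_⟩
  rw [h3, Real.sin_add_nat_mul_two_pi, Real.sin_zero]

lemma exists_sin_neg_one (R : ℝ) : ∃ N : ℝ, R ≤ N ∧ 0 < N ∧ Real.sin (ss N) = -1 := by
  obtain ⟨N, h1, h2, k, h3⟩ := exists_phase (-(Real.pi / 2)) R
  refine ⟨N, h1, h2, ?_⟩
  rw [h3, Real.sin_add_nat_mul_two_pi, Real.sin_neg, Real.sin_pi_div_two]

lemma ph_of_sin_one {N : ℝ} (h : Real.sin (ss N) = 1) : ph 0 N = 1 ∧ ph 1 N = 0 ∧ ph 2 N = 0 := by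
  have h0 : ph 0 N = 1 := by rw [ph0, h]; apply clip_eq_one; norm_num
  have h2 : ph 2 N = 0 := by rw [ph2, h]; apply clip_eq_zero; norm_num
  refine ⟨h0, ?_, h2⟩
  rw [ph1, h0, h2]; norm_num

lemma ph_of_sin_zero {N : ℝ} (h : Real.sin (ss N) = 0) : ph 0 N = 0 ∧ ph 1 N = 1 ∧ ph 2 N = 0 := by
  have h0 : ph 0 N = 0 := by rw [ph0, h]; apply clip_eq_zero; norm_num
  have h2 : ph 2 N = 0 := by rw [ph2, h]; apply clip_eq_zero; norm_num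
  refine ⟨h0, ?_, h2⟩
  rw [ph1, h0, h2]; norm_num

lemma ph_of_sin_neg_one {N : ℝ} (h : Real.sin (ss N) = -1) :
    ph 0 N = 0 ∧ ph 1 N = 0 ∧ ph 2 N = 1 := by
  have h0 : ph 0 N = 0 := by rw [ph0, h]; apply clip_eq_zero; norm_num
  have h2 : ph 2 N = 1 := by rw [ph2, h]; apply clip_eq_one; norm_num
  refine ⟨h0, ?_, h2⟩
  rw [ph1, h0, h2]; norm_num

lemma exists_dir (j : ℕ) (hj : j < 3) (n₀ : ℕ) : ∃ n : ℕ, n₀ ≤ n ∧ dir n = j := by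
  obtain ⟨R, hR0, hR⟩ := dir_window (K := 2) (by norm_num)
  have key : ∀ N : ℝ, max R ((n₀:ℝ) + 2) ≤ N → n₀ ≤ ⌊N⌋₊ ∧ N / 2 ≤ ((⌊N⌋₊:ℕ):ℝ) + 1 ∧
      ((⌊N⌋₊:ℕ):ℝ) + 1 ≤ 2 * N := by
    intro N hN
    have hN2 : (n₀:ℝ) + 2 ≤ N := (le_max_right _ _).trans hN
    have hn : (0:ℝ) ≤ n₀ := Nat.cast_nonneg _
    have h1 := Nat.lt_floor_add_one N
    have h2 := Nat.floor_le (show 0 ≤ N by linarith)
    refine ⟨?_, by linarith, by linarith⟩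
    apply Nat.le_floor; linarith
  interval_cases j
  · obtain ⟨N, h1, _, h3⟩ := exists_sin_one (max R ((n₀:ℝ) + 2))
    obtain ⟨a, b, c⟩ := key N h1
    exact ⟨_, a, (hR N ((le_max_left _ _).trans h1)).1 h3 _ b c⟩
  · obtain ⟨N, h1, _, h3⟩ := exists_sin_zero (max R ((n₀:ℝ) + 2))
    obtain ⟨a, b, c⟩ := key N h1
    exact ⟨_, a, (hR N ((le_max_left _ _).trans h1)).2.1 h3 _ b c⟩
  · obtain ⟨N, h1, _, h3⟩ := exists_sin_neg_one (max R ((n₀:ℝ) + 2))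
    obtain ⟨a, b, c⟩ := key N h1
    exact ⟨_, a, (hR N ((le_max_left _ _).trans h1)).2.2 h3 _ b c⟩

/-! ### sums over all zeros -/

/-- `G kk N = Σ_n kk (dir n) (x_n)` -/
noncomputable def GG (kk : ℕ → ℝ → ℝ) (N : ℝ) : ℝ := ∑' n : ℕ, kk (dir n) (xr N ((n:ℝ)+1))

lemma kk_split (kk : ℕ → ℝ → ℝ) (n : ℕ) (x : ℝ) :
    kk (dir n) x = ww 0 n * kk 0 x + ww 1 n * kk 1 x + ww 2 n * kk 2 x := by
  have := dir_lt n
  unfold ww
  interval_cases h : dir n <;> simp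

lemma GG_summable {kk : ℕ → ℝ → ℝ} (hk : ∀ j < 3, ∃ L, Ker (kk j) L) {N : ℝ} (hN : 0 ≤ N) :
    Summable (fun n : ℕ => kk (dir n) (xr N ((n:ℝ)+1))) := by
  obtain ⟨L0, h0⟩ := hk 0 (by norm_num)
  obtain ⟨L1, h1⟩ := hk 1 (by norm_num)
  obtain ⟨L2, h2⟩ := hk 2 (by norm_num)
  have s0 := summable_wk h0 hN (ww_abs 0)
  have s1 := summable_wk h1 hN (ww_abs 1)
  have s2 := summable_wk h2 hN (ww_abs 2)
  exact ((s0.add s1).add s2).congr fun n => (kk_split kk n _).symm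

lemma GG_tendsto {kk : ℕ → ℝ → ℝ} (hk : ∀ j < 3, ∃ L, Ker (kk j) L) :
    Tendsto (fun N : ℝ => GG kk N / N
      - (ph 0 N * II (kk 0) + ph 1 N * II (kk 1) + ph 2 N * II (kk 2))) atTop (𝓝 0) := by
  obtain ⟨L0, h0⟩ := hk 0 (by norm_num)
  obtain ⟨L1, h1⟩ := hk 1 (by norm_num)
  obtain ⟨L2, h2⟩ := hk 2 (by norm_num)
  have t0 := ww_sum_tendsto h0 0 (by norm_num)
  have t1 := ww_sum_tendsto h1 1 (by norm_num)
  have t2 := ww_sum_tendsto h2 2 (by norm_num)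
  have t := (t0.add t1).add t2
  rw [add_zero, add_zero] at t
  apply t.congr'
  filter_upwards [eventually_ge_atTop 0] with N hN
  have s0 := summable_wk h0 hN (ww_abs 0)
  have s1 := summable_wk h1 hN (ww_abs 1)
  have s2 := summable_wk h2 hN (ww_abs 2)
  have e : GG kk N = ∑' n : ℕ, ww 0 n * kk 0 (xr N ((n:ℝ)+1))
      + ∑' n : ℕ, ww 1 n * kk 1 (xr N ((n:ℝ)+1)) + ∑' n : ℕ, ww 2 n * kk 2 (xr N ((n:ℝ)+1)) := by
    unfold GG
    rw [← s0.tsum_add s1, ← (s0.add s1).tsum_add s2]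
    exact tsum_congr fun n => kk_split kk n _
  rw [e]; ring

end Pool.Agent.Helper26.Leo
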