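import Pool.Agent.Helper26.VCT

/-! # Module ENT: sizes of the entries -/

set_option linter.unusedSimpArgs false

namespace Pool.Agent.Helper26.VCT
open Finset Pool.Agent.Helper39.VC

theorem norm_neg_one_pow (k : ℕ) : ‖((-1:ℂ))^k‖ = 1 := by
  rw [norm_pow, norm_neg, norm_one, one_pow]

theorem norm_bb {n a : ℕ} (ha : a < n) (b : ℕ) : ‖((bb n a b : ℝ) : ℂ)‖ = bb n a b := by
  rw [Complex.norm_real, Real.norm_of_nonneg (bb_nonneg ha)]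

theorem norm_Rm_one {n : ℕ} (i' i : Fin n) : ‖Rm n 0 n i' i‖ = bb n i i' := by
  unfold Rm
  simp only [add_zero]
  rw [uc_bb i.isLt, norm_mul, norm_mul, norm_neg_one_pow, qr_norm, norm_bb i.isLt]
  ring

theorem norm_one_sub {n : ℕ} {x : ℤ} (h0 : 0 < x) (h1 : x < n) :
    ‖1 - qr n ^ (2 * x)‖ = sn n x := by
  have hq := qr_ne n
  have e : 1 - qr n ^ (2 * x) = -(qr n ^ x * br (qr n) x) := by
    rw [br, mul_sub, ← zpow_add₀ hq, ← zpow_add₀ hq]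
    have e1 : x + x = 2 * x := by ring
    have e2 : x + -x = 0 := by ring
    rw [e1, e2, zpow_zero]
    ring
  rw [e, norm_neg, norm_mul, qr_norm, br_qr, norm_mul, Complex.norm_I, Complex.norm_real,
    Real.norm_of_nonneg (sn_pos h0 h1).le]
  ring

theorem prod_sn_shift {n : ℕ} (c : ℕ) : ∀ r, c + r < n →
    (∏ l ∈ range r, sn n ((c:ℤ) + 1 + l)) = sf n (c+r) / sf n c := by
  intro r
  induction r with
  | zero =>
    intro h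
    have := (sf_pos (n := n) (a := c) (by omega)).ne'
    simp [this]
  | succ r ih =>
    intro h
    rw [prod_range_succ, ih (by omega), ← add_assoc, sf_succ]
    have e : (((c+r:ℕ)):ℤ) + 1 = (c:ℤ) + 1 + r := by push_cast; ring
    rw [e]
    ring

theorem norm_Rm_two {n : ℕ} (i' i : Fin n) :
    ‖(Rm n 0 n ^ 2) i' i‖ = bb n i i' * (sf n i / sf n i') := by
  have hq := qr_ne n
  have hi := i.isLt
  have hi' := i'.isLt
  rw [pow_two, Matrix.mul_apply]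
  unfold Rm
  simp only [add_zero]
  rw [Fin.sum_univ_eq_sum_range (fun k => uc n (i':ℕ) k * uc n k (i:ℕ)) n]
  by_cases h : (i':ℕ) ≤ (i:ℕ)
  · set r := (i:ℕ) - (i':ℕ) with hr
    have hr' : (r:ℤ) = ((i:ℕ):ℤ) - ((i':ℕ):ℤ) := by omega
    have e1 : ∑ k ∈ range n, uc n (i':ℕ) k * uc n k (i:ℕ)
        = ∑ k ∈ Ico (i':ℕ) ((i':ℕ) + (r+1)), uc n (i':ℕ) k * uc n k (i:ℕ) := by
      symm
      apply sum_subset
      · intro b hb
        rw [mem_Ico] at hb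
        rw [mem_range]
        omega
      · intro b hb1 hb2
        rw [mem_range] at hb1
        rw [mem_Ico] at hb2
        by_cases c : b < (i':ℕ)
        · rw [uc_bb hb1, bb_eq_zero c]
          simp
        · rw [uc_bb (n := n) (i' := b) hi, bb_eq_zero (by omega : (i:ℕ) < b)]
          simp
    rw [e1, sum_Ico_eq_sum_range]
    have e6 : (i':ℕ) + (r+1) - (i':ℕ) = r + 1 := by omega
    rw [e6]
    have e2 : ∀ x ∈ range (r+1), uc n (i':ℕ) ((i':ℕ)+x) * uc n ((i':ℕ)+x) (i:ℕ)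
        = (((-1)^((i:ℕ)+1) * (-1)^((i':ℕ)+1)) * ((bb n i i' : ℝ) : ℂ) *
          qr n ^ (((i':ℕ):ℤ) + 1 + ((i:ℕ):ℤ) + 1 + ((i:ℕ):ℤ)^2 + ((i:ℕ):ℤ)*((i':ℕ):ℤ))) *
          (qb (qr n) r x * (-(qr n ^ (1 + ((i:ℕ):ℤ) + ((i':ℕ):ℤ))))^x) := by
      intro x hx
      rw [mem_range] at hx
      rw [uc_bb (by omega : (i':ℕ)+x < n), uc_bb hi, qb_eq_bb (by omega : r < n),
        neg_pow (qr n ^ (1 + ((i:ℕ):ℤ) + ((i':ℕ):ℤ))) x,
        ← zpow_natCast (qr n ^ (1 + ((i:ℕ):ℤ) + ((i':ℕ):ℤ))) x, ← zpow_mul]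
      have hb : bb n (i:ℕ) ((i':ℕ)+x) * bb n ((i':ℕ)+x) (i':ℕ) = bb n i i' * bb n r x := by
        have h3 := bb_mul (n := n) (i := (i:ℕ)) (a := (i':ℕ)+x) (k := (i':ℕ)) (by omega) (by omega) hi
        have e4 : (i':ℕ) + x - (i':ℕ) = x := by omega
        rw [e4] at h3
        rw [hr]
        linarith
      have hb' : ((bb n (i:ℕ) ((i':ℕ)+x) : ℝ) : ℂ) * ((bb n ((i':ℕ)+x) (i':ℕ) : ℝ) : ℂ)
          = ((bb n i i' : ℝ) : ℂ) * ((bb n r x : ℝ) : ℂ) := by exact_mod_cast hb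
      have z : qr n ^ ((((i':ℕ)+x:ℕ):ℤ) + 1 + (((i':ℕ)+x:ℕ):ℤ)^2 - ((i':ℕ):ℤ)^2 + (((i':ℕ)+x:ℕ):ℤ)*((i':ℕ):ℤ)) *
          qr n ^ (((i:ℕ):ℤ) + 1 + ((i:ℕ):ℤ)^2 - (((i':ℕ)+x:ℕ):ℤ)^2 + ((i:ℕ):ℤ)*(((i':ℕ)+x:ℕ):ℤ))
          = qr n ^ (((i':ℕ):ℤ) + 1 + ((i:ℕ):ℤ) + 1 + ((i:ℕ):ℤ)^2 + ((i:ℕ):ℤ)*((i':ℕ):ℤ)) *
            qr n ^ ((1 + ((i:ℕ):ℤ) + ((i':ℕ):ℤ)) * (x:ℤ)) := by
        rw [← zpow_add₀ hq, ← zpow_add₀ hq]
        congr 1
        push_cast; ring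
      have s1 : ((-1:ℂ))^((i':ℕ)+x+1) = (-1)^((i':ℕ)+1) * (-1)^x := by
        rw [← pow_add]; congr 1; ring
      rw [s1]
      linear_combination ((-1)^((i':ℕ)+1) * (-1)^x * (-1)^((i:ℕ)+1)) * (((bb n (i:ℕ) ((i':ℕ)+x) : ℝ) : ℂ) * ((bb n ((i':ℕ)+x) (i':ℕ) : ℝ) : ℂ)) * z
        + ((-1)^((i':ℕ)+1) * (-1)^x * (-1)^((i:ℕ)+1)) * (qr n ^ (((i':ℕ):ℤ) + 1 + ((i:ℕ):ℤ) + 1 + ((i:ℕ):ℤ)^2 + ((i:ℕ):ℤ)*((i':ℕ):ℤ)) *
            qr n ^ ((1 + ((i:ℕ):ℤ) + ((i':ℕ):ℤ)) * (x:ℤ))) * hb'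
    rw [sum_congr rfl e2, ← mul_sum, ← qb_prod hq, norm_mul, norm_mul, norm_mul, norm_mul,
      norm_neg_one_pow, norm_neg_one_pow, norm_bb hi, qr_norm, norm_prod]
    have e3 : ∀ l ∈ range r, ‖1 + -(qr n ^ (1 + ((i:ℕ):ℤ) + ((i':ℕ):ℤ))) * qr n ^ (2 * (l:ℤ) - r + 1)‖
        = sn n (((i':ℕ):ℤ) + 1 + l) := by
      intro l hl
      rw [mem_range] at hl
      rw [← norm_one_sub (by omega) (by omega), neg_mul, ← zpow_add₀ hq, ← sub_eq_add_neg]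
      congr 3
      rw [hr']; ring
    rw [prod_congr rfl e3, prod_sn_shift _ _ (by omega)]
    have e7 : (i':ℕ) + r = (i:ℕ) := by omega
    rw [e7]
    ring
  · rw [bb_eq_zero (by omega), zero_mul]
    have : ∑ k ∈ range n, uc n (i':ℕ) k * uc n k (i:ℕ) = 0 := by
      apply sum_eq_zero
      intro b hb
      rw [mem_range] at hb
      by_cases c : b < (i':ℕ)
      · rw [uc_bb hb, bb_eq_zero c]
        simp
      · rw [uc_bb (n := n) (i' := b) hi, bb_eq_zero (by omega : (i:ℕ) < b)]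
        simp
    rw [this, norm_zero]

/-- `|Up a' a| = [a+d, a'+d]` -/
theorem norm_Up {n d N : ℕ} (h : N + d = n) (a' a : Fin N) :
    ‖Up n d N a' a‖ = bb n ((a:ℕ)+d) ((a':ℕ)+d) := by
  have ha := a.isLt
  unfold Up
  rw [norm_mul, norm_mul, norm_neg_one_pow, qr_norm, norm_bb (by omega)]
  ring

/-- `|Lp a' a| = [d-1-a, a'-a]` for `a ≤ a' < d` -/
theorem norm_Lp {n d N : ℕ} (h : N + d = n) (a' a : Fin N) (hd : (a':ℕ) < d) :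
    ‖Lp n d N a' a‖ = if (a:ℕ) ≤ a' then bb n (d-1-(a:ℕ)) ((a':ℕ)-a) else 0 := by
  have ha' := a'.isLt
  unfold Lp
  split_ifs with hc
  · have e : ((a':ℕ):ℤ) - (d:ℤ) = -((d - 1 - (a':ℕ) : ℕ):ℤ) - 1 := by omega
    rw [e, gr_neg_bb (by omega)]
    have e2 : d - 1 - (a':ℕ) + ((a':ℕ) - (a:ℕ)) = d - 1 - (a:ℕ) := by omega
    rw [e2, bb_symm (by omega : d - 1 - (a':ℕ) ≤ d - 1 - (a:ℕ))]
    have e3 : d - 1 - (a:ℕ) - (d - 1 - (a':ℕ)) = (a':ℕ) - (a:ℕ) := by omega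
    rw [e3]
    simp only [Complex.ofReal_mul, Complex.ofReal_pow, Complex.ofReal_neg, Complex.ofReal_one]
    rw [norm_mul, norm_mul, norm_mul, norm_neg_one_pow, norm_neg_one_pow, qr_norm,
      norm_bb (by omega)]
    ring
  · rw [norm_zero]

end Pool.Agent.Helper26.VCT
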