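import Pool.Agent.Helper26.VCSyl4
import Pool.Agent.Helper39.VC.GrowthE

/-! # Upper bound by syllables -/

set_option linter.unusedSimpArgs false

namespace Pool.Agent.Helper26.VCT
open Finset Filter Pool.Agent.Helper39.VC Pool.Agent.Helper5.TV

/-- the cost of a syllable: `min (a κ₁) (2 κ₂)` -/
noncomputable def cst (s : (Fin 2 × Bool) × ℕ) : ℝ := min (s.2 * kap1) (2 * kap2)

theorem EE_eq (n : ℕ) : EE n = Real.exp (n * kap2) := rfl

theorem syl_letter (s : (Fin 2 × Bool) × ℕ) {ε : ℝ} (hε : 0 < ε) :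
    ∀ᶠ n : ℕ in atTop, ∀ p' p : Fin n × Fin n,
      ‖(Qlet n s.1 ^ s.2) p' p‖ ≤ Real.exp (n * (cst s + ε)) := by
  have hs : (0:ℝ) < s.2 + 1 := by positivity
  have hε' : 0 < ε / (2 * (s.2 + 1)) := by positivity
  filter_upwards [bb_upper hε', poly_le_exp' (2 * s.2) (half_pos hε),
    poly_le_exp' 5 hε, eventually_ge_atTop s.2, eventually_ge_atTop 98304]
    with n h1 h2 h3 h4 h5 p' p
  have hn0 : (0:ℝ) < n := by exact_mod_cast (by omega : 0 < n)
  have b1 : ‖(Qlet n s.1 ^ s.2) p' p‖ ≤ Real.exp (n * (s.2 * kap1 + ε)) := by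
    have h6 := norm_prod_le (n := n) h1 (Real.exp_pos _).le (List.replicate s.2 s.1) p' p
    rw [List.map_replicate, List.prod_replicate, List.length_replicate] at h6
    refine h6.trans ?_
    have e1 : ((n:ℝ)^2 * Real.exp (n * (2 * lob (Real.pi/6) / Real.pi + ε / (2 * (s.2 + 1))))) ^ s.2
        = (n:ℝ) ^ (2 * s.2) *
          Real.exp (n * (s.2 * kap1 + s.2 * (ε / (2 * (s.2 + 1))))) := by
      rw [mul_pow, ← pow_mul, ← Real.exp_nat_mul]
      unfold kap1
      congr 2
      ring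
    rw [e1]
    have e2 : (s.2:ℝ) * (ε / (2 * (s.2 + 1))) ≤ ε / 2 := by
      have h5 : (s.2:ℝ) * (ε / (2 * (s.2 + 1))) = (s.2 / (s.2 + 1)) * (ε / 2) := by
        field_simp
      rw [h5]
      have h6 : (s.2:ℝ) / (s.2 + 1) ≤ 1 := by
        rw [div_le_one hs]; linarith
      nlinarith
    calc (n:ℝ) ^ (2 * s.2) * Real.exp (n * (s.2 * kap1 + s.2 * (ε / (2 * (s.2 + 1)))))
        ≤ Real.exp (n * (ε / 2)) * Real.exp (n * (s.2 * kap1 + ε / 2)) := by gcongr
      _ = Real.exp (n * (s.2 * kap1 + ε)) := by rw [← Real.exp_add]; congr 1; ring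
  have b2 : ‖(Qlet n s.1 ^ s.2) p' p‖ ≤ Real.exp (n * (2 * kap2 + ε)) := by
    refine (Qlet_pow_le (by omega) h4 s.1 p' p).trans ?_
    have h5' : (98304:ℝ) ≤ n := by exact_mod_cast h5
    rw [EE_eq, ← Real.exp_nat_mul]
    calc 98304 * (n:ℝ)^4 * Real.exp ((2:ℕ) * (n * kap2))
        ≤ n * (n:ℝ)^4 * Real.exp ((2:ℕ) * (n * kap2)) := by gcongr
      _ = (n:ℝ)^5 * Real.exp (n * (2 * kap2)) := by
          have : ((2:ℕ):ℝ) * (n * kap2) = n * (2 * kap2) := by push_cast; ring
          rw [this]; ring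
      _ ≤ Real.exp (n * ε) * Real.exp (n * (2 * kap2)) := by gcongr
      _ = Real.exp (n * (2 * kap2 + ε)) := by rw [← Real.exp_add]; congr 1; ring
  unfold cst
  rcases le_total ((s.2:ℝ) * kap1) (2 * kap2) with h | h
  · rw [min_eq_left h]; exact b1
  · rw [min_eq_right h]; exact b2

theorem syl_word (L : List ((Fin 2 × Bool) × ℕ)) : ∀ {ε : ℝ}, 0 < ε →
    ∀ᶠ n : ℕ in atTop, ∀ p' p : Fin n × Fin n,
      ‖(((sylW L).map (Qlet n)).prod) p' p‖ ≤ Real.exp (n * ((L.map cst).sum + ε)) := by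
  induction L with
  | nil =>
    intro ε hε
    refine Eventually.of_forall (fun n p' p => ?_)
    have e : ((sylW []).map (Qlet n)).prod = 1 := by simp [sylW]
    rw [e, Matrix.one_apply, List.map_nil, List.sum_nil, zero_add]
    have : 1 ≤ Real.exp (n * ε) := Real.one_le_exp (by positivity)
    split_ifs
    · rw [norm_one]; exact this
    · rw [norm_zero]; linarith
  | cons s L ih =>
    intro ε hε
    have h3 : 0 < ε / 3 := by positivity
    filter_upwards [syl_letter s h3, ih h3, poly_le_exp' 2 h3] with n h1 h2 h4 p' p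
    have e : ((sylW (s :: L)).map (Qlet n)).prod
        = Qlet n s.1 ^ s.2 * ((sylW L).map (Qlet n)).prod := by
      rw [sylW_cons, List.map_append, List.prod_append, List.map_replicate, List.prod_replicate]
    rw [e, Matrix.mul_apply, List.map_cons, List.sum_cons]
    calc ‖∑ r, (Qlet n s.1 ^ s.2) p' r * (((sylW L).map (Qlet n)).prod) r p‖
        ≤ ∑ _r : Fin n × Fin n, Real.exp (n * (cst s + ε/3)) *
            Real.exp (n * ((L.map cst).sum + ε/3)) := by
          apply norm_sum_le_of_le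
          intro r _
          rw [norm_mul]
          exact mul_le_mul (h1 p' r) (h2 r p) (norm_nonneg _) (Real.exp_pos _).le
      _ = (n:ℝ)^2 * (Real.exp (n * (cst s + ε/3)) *
            Real.exp (n * ((L.map cst).sum + ε/3))) := by
          rw [sum_const, card_univ, nsmul_eq_mul, Fintype.card_prod, Fintype.card_fin]
          push_cast; ring
      _ ≤ Real.exp (n * (ε/3)) * (Real.exp (n * (cst s + ε/3)) *
            Real.exp (n * ((L.map cst).sum + ε/3))) := by gcongr
      _ = Real.exp (n * (cst s + (L.map cst).sum + ε)) := by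
          rw [← Real.exp_add, ← Real.exp_add]; congr 1; ring

/-- **Upper bound by syllables**: every syllable `σ_i^{± a}` of the braid word contributes at most
`min (a κ₁) (2 κ₂)` to the exponential growth rate. -/
theorem upper_syl (L : List ((Fin 2 × Bool) × ℕ)) {ε : ℝ} (hε : 0 < ε) :
    ∀ᶠ n : ℕ in atTop, ‖coloredJones n (qr n) (axisWord ++ shiftW (sylW L))‖
      ≤ Real.exp (n * ((L.map cst).sum + ε)) := by
  filter_upwards [syl_word L (half_pos hε), poly_le_exp' 3 (half_pos hε),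
    eventually_gt_atTop 0] with n h1 h2 hn
  rw [jones_word hn, norm_mul, norm_mul, qr_norm, one_mul, Complex.norm_natCast]
  have h : ‖(((sylW L).map (Qlet n)).prod).trace‖
      ≤ (n:ℝ)^2 * Real.exp (n * ((L.map cst).sum + ε/2)) := by
    rw [Matrix.trace]
    calc ‖∑ p, (((sylW L).map (Qlet n)).prod).diag p‖
        ≤ ∑ _p : Fin n × Fin n, Real.exp (n * ((L.map cst).sum + ε/2)) := by
          apply norm_sum_le_of_le
          intro p _
          exact h1 p p
      _ = (n:ℝ)^2 * Real.exp (n * ((L.map cst).sum + ε/2)) := by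
          rw [sum_const, card_univ, nsmul_eq_mul, Fintype.card_prod, Fintype.card_fin]
          push_cast; ring
  calc (n:ℝ) * ‖(((sylW L).map (Qlet n)).prod).trace‖
      ≤ (n:ℝ) * ((n:ℝ)^2 * Real.exp (n * ((L.map cst).sum + ε/2))) := by gcongr
    _ = (n:ℝ)^3 * Real.exp (n * ((L.map cst).sum + ε/2)) := by ring
    _ ≤ Real.exp (n * (ε/2)) * Real.exp (n * ((L.map cst).sum + ε/2)) := by gcongr
    _ = Real.exp (n * ((L.map cst).sum + ε)) := by rw [← Real.exp_add]; congr 1; ring

end Pool.Agent.Helper26.VCT
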